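import Mathlib

set_option autoImplicit false

/-!
# Binary ages: definitions and small lemmas (all proved)

2-structures `T : V → V → Θ` with `T y x = op (T x y)`; generic generalised self-embeddings; positions;
robust positions; generic positions; words.
-/

namespace Pool.Agent.Lib.MP_4fb322_lc_h7

open Set Filter

variable {Θ V W X : Type}

/-! ## Part 1: partial embeddings -/

/-- partial embedding of 2-structures, on the set `A` -/
def PE (T : V → V → Θ) (T' : W → W → Θ) (A : Set V) (f : V → W) : Prop :=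
  Set.InjOn f A ∧ ∀ x ∈ A, ∀ y ∈ A, T' (f x) (f y) = T x y

theorem PE.mono {T : V → V → Θ} {T' : W → W → Θ} {A B : Set V} {f : V → W} (h : PE T T' B f)
    (hAB : A ⊆ B) : PE T T' A f :=
  ⟨h.1.mono hAB, fun x hx y hy => h.2 x (hAB hx) y (hAB hy)⟩

theorem PE.comp {T : V → V → Θ} {T' : W → W → Θ} {T'' : X → X → Θ} {A : Set V} {B : Set W}
    {f : V → W} {g : W → X} (hf : PE T T' A f) (hg : PE T' T'' B g) (hm : ∀ x ∈ A, f x ∈ B) :
    PE T T'' A (fun x => g (f x)) :=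
  ⟨fun x hx y hy h => hf.1 hx hy (hg.1 (hm x hx) (hm y hy) h),
    fun x hx y hy => by rw [hg.2 _ (hm x hx) _ (hm y hy), hf.2 x hx y hy]⟩

theorem PE.congr {T : V → V → Θ} {T' : W → W → Θ} {A : Set V} {f g : V → W} (h : PE T T' A f)
    (e : ∀ x ∈ A, g x = f x) : PE T T' A g :=
  ⟨fun x hx y hy hxy => h.1 hx hy (by rw [← e x hx, ← e y hy]; exact hxy),
    fun x hx y hy => by rw [e x hx, e y hy]; exact h.2 x hx y hy⟩

theorem PE.id (T : V → V → Θ) (A : Set V) : PE T T A (fun x => x) :=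
  ⟨fun _ _ _ _ h => h, fun _ _ _ _ => rfl⟩

/-! ## Part 2: generalised self-embeddings -/

/-- generalised self-embedding of `T` -/
def GE (T : V → V → Θ) (u : Ultrafilter (V → V)) : Prop :=
  ∀ A : Set V, A.Finite → ∀ᶠ f in (u : Filter (V → V)), PE T T A f

/-- a generic generalised self-embedding: an idempotent of a minimal left ideal -/
structure Gen (T : V → V → Θ) (u : Ultrafilter (V → V)) : Prop where
  emb : GE T u
  idem : ∀ p : (V → V) → Prop, (∀ᶠ f in (u : Filter (V → V)), p f) ↔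
    ∀ᶠ f in (u : Filter (V → V)), ∀ᶠ g in (u : Filter (V → V)), p (fun x => g (f x))
  mini : ∀ v : Ultrafilter (V → V), GE T v → ∃ q : Ultrafilter (V → V), GE T q ∧
    ∀ p : (V → V) → Prop, (∀ᶠ f in (u : Filter (V → V)), p f) ↔
      ∀ᶠ f in (q : Filter (V → V)), ∀ᶠ g in (v : Filter (V → V)),
        ∀ᶠ h in (u : Filter (V → V)), p (fun x => h (g (f x)))

/-- the points whose generic copy lies in `C` -/
def th (u : Ultrafilter (V → V)) (C : Set V) : Set V :=
  {z | ∀ᶠ f in (u : Filter (V → V)), f z ∈ C}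

/-- the compact set of positions of one point -/
def KK (u : Ultrafilter (V → V)) : Set (Ultrafilter V) :=
  {v | ∀ C : Set V, C ∈ v ↔ th u C ∈ v}

/-- the pins -/
def PN (u : Ultrafilter (V → V)) : Set V :=
  {x | ∀ᶠ f in (u : Filter (V → V)), f x = x}

/-- the position of the generic copy of a point -/
def ev (u : Ultrafilter (V → V)) (x : V) : Ultrafilter V := u.map (fun f => f x)

/-- positions of the finite structure `A` (with the structure `T`) -/
def Pos (T : V → V → Θ) (u : Ultrafilter (V → V)) (A : Set V) (v : V → Ultrafilter V) : Prop :=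
  (∀ x ∈ A, v x ∈ KK u) ∧
    ∀ B : V → Set V, (∀ x ∈ A, B x ∈ v x) → ∃ f : V → V, PE T T A f ∧ ∀ x ∈ A, f x ∈ B x

/-- the limit of a function with finitely many values along an ultrafilter -/
noncomputable def lim [Nonempty Θ] (v : Ultrafilter V) (f : V → Θ) : Θ :=
  Classical.epsilon (fun θ => ∀ᶠ x in (v : Filter V), f x = θ)

theorem lim_spec [Nonempty Θ] [Finite Θ] (v : Ultrafilter V) (f : V → Θ) :
    ∀ᶠ x in (v : Filter V), f x = lim v f := by
  have h : ∃ θ, ∀ᶠ x in (v : Filter V), f x = θ := by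
    by_contra h
    simp only [not_exists] at h
    have h' : ∀ θ, ∀ᶠ x in (v : Filter V), ¬ f x = θ := fun θ => by
      by_contra h2
      exact h θ (by
        rw [Filter.not_eventually] at h2
        simpa [Ultrafilter.frequently_iff_eventually] using h2)
    have h2 : ∀ᶠ x in (v : Filter V), ∀ θ, ¬ f x = θ := Filter.eventually_all.2 h'
    obtain ⟨x, hx⟩ := h2.exists
    exact hx (f x) rfl
  exact Classical.epsilon_spec h

theorem lim_eq [Nonempty Θ] [Finite Θ] {v : Ultrafilter V} {f : V → Θ} {θ : Θ}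
    (h : ∀ᶠ x in (v : Filter V), f x = θ) : lim v f = θ := by
  obtain ⟨x, hx1, hx2⟩ := ((lim_spec v f).and h).exists
  rw [← hx1, hx2]

theorem lim_eq_iff [Nonempty Θ] [Finite Θ] {v : Ultrafilter V} {f : V → Θ} {θ : Θ} :
    lim v f = θ ↔ ∀ᶠ x in (v : Filter V), f x = θ :=
  ⟨fun h => h ▸ lim_spec v f, lim_eq⟩

/-- the limit relation: first the point near `a` is chosen, then the point near `b` -/
noncomputable def QQ [Nonempty Θ] (T : V → V → Θ) (a b : Ultrafilter V) : Θ :=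
  lim a (fun x => lim b (fun y => T x y))

/-- the relation `T x y = θ` shatters sets of size `n` -/
def Shat (T : V → V → Θ) (θ : Θ) (n : ℕ) : Prop :=
  ∃ z : Fin n → V, ∀ S : Set (Fin n), ∃ y : V, ∀ i, T (z i) y = θ ↔ i ∈ S

/-! ## Part 3: robust positions -/

/-- A robust position of the finite structure `A`: points `x` with `pt x = 0` are placed on the pins `π x`; the other
parts `{x | pt x = i}`, `0 < i`, are ordered by `i`; `C x` describes an open set of positions. -/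
structure Rob [Nonempty Θ] (T : V → V → Θ) (u : Ultrafilter (V → V))
    (A : Finset V) (pt : V → ℕ) (π : V → V) (C : V → Set V) : Prop where
  pin : ∀ x ∈ A, pt x = 0 → π x ∈ PN u
  pinj : ∀ x ∈ A, ∀ y ∈ A, pt x = 0 → pt y = 0 → π x = π y → x = y
  pinT : ∀ x ∈ A, ∀ y ∈ A, pt x = 0 → pt y = 0 → T (π x) (π y) = T x y
  pinQ : ∀ x ∈ A, ∀ y ∈ A, pt x = 0 → pt y ≠ 0 → ∀ v ∈ KK u, C y ∈ v →
    lim v (fun b => T (π x) b) = T x y ∧ v ≠ pure (π x)
  cross : ∀ x ∈ A, ∀ y ∈ A, 0 < pt x → pt x < pt y → ∀ v ∈ KK u, ∀ w ∈ KK u, C x ∈ v →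
    C y ∈ w → QQ T v w = T x y
  crossS : ∀ x ∈ A, ∀ y ∈ A, 0 < pt x → pt x < pt y → ∃ θ, ∀ v ∈ KK u, ∀ w ∈ KK u,
    C x ∈ v → C y ∈ w → QQ T w v = θ
  pos : ∀ i, 0 < i → ∃ v : V → Ultrafilter V, Pos T u {x | x ∈ A ∧ pt x = i} v ∧
    ∀ x ∈ A, pt x = i → C x ∈ v x ∧ ∀ p, v x ≠ pure p

/-- number of parts -/
def npt (A : Finset V) (pt : V → ℕ) : ℕ :=
  (A.filter (fun x => pt x = 0)).card + ((A.image pt).erase 0).card

/-- number of pins used -/
def npn (A : Finset V) (pt : V → ℕ) : ℕ := (A.filter (fun x => pt x = 0)).card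

/-- a robust position with the maximal number of parts and, among these, the maximal number of pins -/
structure MaxRob [Nonempty Θ] (T : V → V → Θ) (u : Ultrafilter (V → V))
    (A : Finset V) (pt : V → ℕ) (π : V → V) (C : V → Set V) : Prop where
  rob : Rob T u A pt π C
  max : ∀ pt' π' C', Rob T u A pt' π' C' → npt A pt' ≤ npt A pt
  maxp : ∀ pt' π' C', Rob T u A pt' π' C' → npt A pt' = npt A pt → npn A pt' ≤ npn A pt

/-- the part `i` of `a n` -/
def part (a : ℕ → Finset V) (pt : ℕ → V → ℕ) (n i : ℕ) : Set V := {x | x ∈ a n ∧ pt n x = i}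

/-- `Q` is constant on the rectangle given by `B`, `B'` (first `B`, then `B'`) -/
def Cst [Nonempty Θ] (T : V → V → Θ) (u : Ultrafilter (V → V)) (B B' : Set V) : Prop :=
  ∃ θ, ∀ v ∈ KK u, ∀ w ∈ KK u, B ∈ v → B' ∈ w → QQ T v w = θ

/-- generic positions `ρ n x` of the points `x ∈ a n`, `pt n x ≠ 0` -/
structure GenPos [Nonempty Θ] (T : V → V → Θ) (u : Ultrafilter (V → V)) (a : ℕ → Finset V)
    (pt : ℕ → V → ℕ) (C : ℕ → V → Set V) (ρ : ℕ → V → Ultrafilter V) : Prop where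
  pos : ∀ n i, 0 < i → Pos T u (part a pt n i) (ρ n)
  mem : ∀ n, ∀ x ∈ a n, pt n x ≠ 0 → C n x ∈ ρ n x
  gen : ∀ n i n' i', 0 < i → 0 < i' → (n, i) ≠ (n', i') → ∀ x ∈ part a pt n i,
    ∀ x' ∈ part a pt n' i', ∃ B ∈ ρ n x, ∃ B' ∈ ρ n' x', Cst T u B B' ∧ Cst T u B' B

/-! ## Part 4: words -/

/-- points of the words: pins `inl p`, and points `inr (l, j, x)`: the point `x` of `a j`, in the block `l` -/
abbrev Pt (V : Type) : Type := V ⊕ (ℕ × ℕ × V)

/-- the rank (block, index, part) of a point: the pieces are ordered by the rank -/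
def rk (pt : ℕ → V → ℕ) (z : ℕ × ℕ × V) : ℕ ×ₗ ℕ ×ₗ ℕ :=
  toLex (z.1, toLex (z.2.1, pt z.2.1 z.2.2))

/-- the structure on the points of the words -/
noncomputable def TW [Nonempty Θ] (op : Θ → Θ) (T : V → V → Θ) (pt : ℕ → V → ℕ)
    (ρ : ℕ → V → Ultrafilter V) : Pt V → Pt V → Θ
  | Sum.inl p, Sum.inl q => T p q
  | Sum.inl p, Sum.inr z => lim (ρ z.2.1 z.2.2) (fun b => T p b)
  | Sum.inr z, Sum.inl p => op (lim (ρ z.2.1 z.2.2) (fun b => T p b))
  | Sum.inr z, Sum.inr z' =>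
    if rk pt z = rk pt z' then T z.2.2 z'.2.2
    else if rk pt z < rk pt z' then QQ T (ρ z.2.1 z.2.2) (ρ z'.2.1 z'.2.2)
    else op (QQ T (ρ z'.2.1 z'.2.2) (ρ z.2.1 z.2.2))

/-- the position of a point -/
def rho (ρ : ℕ → V → Ultrafilter V) : Pt V → Ultrafilter V
  | Sum.inl p => pure p
  | Sum.inr z => ρ z.2.1 z.2.2

/-- the valid points -/
def Val (u : Ultrafilter (V → V)) (a : ℕ → Finset V) (pt : ℕ → V → ℕ) : Set (Pt V) :=
  {z | (∃ p ∈ PN u, z = Sum.inl p) ∨ ∃ l j x, x ∈ a j ∧ pt j x ≠ 0 ∧ z = Sum.inr (l, j, x)}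

/-- every piece occurs in at most one block -/
def Simp (pt : ℕ → V → ℕ) (N : Set (Pt V)) : Prop :=
  ∀ l l' j x x', Sum.inr (l, j, x) ∈ N → Sum.inr (l', j, x') ∈ N → pt j x = pt j x' → l = l'

/-- full families -/
def Full (T : V → V → Θ) (T' : W → W → Θ) {ι : Type} (U : Ultrafilter ι) (N : ι → Set W) : Prop :=
  ∀ Y : Set V, Y.Finite → ∀ᶠ m in (U : Filter ι), ∃ f : V → W, PE T T' Y f ∧ ∀ x ∈ Y, f x ∈ N m

/-- the nonprincipal ultrafilter -/
noncomputable abbrev UF : Ultrafilter ℕ := Filter.hyperfilter ℕ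

/-- minimality of the age of `T`, in the form in which it is used -/
def Mini (T : V → V → Θ) (a : ℕ → Finset V) : Prop :=
  ∀ (ι W : Type) (U : Ultrafilter ι) (T' : W → W → Θ) (N : ι → Set W),
    (∀ m, ∀ Y : Set W, Y.Finite → Y ⊆ N m → ∃ h : W → V, PE T' T Y h) →
    (∀ᶠ n in (UF : Filter ℕ), ∀ᶠ m in (U : Filter ι), ∃ f : V → W, PE T T' (a n : Set V) f ∧
      ∀ x ∈ a n, f x ∈ N m) → Full T T' U N

/-- the data of the first half -/
structure Dat [Nonempty Θ] (op : Θ → Θ) (T : V → V → Θ) (a : ℕ → Finset V)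
    (u : Ultrafilter (V → V)) (pt : ℕ → V → ℕ) (π : ℕ → V → V) (C : ℕ → V → Set V)
    (ρ : ℕ → V → Ultrafilter V) : Prop where
  opT : ∀ x y, T y x = op (T x y)
  gen : Gen T u
  mini : Mini T a
  anti : ∀ i j, i ≠ j → ¬ ∃ f : V → V, PE T T (a i : Set V) f ∧ ∀ x ∈ a i, f x ∈ a j
  mrob : ∀ n, MaxRob T u (a n) (pt n) (π n) (C n)
  gpos : GenPos T u a pt C ρ

/-- `f` is a near embedding of `Y` into `N`, with respect to the sets in `𝒞` -/
def NE [Nonempty Θ] (op : Θ → Θ) (T : V → V → Θ) (pt : ℕ → V → ℕ) (ρ : ℕ → V → Ultrafilter V)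
    (𝒞 : Set (Set V)) (Y N : Set (Pt V)) (f : Pt V → Pt V) : Prop :=
  PE (TW op T pt ρ) (TW op T pt ρ) Y f ∧
    ∀ y ∈ Y, f y ∈ N ∧ ∀ B ∈ 𝒞, (B ∈ rho ρ (f y) ↔ B ∈ rho ρ y)

/-- existence of a near embedding -/
def NX [Nonempty Θ] (op : Θ → Θ) (T : V → V → Θ) (pt : ℕ → V → ℕ) (ρ : ℕ → V → Ultrafilter V)
    (𝒞 : Set (Set V)) (Y N : Set (Pt V)) : Prop := ∃ f, NE op T pt ρ 𝒞 Y N f

/-- the points of `a j` with part number in `J`, in the block `l` -/
def blk (a : ℕ → Finset V) (pt : ℕ → V → ℕ) (l j : ℕ) (J : Set ℕ) : Set (Pt V) :=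
  {z | ∃ x, x ∈ a j ∧ pt j x ≠ 0 ∧ pt j x ∈ J ∧ z = Sum.inr (l, j, x)}

/-- all pins -/
def PP (u : Ultrafilter (V → V)) : Set (Pt V) := {z | ∃ p ∈ PN u, z = Sum.inl p}

/-- the parts `i < i'` of `a n` commute -/
def Com [Nonempty Θ] (T : V → V → Θ) (u : Ultrafilter (V → V)) (a : ℕ → Finset V)
    (pt : ℕ → V → ℕ) (C : ℕ → V → Set V) (n i i' : ℕ) : Prop :=
  ∀ x ∈ part a pt n i, ∀ y ∈ part a pt n i', ∀ v ∈ KK u, ∀ w ∈ KK u, C n x ∈ v → C n y ∈ w →
    QQ T v w = T x y ∧ QQ T w v = T y x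

end Pool.Agent.Lib.MP_4fb322_lc_h7
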