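import Mathlib
import Pool.Agent.Lib.MP_4fb322_lc_h7.Defs

set_option autoImplicit false

/-!
# Row R01

Generic generalised self-embeddings exist (Ellis). Adapt `Pool/Agent/Lib/MP_4fb322_lc_h91s/S01.lean` (on origin/main; same
definitions with `PE T T` instead of `PE M`): `GE T` is closed, nonempty (`pure id`), closed under the product; minimal left ideal by Zorn; idempotent.
-/

namespace Pool.Agent.Lib.MP_4fb322_lc_h7

open Set Filter

variable {Θ V W X : Type}

open Ultrafilter in
attribute [local instance] Ultrafilter.mul Ultrafilter.semigroup in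
private theorem r01_ellis {S : Type} [Semigroup S] (E : Set (Ultrafilter S)) (hc : IsClosed E)
    (hne : E.Nonempty) (hmul : ∀ a ∈ E, ∀ b ∈ E, a * b ∈ E) :
    ∃ u ∈ E, u * u = u ∧ ∀ v ∈ E, ∃ q ∈ E, q * (v * u) = u := by
  obtain ⟨L, hLE, hmin⟩ := zorn_superset_nonempty
    {L : Set (Ultrafilter S) | IsClosed L ∧ L.Nonempty ∧ L ⊆ E ∧ ∀ a ∈ E, ∀ b ∈ L, a * b ∈ L}
    (by
      intro c hcS hchain hcne
      refine ⟨⋂₀ c, ⟨isClosed_sInter fun t ht => (hcS ht).1, ?_, ?_, ?_⟩, fun s hs =>
        Set.sInter_subset_of_mem hs⟩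
      · have : Nonempty c := hcne.coe_sort
        exact IsCompact.nonempty_sInter_of_directed_nonempty_isCompact_isClosed
          (IsChain.directedOn hchain.symm) (fun U hU => (hcS hU).2.1)
          (fun U hU => (hcS hU).1.isCompact) (fun U hU => (hcS hU).1)
      · obtain ⟨t, ht⟩ := hcne
        exact (Set.sInter_subset_of_mem ht).trans (hcS ht).2.2.1
      · intro a ha b hb
        rw [Set.mem_sInter] at hb ⊢
        exact fun t ht => (hcS ht).2.2.2 a ha b (hb t ht))
    E ⟨hc, hne, subset_rfl, hmul⟩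
  obtain ⟨hLc, hLne, hLE', hLid⟩ := hmin.prop
  obtain ⟨u, huL, huu⟩ := exists_idempotent_in_compact_subsemigroup
    (fun r : Ultrafilter S => Ultrafilter.continuous_mul_left r) L hLne hLc.isCompact
    (fun x hx y hy => hLid x (hLE' hx) y hy)
  refine ⟨u, hLE' huL, huu, fun v hv => ?_⟩
  have hvu : v * u ∈ L := hLid v hv u huL
  have hsub : (fun q => q * (v * u)) '' E ⊆ L := by
    rintro _ ⟨q, hq, rfl⟩
    exact hLid q hq _ hvu
  have hmem : (fun q => q * (v * u)) '' E ∈ {L : Set (Ultrafilter S) | IsClosed L ∧ L.Nonempty ∧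
      L ⊆ E ∧ ∀ a ∈ E, ∀ b ∈ L, a * b ∈ L} := by
    refine ⟨(hc.isCompact.image (Ultrafilter.continuous_mul_left (v * u))).isClosed,
      hne.image _, hsub.trans hLE', ?_⟩
    rintro a ha _ ⟨q, hq, rfl⟩
    exact ⟨a * q, hmul a ha q hq, mul_assoc a q (v * u)⟩
  have h1 : L ⊆ (fun q => q * (v * u)) '' E := hmin.le_of_le hmem hsub
  obtain ⟨q, hq, hqe⟩ := h1 huL
  exact ⟨q, hq, hqe⟩

attribute [local instance] Ultrafilter.mul Ultrafilter.semigroup in
theorem exists_gen (T : V → V → Θ) : ∃ u, Gen T u := by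
  letI inst : Semigroup (V → V) :=
    { mul := fun f g x => g (f x)
      mul_assoc := fun _ _ _ => rfl }
  have hev : ∀ (u v : Ultrafilter (V → V)) (p : (V → V) → Prop),
      (∀ᶠ f in ((u * v : Ultrafilter (V → V)) : Filter (V → V)), p f) ↔
        ∀ᶠ f in (u : Filter (V → V)), ∀ᶠ g in (v : Filter (V → V)), p (fun x => g (f x)) :=
    fun u v p => Ultrafilter.eventually_mul u v p
  have hE : ∃ u ∈ {u : Ultrafilter (V → V) | GE T u}, u * u = u ∧
      ∀ v ∈ {u : Ultrafilter (V → V) | GE T u}, ∃ q ∈ {u : Ultrafilter (V → V) | GE T u},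
        q * (v * u) = u := by
    refine r01_ellis _ ?_ ?_ ?_
    · have h1 : {u : Ultrafilter (V → V) | GE T u} =
          ⋂ (A : Set V), ⋂ (_ : A.Finite), {u : Ultrafilter (V → V) | {f | PE T T A f} ∈ u} := by
        ext u
        simp only [Set.mem_ofPred_eq, Set.mem_iInter]
        rfl
      rw [h1]
      exact isClosed_iInter fun A => isClosed_iInter fun _ => ultrafilter_isClosed_basic _
    · refine ⟨(pure id : Ultrafilter (V → V)), ?_⟩
      intro A _
      change ∀ᶠ f in (pure id : Filter (V → V)), PE T T A f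
      rw [Filter.eventually_pure]
      exact PE.id T A
    · intro a ha b hb A hA
      rw [hev]
      filter_upwards [ha A hA] with f hf
      filter_upwards [hb (f '' A) (hA.image f)] with g hg
      exact PE.comp hf hg fun y hy => ⟨y, hy, rfl⟩
  obtain ⟨u, hu, huu, hq⟩ := hE
  refine ⟨u, hu, ?_, ?_⟩
  · intro p
    have h1 := hev u u p
    rw [huu] at h1
    exact h1
  · intro v hv
    obtain ⟨q, hqE, hqe⟩ := hq v hv
    refine ⟨q, hqE, fun p => ?_⟩
    have h1 := hev q (v * u) p
    rw [hqe] at h1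
    rw [h1]
    refine Filter.eventually_congr (Filter.Eventually.of_forall fun f => ?_)
    exact hev v u (fun h => p (fun x => h (f x)))

end Pool.Agent.Lib.MP_4fb322_lc_h7
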