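import Mathlib
import Pool.Agent.Lib.MP_4fb322_lc_h7.Defs

set_option autoImplicit false

/-!
# Row R02

Small facts on `th`, `KK`, `PN`, `ev`. PROOFS. mem_ev: by definition of `Ultrafilter.map`. th_compl / th_inter / th_mono / th_univ:
ultrafilter logic (`Ultrafilter.eventually_not`, `Filter.eventually_and`). th_th: `hg.idem` with `p f := f z ∈ C`. pure_mem: if `pure x ∈ KK` take `C = {x}`;
conversely if `f x = x` for almost all `f` then `x ∈ th u C ↔ x ∈ C`. isClosed_KK: intersection over `C` of the clopen sets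
`{v | C ∈ v ↔ th u C ∈ v}` (`ultrafilter_isClosed_basic`, `ultrafilter_isOpen_basic`, complement). ev_mem: mem_ev and th_th (the set `{f | f x ∈ th u C}`).
pn_of_ev: `ev u x = pure p` gives `f x = p` for almost all `f`; idem: `g p = p` for almost all `g` hence `g x = g p`, injectivity (hg.emb for `{x, p}`).
ev_pin: `x ∈ PN u → ev u x = pure x`.
-/

namespace Pool.Agent.Lib.MP_4fb322_lc_h7

open Set Filter

variable {Θ V W X : Type}

theorem mem_ev {u : Ultrafilter (V → V)} {x : V} {C : Set V} : C ∈ ev u x ↔ x ∈ th u C :=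
  Iff.rfl

theorem th_compl {u : Ultrafilter (V → V)} (C : Set V) : th u Cᶜ = (th u C)ᶜ := by
  ext z
  exact Ultrafilter.eventually_not

theorem th_inter {u : Ultrafilter (V → V)} (C D : Set V) : th u (C ∩ D) = th u C ∩ th u D := by
  ext z
  exact Filter.eventually_and

theorem th_mono {u : Ultrafilter (V → V)} {C D : Set V} (h : C ⊆ D) : th u C ⊆ th u D :=
  fun _ hz => Filter.Eventually.mono hz fun _ hf => h hf

theorem th_univ {u : Ultrafilter (V → V)} : th u (Set.univ : Set V) = Set.univ := by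
  ext z
  exact ⟨fun _ => Set.mem_univ _, fun _ => Filter.Eventually.of_forall fun _ => Set.mem_univ _⟩

theorem th_th {T : V → V → Θ} {u : Ultrafilter (V → V)} (hg : Gen T u) (C : Set V) :
    th u (th u C) = th u C := by
  ext z
  exact (hg.idem (fun f => f z ∈ C)).symm

theorem pure_mem_KK {u : Ultrafilter (V → V)} {x : V} :
    (pure x : Ultrafilter V) ∈ KK u ↔ x ∈ PN u := by
  constructor
  · intro h
    have h1 := (h {x}).1 (Ultrafilter.mem_pure.2 rfl)
    have h2 : x ∈ th u {x} := Ultrafilter.mem_pure.1 h1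
    exact h2
  · intro h C
    rw [Ultrafilter.mem_pure, Ultrafilter.mem_pure]
    have h1 : (∀ᶠ f in (u : Filter (V → V)), f x ∈ C) ↔ ∀ᶠ _f in (u : Filter (V → V)), x ∈ C := by
      apply Filter.eventually_congr
      refine Filter.Eventually.mono h fun f hf => ?_
      have hf' : f x = x := hf
      rw [hf']
    rw [Filter.eventually_const] at h1
    exact h1.symm

theorem isClosed_KK (u : Ultrafilter (V → V)) : IsClosed (KK u) := by
  have h1 : KK u = ⋂ C : Set V, (({v | C ∈ v} ∩ {v | th u C ∈ v}) ∪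
      ({v | Cᶜ ∈ v} ∩ {v | (th u C)ᶜ ∈ v}) : Set (Ultrafilter V)) := by
    ext v
    simp only [KK, Set.mem_ofPred_eq, Set.mem_iInter, Set.mem_union, Set.mem_inter_iff,
      Ultrafilter.compl_mem_iff_notMem]
    exact forall_congr' fun C => by tauto
  rw [h1]
  refine isClosed_iInter fun C => IsClosed.union ?_ ?_
  · exact (ultrafilter_isClosed_basic _).inter (ultrafilter_isClosed_basic _)
  · exact (ultrafilter_isClosed_basic _).inter (ultrafilter_isClosed_basic _)

theorem ev_mem_KK {T : V → V → Θ} {u : Ultrafilter (V → V)} (hg : Gen T u) (x : V) :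
    ev u x ∈ KK u := by
  intro C
  rw [mem_ev, mem_ev, th_th hg]

theorem pn_of_ev {T : V → V → Θ} {u : Ultrafilter (V → V)} (hg : Gen T u) {x p : V}
    (h : ev u x = pure p) : x ∈ PN u := by
  have h1 : ∀ᶠ f in (u : Filter (V → V)), f x = p := by
    have : ({p} : Set V) ∈ ev u x := by
      rw [h]; exact Ultrafilter.mem_pure.2 rfl
    exact this
  have h2 := (hg.idem (fun f => f x = p)).1 h1
  obtain ⟨f, hf1, hf2⟩ := (h1.and h2).exists
  have h3 := hg.emb {x, p} (Set.toFinite _)
  obtain ⟨g, ⟨hg1, hg2⟩, hg3⟩ := ((h1.and hf2).and h3).exists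
  have hg2' : g (f x) = p := hg2
  rw [hf1] at hg2'
  have hxp : x = p := hg3.1 (by simp) (by simp) (hg1.trans hg2'.symm)
  refine h1.mono fun f hf => ?_
  rw [hf, hxp]

theorem ev_pin {u : Ultrafilter (V → V)} {x : V} (h : x ∈ PN u) : ev u x = pure x := by
  ext C
  rw [Ultrafilter.mem_pure, mem_ev]
  have h1 : (∀ᶠ f in (u : Filter (V → V)), f x ∈ C) ↔ ∀ᶠ _f in (u : Filter (V → V)), x ∈ C := by
    apply Filter.eventually_congr
    refine Filter.Eventually.mono h fun f hf => ?_
    have hf' : f x = x := hf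
    rw [hf']
  rw [Filter.eventually_const] at h1
  exact h1

end Pool.Agent.Lib.MP_4fb322_lc_h7
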