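import Mathlib
import Pool.Agent.Lib.MP_4fb322_lc_h7.Defs
import Pool.Agent.Lib.MP_4fb322_lc_h7.R02

set_option autoImplicit false

/-!
# Row R03

Facts on positions. PROOFS. pos_ev: first part ev_mem_KK; if `B x ∈ ev u (f x)` for the `x` in the finite set `A`, then almost all `g` satisfy
`g (f x) ∈ B x` for all `x ∈ A` and `PE T T (f '' A) g` (hg.emb): take `fun x => g (f x)` (PE.comp). pos_mono: extend `B` by `Set.univ` (classical `if`). isClosed_Pos: the
complement of the second condition is a union over `B` (with no embedding) of the open sets `{v | ∀ x ∈ A, B x ∈ v x}` (finite intersection; `A` finite); evaluation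
is continuous; first part isClosed_KK. pos_inj: `B x = {p}`, `B y = {p}`, other `B z = univ`: an embedding with `f x = f y`. pos_pin: if the limit `θ` of `T p ·` along `v y`
is not `T x y`, take `B x = {p}`, `B y = {b | T p b = θ}` (if `x = y`: then `v y = pure p` and `T p p = T x x` by `B x = {p}`; treat it separately). pos_pp: `B x = {p}`, `B y = {q}`.
-/

namespace Pool.Agent.Lib.MP_4fb322_lc_h7

open Set Filter

variable {Θ V W X : Type}

theorem pos_ev {T : V → V → Θ} {u : Ultrafilter (V → V)} (hg : Gen T u) {A : Set V}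
    (hA : A.Finite) {f : V → V} (hf : PE T T A f) : Pos T u A (fun x => ev u (f x)) := by
  refine ⟨fun x _ => ev_mem_KK hg _, fun B hB => ?_⟩
  have h1 : ∀ᶠ g in (u : Filter (V → V)), ∀ x ∈ A, g (f x) ∈ B x :=
    (Filter.eventually_all_finite hA).2 fun x hx => hB x hx
  obtain ⟨g, hg1, hg2⟩ := (h1.and (hg.emb (f '' A) (hA.image f))).exists
  exact ⟨fun x => g (f x), hf.comp hg2 (fun x hx => Set.mem_image_of_mem f hx), hg1⟩

theorem pos_mono {T : V → V → Θ} {u : Ultrafilter (V → V)} {A A' : Set V}
    {v : V → Ultrafilter V} (h : Pos T u A v) (hA : A' ⊆ A) : Pos T u A' v := by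
  classical
  refine ⟨fun x hx => h.1 x (hA hx), fun B hB => ?_⟩
  obtain ⟨f, hf, hfB⟩ := h.2 (fun x => if x ∈ A' then B x else Set.univ) (by
    intro x _
    by_cases hx' : x ∈ A'
    · simp only [if_pos hx']
      exact hB x hx'
    · simp only [if_neg hx']
      exact Filter.univ_mem)
  refine ⟨f, hf.mono hA, fun x hx => ?_⟩
  have := hfB x (hA hx)
  simpa only [if_pos hx] using this

theorem pos_congr {T : V → V → Θ} {u : Ultrafilter (V → V)} {A : Set V}
    {v w : V → Ultrafilter V} (h : Pos T u A v) (e : ∀ x ∈ A, w x = v x) : Pos T u A w := by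
  refine ⟨fun x hx => by rw [e x hx]; exact h.1 x hx, fun B hB => h.2 B fun x hx => ?_⟩
  rw [← e x hx]
  exact hB x hx

theorem isClosed_Pos (T : V → V → Θ) (u : Ultrafilter (V → V)) {A : Set V} (hA : A.Finite) :
    IsClosed {v : V → Ultrafilter V | Pos T u A v} := by
  have h1 : IsClosed {v : V → Ultrafilter V | ∀ x ∈ A, v x ∈ KK u} := by
    have e : {v : V → Ultrafilter V | ∀ x ∈ A, v x ∈ KK u} =
        ⋂ x ∈ A, (fun v : V → Ultrafilter V => v x) ⁻¹' KK u := by
      ext v
      simp
    rw [e]
    exact isClosed_biInter fun x _ => (isClosed_KK u).preimage (continuous_apply x)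
  have h2 : IsClosed {v : V → Ultrafilter V | ∀ B : V → Set V, (∀ x ∈ A, B x ∈ v x) →
      ∃ f : V → V, PE T T A f ∧ ∀ x ∈ A, f x ∈ B x} := by
    have e : {v : V → Ultrafilter V | ∀ B : V → Set V, (∀ x ∈ A, B x ∈ v x) →
        ∃ f : V → V, PE T T A f ∧ ∀ x ∈ A, f x ∈ B x} =
        ⋂ B : V → Set V, {v : V → Ultrafilter V | (∀ x ∈ A, B x ∈ v x) →
          ∃ f : V → V, PE T T A f ∧ ∀ x ∈ A, f x ∈ B x} := by
      ext v
      simp
    rw [e]
    refine isClosed_iInter fun B => ?_
    by_cases hB : ∃ f : V → V, PE T T A f ∧ ∀ x ∈ A, f x ∈ B x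
    · have e2 : {v : V → Ultrafilter V | (∀ x ∈ A, B x ∈ v x) →
          ∃ f : V → V, PE T T A f ∧ ∀ x ∈ A, f x ∈ B x} = Set.univ :=
        Set.eq_univ_of_forall fun v _ => hB
      rw [e2]
      exact isClosed_univ
    · have e2 : {v : V → Ultrafilter V | (∀ x ∈ A, B x ∈ v x) →
          ∃ f : V → V, PE T T A f ∧ ∀ x ∈ A, f x ∈ B x} =
          (⋂ x ∈ A, (fun v : V → Ultrafilter V => v x) ⁻¹' {w | B x ∈ w})ᶜ := by
        ext v
        constructor
        · intro hv hv2
          apply hB
          apply hv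
          intro x hx
          exact Set.mem_iInter₂.1 hv2 x hx
        · intro hv hv2
          exact absurd (Set.mem_iInter₂.2 fun x hx => hv2 x hx) hv
      rw [e2, isClosed_compl_iff]
      exact hA.isOpen_biInter fun x _ =>
        (ultrafilter_isOpen_basic (B x)).preimage (continuous_apply x)
  exact h1.inter h2

theorem pos_inj {T : V → V → Θ} {u : Ultrafilter (V → V)} {A : Set V}
    {v : V → Ultrafilter V} (h : Pos T u A v) {x y p : V} (hx : x ∈ A) (hy : y ∈ A)
    (h1 : v x = pure p) (h2 : v y = pure p) : x = y := by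
  classical
  obtain ⟨f, hf, hfB⟩ := h.2 (fun z => if z = x ∨ z = y then {p} else Set.univ) (by
    intro z _
    by_cases hz : z = x ∨ z = y
    · simp only [if_pos hz]
      rcases hz with rfl | rfl
      · rw [h1]; exact Ultrafilter.mem_pure.2 rfl
      · rw [h2]; exact Ultrafilter.mem_pure.2 rfl
    · simp only [if_neg hz]
      exact Filter.univ_mem)
  have e1 : f x = p := by simpa using hfB x hx
  have e2 : f y = p := by simpa using hfB y hy
  exact hf.1 hx hy (e1.trans e2.symm)

private theorem pos_pin_aux {T : V → V → Θ} {u : Ultrafilter (V → V)} {A : Set V}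
    {v : V → Ultrafilter V} (h : Pos T u A v) {x y p : V} (hx : x ∈ A) (hy : y ∈ A)
    (h1 : v x = pure p) : ∀ᶠ b in (v y : Filter V), T p b = T x y := by
  classical
  by_contra hno
  have hno' : {b | ¬ T p b = T x y} ∈ v y := Ultrafilter.eventually_not.2 hno
  obtain ⟨f, hf, hfB⟩ := h.2 (fun z => (if z = x then {p} else Set.univ) ∩
      (if z = y then {b | ¬ T p b = T x y} else Set.univ)) (by
    intro z _
    refine Filter.inter_mem ?_ ?_
    · by_cases hz : z = x
      · simp only [if_pos hz]
        rw [hz, h1]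
        exact Ultrafilter.mem_pure.2 rfl
      · simp only [if_neg hz]
        exact Filter.univ_mem
    · by_cases hz : z = y
      · simp only [if_pos hz]
        rw [hz]
        exact hno'
      · simp only [if_neg hz]
        exact Filter.univ_mem)
  have e1 : f x = p := by
    have := (hfB x hx).1
    simpa using this
  have e2 : ¬ T p (f y) = T x y := by
    have := (hfB y hy).2
    simpa using this
  apply e2
  rw [← e1]
  exact hf.2 x hx y hy

theorem pos_pp {T : V → V → Θ} {u : Ultrafilter (V → V)} {A : Set V}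
    {v : V → Ultrafilter V} (h : Pos T u A v) {x y p q : V} (hx : x ∈ A) (hy : y ∈ A)
    (h1 : v x = pure p) (h2 : v y = pure q) : T p q = T x y := by
  have h3 := pos_pin_aux h hx hy h1
  rw [h2] at h3
  exact h3

theorem pos_pin [Nonempty Θ] [Finite Θ] {T : V → V → Θ} {u : Ultrafilter (V → V)} {A : Set V}
    {v : V → Ultrafilter V} (h : Pos T u A v) {x y p : V} (hx : x ∈ A) (hy : y ∈ A)
    (h1 : v x = pure p) : ∀ᶠ b in (v y : Filter V), T p b = T x y :=
  pos_pin_aux h hx hy h1

end Pool.Agent.Lib.MP_4fb322_lc_h7
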