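import Mathlib
import Pool.Agent.Lib.MP_4fb322_lc_h7.Defs
import Pool.Agent.Lib.MP_4fb322_lc_h7.R02
import Pool.Agent.Lib.MP_4fb322_lc_h7.R03

set_option autoImplicit false

/-!
# Row R04

The restriction to one point is open.
-/

namespace Pool.Agent.Lib.MP_4fb322_lc_h7

open Set Filter

variable {Θ V W X : Type}

private theorem mem_bindU {v : Ultrafilter V} {m : V → Ultrafilter V} {C : Set V} :
    C ∈ v.bind m ↔ {z | C ∈ m z} ∈ v := by
  rw [← Ultrafilter.mem_coe, ← Ultrafilter.mem_coe]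
  exact Filter.mem_bind'

theorem res_open {T : V → V → Θ} {u : Ultrafilter (V → V)} (hg : Gen T u) {A : Set V}
    (hA : A.Finite) (B : V → Set V) {x : V} (hx : x ∈ A) :
    ∃ D : Set V, ∀ v ∈ KK u, (D ∈ v ↔ ∃ w : V → Ultrafilter V, Pos T u A w ∧
      (∀ y ∈ A, B y ∈ w y) ∧ w x = v) := by
  classical
  refine ⟨{z | ∃ f : V → V, PE T T A f ∧ f x = z ∧ ∀ y ∈ A, f y ∈ th u (B y)}, ?_⟩
  intro v hv
  constructor
  · intro hD
    have h1 : ∀ z : V, ∃ f : V → V,
        z ∈ {z | ∃ f : V → V, PE T T A f ∧ f x = z ∧ ∀ y ∈ A, f y ∈ th u (B y)} →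
          PE T T A f ∧ f x = z ∧ ∀ y ∈ A, f y ∈ th u (B y) := by
      intro z
      by_cases hz : z ∈ {z | ∃ f : V → V, PE T T A f ∧ f x = z ∧ ∀ y ∈ A, f y ∈ th u (B y)}
      · obtain ⟨f, hf⟩ := hz
        exact ⟨f, fun _ => hf⟩
      · exact ⟨fun z => z, fun h => absurd h hz⟩
    choose F hF using h1
    have hmem : ∀ (y : V) (C : Set V), C ∈ v.bind (fun z => ev u (F z y)) ↔
        {z | F z y ∈ th u C} ∈ v := by
      intro y C
      rw [mem_bindU]
      have e : {z | C ∈ ev u (F z y)} = {z | F z y ∈ th u C} := by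
        ext z
        exact mem_ev
      rw [e]
    refine ⟨fun y => v.bind (fun z => ev u (F z y)), ⟨?_, ?_⟩, ?_, ?_⟩
    · intro y _ C
      rw [hmem, hmem, th_th hg]
    · intro B' hB'
      have h2 : ∀ᶠ z in (v : Filter V), ∀ y ∈ A, F z y ∈ th u (B' y) := by
        rw [Filter.eventually_all_finite hA]
        intro y hy
        exact (hmem y (B' y)).1 (hB' y hy)
      have h3 : ∀ᶠ z in (v : Filter V),
          z ∈ {z | ∃ f : V → V, PE T T A f ∧ f x = z ∧ ∀ y ∈ A, f y ∈ th u (B y)} := hD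
      obtain ⟨z, hz1, hz2⟩ := (h2.and h3).exists
      have hFz := hF z hz2
      have h4 : ∀ᶠ g in (u : Filter (V → V)), ∀ y ∈ A, g (F z y) ∈ B' y := by
        rw [Filter.eventually_all_finite hA]
        intro y hy
        exact hz1 y hy
      have h5 := hg.emb (F z '' A) (hA.image _)
      obtain ⟨g, hg1, hg2⟩ := (h4.and h5).exists
      exact ⟨fun y => g (F z y), hFz.1.comp hg2 (fun y hy => mem_image_of_mem _ hy), hg1⟩
    · intro y hy
      show B y ∈ v.bind (fun z => ev u (F z y))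
      rw [hmem]
      exact Filter.mem_of_superset hD (fun z hz => (hF z hz).2.2 y hy)
    · apply Ultrafilter.ext
      intro C
      show C ∈ v.bind (fun z => ev u (F z x)) ↔ C ∈ v
      rw [hmem, hv C]
      have h6 : ∀ᶠ z in (v : Filter V), (F z x ∈ th u C ↔ z ∈ th u C) := by
        filter_upwards [hD] with z hz
        rw [(hF z hz).2.1]
      have h7 := Filter.eventually_congr h6
      exact h7
  · rintro ⟨w, hw, hB, rfl⟩
    by_contra hD
    have hDc : {z | ∃ f : V → V, PE T T A f ∧ f x = z ∧ ∀ y ∈ A, f y ∈ th u (B y)}ᶜ ∈ w x :=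
      Ultrafilter.compl_mem_iff_notMem.2 hD
    obtain ⟨f, hf, hfB⟩ := hw.2 (fun y => th u (B y) ∩ (if y = x then
      {z | ∃ f : V → V, PE T T A f ∧ f x = z ∧ ∀ y ∈ A, f y ∈ th u (B y)}ᶜ else Set.univ)) (by
        intro y hy
        refine Filter.inter_mem ((hw.1 y hy (B y)).1 (hB y hy)) ?_
        by_cases h : y = x
        · subst h
          rw [if_pos rfl]
          exact hDc
        · rw [if_neg h]
          exact Filter.univ_mem)
    have h8 := (hfB x hx).2
    rw [if_pos rfl] at h8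
    exact h8 ⟨f, hf, rfl, fun y hy => (hfB y hy).1⟩

end Pool.Agent.Lib.MP_4fb322_lc_h7
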