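import Mathlib
import Pool.Agent.Lib.MP_4fb322_lc_h7.Defs

set_option autoImplicit false

/-!
# Row R05

Lemma R for one value (no topology needed). Call `E ⊆ V` nonempty if `∃ v ∈ KK u, E ∈ v`. PROOF by contradiction: assume that for all `D ⊆ B`, `D' ⊆ B'` nonempty, `QQ T v w = θ` is
neither always true nor always false on `D × D'` (negation of the statement). CLAIM 1 (induction on the list/finset of sets): for nonempty `D ⊆ B` and finitely many nonempty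
`E_1, .., E_k ⊆ B'` there are a nonempty `D₁ ⊆ D` and `v_i, v_i' ∈ KK` with `E_i ∈ v_i, v_i'` such that for all `x ∈ D₁`: `lim v_i (T x) = θ` and `lim v_i' (T x) ≠ θ`. Step: there are `u₀ ∈ KK` with `D ∈ u₀` and
`v, v' ∈ KK` containing `E` with `QQ T u₀ v = θ`, `QQ T u₀ v' ≠ θ`: otherwise fix `v₀ ∋ E` in KK (E nonempty): for all `u₀ ∋ D` in KK the truth value of `QQ T u₀ w = θ` is the same for all
`w ∋ E`, equal to that for `v₀`, i.e. to `{x | lim v₀ (T x) = θ} ∈ u₀`; one of `D ∩ {x | lim v₀ (T x) = θ}`, `D \ {..}` is nonempty and on it (times `E`) the relation is constant: contradiction.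
Then `D₁ = D ∩ {x | lim v (T x) = θ ∧ lim v' (T x) ≠ θ} ∈ u₀` (lim_spec: `QQ T u₀ v = θ ↔ ∀ᶠ x in u₀, lim v (T x) = θ`, lim_eq_iff). CLAIM 2: for every `n` there is `z : Fin n → V` such that for all `S : Set (Fin n)` the set
`E_S = {y ∈ B' | ∀ i, T (z i) y = θ ↔ i ∈ S}` is nonempty (induction on `n`; step: apply claim 1 to the finitely many `E_S`, take `z_{n+1} ∈ D₁` any point (a nonempty set has a point): `lim v_i (T z) = θ` says that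
`{y | T z y = θ} ∈ v_i`). So `Shat T θ n` for all `n`: contradiction with hN. (About 150 lines.)
-/

namespace Pool.Agent.Lib.MP_4fb322_lc_h7

open Set Filter

variable {Θ V W X : Type}

private theorem r05_step [Nonempty Θ] [Finite Θ] (T : V → V → Θ) (u : Ultrafilter (V → V)) (θ : Θ)
    {B B' : Set V}
    (hcon : ∀ D ⊆ B, ∀ D' ⊆ B', (∃ v ∈ KK u, D ∈ v) → (∃ v ∈ KK u, D' ∈ v) →
      ¬ (∀ v ∈ KK u, ∀ w ∈ KK u, D ∈ v → D' ∈ w → QQ T v w = θ) ∧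
      ¬ (∀ v ∈ KK u, ∀ w ∈ KK u, D ∈ v → D' ∈ w → QQ T v w ≠ θ))
    {D E : Set V} (hD : D ⊆ B) (hE : E ⊆ B') (nD : ∃ v ∈ KK u, D ∈ v) (nE : ∃ v ∈ KK u, E ∈ v) :
    ∃ u₀ ∈ KK u, D ∈ u₀ ∧ ∃ v ∈ KK u, ∃ v' ∈ KK u, E ∈ v ∧ E ∈ v' ∧ QQ T u₀ v = θ ∧
      QQ T u₀ v' ≠ θ := by
  by_contra H
  have H' : ∀ u₀ ∈ KK u, D ∈ u₀ → ∀ v ∈ KK u, ∀ v' ∈ KK u, E ∈ v → E ∈ v' → QQ T u₀ v = θ →
      QQ T u₀ v' = θ := by
    intro u₀ h1 h2 v h3 v' h4 h5 h6 h7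
    by_contra h8
    exact H ⟨u₀, h1, h2, v, h3, v', h4, h5, h6, h7, h8⟩
  obtain ⟨v₀, hv₀, hEv₀⟩ := nE
  obtain ⟨u₁, hu₁, hDu₁⟩ := nD
  have hF : ∀ u₀ : Ultrafilter V, QQ T u₀ v₀ = θ ↔ {x | lim v₀ (fun y => T x y) = θ} ∈ u₀ := by
    intro u₀
    exact lim_eq_iff
  rcases u₁.mem_or_compl_mem {x | lim v₀ (fun y => T x y) = θ} with h | h
  · refine (hcon (D ∩ {x | lim v₀ (fun y => T x y) = θ}) (fun x hx => hD hx.1) E hE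
      ⟨u₁, hu₁, inter_mem hDu₁ h⟩ ⟨v₀, hv₀, hEv₀⟩).1 ?_
    intro v hv w hw h1 h2
    have h3 : D ∈ v := mem_of_superset h1 (fun x hx => hx.1)
    have h4 : {x | lim v₀ (fun y => T x y) = θ} ∈ v := mem_of_superset h1 (fun x hx => hx.2)
    exact H' v hv h3 v₀ hv₀ w hw hEv₀ h2 ((hF v).2 h4)
  · refine (hcon (D ∩ {x | lim v₀ (fun y => T x y) = θ}ᶜ) (fun x hx => hD hx.1) E hE
      ⟨u₁, hu₁, inter_mem hDu₁ h⟩ ⟨v₀, hv₀, hEv₀⟩).2 ?_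
    intro v hv w hw h1 h2 h5
    have h3 : D ∈ v := mem_of_superset h1 (fun x hx => hx.1)
    have h4 : {x | lim v₀ (fun y => T x y) = θ}ᶜ ∈ v := mem_of_superset h1 (fun x hx => hx.2)
    have h6 := (hF v).1 (H' v hv h3 w hw v₀ hv₀ h2 hEv₀ h5)
    exact Ultrafilter.compl_mem_iff_notMem.1 h4 h6

private theorem r05_claim1 [Nonempty Θ] [Finite Θ] (T : V → V → Θ) (u : Ultrafilter (V → V)) (θ : Θ)
    {B B' : Set V}
    (hcon : ∀ D ⊆ B, ∀ D' ⊆ B', (∃ v ∈ KK u, D ∈ v) → (∃ v ∈ KK u, D' ∈ v) →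
      ¬ (∀ v ∈ KK u, ∀ w ∈ KK u, D ∈ v → D' ∈ w → QQ T v w = θ) ∧
      ¬ (∀ v ∈ KK u, ∀ w ∈ KK u, D ∈ v → D' ∈ w → QQ T v w ≠ θ))
    {ι : Type} (s : Set ι) (hs : s.Finite) (E : ι → Set V) (hE : ∀ i ∈ s, E i ⊆ B')
    (nE : ∀ i ∈ s, ∃ v ∈ KK u, E i ∈ v) (nB : ∃ v ∈ KK u, B ∈ v) :
    ∃ D₁ ⊆ B, (∃ v ∈ KK u, D₁ ∈ v) ∧ ∀ i ∈ s, ∃ v ∈ KK u, ∃ v' ∈ KK u, E i ∈ v ∧ E i ∈ v' ∧
      ∀ x ∈ D₁, lim v (fun y => T x y) = θ ∧ lim v' (fun y => T x y) ≠ θ := by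
  induction s, hs using Set.Finite.induction_on with
  | empty => exact ⟨B, Subset.rfl, nB, fun i hi => absurd hi (Set.notMem_empty i)⟩
  | @insert i s _ _ ih =>
    obtain ⟨D₁, hD₁, nD₁, h1⟩ := ih (fun j hj => hE j (Set.mem_insert_of_mem i hj))
      (fun j hj => nE j (Set.mem_insert_of_mem i hj))
    obtain ⟨u₀, hu₀, hDu₀, v, hv, v', hv', hEv, hEv', hq, hq'⟩ :=
      r05_step T u θ hcon hD₁ (hE i (Set.mem_insert i s)) nD₁ (nE i (Set.mem_insert i s))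
    have e1 : ∀ᶠ x in (u₀ : Filter V), lim v (fun y => T x y) = θ := lim_eq_iff.1 hq
    have e2 : ∀ᶠ x in (u₀ : Filter V), ¬ lim v' (fun y => T x y) = θ := by
      rw [Ultrafilter.eventually_not]
      intro h
      exact hq' (lim_eq_iff.2 h)
    refine ⟨D₁ ∩ {x | lim v (fun y => T x y) = θ ∧ lim v' (fun y => T x y) ≠ θ},
      fun x hx => hD₁ hx.1, ⟨u₀, hu₀, inter_mem hDu₀ (e1.and e2)⟩, ?_⟩
    intro j hj
    rcases Set.mem_insert_iff.1 hj with rfl | hj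
    · exact ⟨v, hv, v', hv', hEv, hEv', fun x hx => hx.2⟩
    · obtain ⟨w, hw, w', hw', k1, k2, k3⟩ := h1 j hj
      exact ⟨w, hw, w', hw', k1, k2, fun x hx => k3 x hx.1⟩

private theorem r05_claim2 [Nonempty Θ] [Finite Θ] (T : V → V → Θ) (u : Ultrafilter (V → V)) (θ : Θ)
    {B B' : Set V}
    (hcon : ∀ D ⊆ B, ∀ D' ⊆ B', (∃ v ∈ KK u, D ∈ v) → (∃ v ∈ KK u, D' ∈ v) →
      ¬ (∀ v ∈ KK u, ∀ w ∈ KK u, D ∈ v → D' ∈ w → QQ T v w = θ) ∧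
      ¬ (∀ v ∈ KK u, ∀ w ∈ KK u, D ∈ v → D' ∈ w → QQ T v w ≠ θ))
    (nB : ∃ v ∈ KK u, B ∈ v) (nB' : ∃ v ∈ KK u, B' ∈ v) (n : ℕ) :
    ∃ z : Fin n → V, ∀ S : Set (Fin n), ∃ v ∈ KK u,
      {y | y ∈ B' ∧ ∀ i, T (z i) y = θ ↔ i ∈ S} ∈ v := by
  induction n with
  | zero =>
    refine ⟨Fin.elim0, fun S => ?_⟩
    obtain ⟨v, hv, h⟩ := nB'
    exact ⟨v, hv, mem_of_superset h (fun y hy => ⟨hy, fun i => i.elim0⟩)⟩
  | succ n ih =>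
    obtain ⟨z, hz⟩ := ih
    obtain ⟨D₁, hD₁, ⟨u₀, hu₀, hDu₀⟩, h1⟩ := r05_claim1 T u θ hcon (Set.univ : Set (Set (Fin n)))
      Set.finite_univ (fun S => {y | y ∈ B' ∧ ∀ i, T (z i) y = θ ↔ i ∈ S})
      (fun S _ y hy => hy.1) (fun S _ => hz S) nB
    obtain ⟨z₀, hz₀⟩ := u₀.nonempty_of_mem hDu₀
    refine ⟨Fin.cons z₀ z, fun S' => ?_⟩
    obtain ⟨v, hv, v', hv', k1, k2, k3⟩ := h1 {i | i.succ ∈ S'} (Set.mem_univ _)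
    obtain ⟨k4, k5⟩ := k3 z₀ hz₀
    by_cases h0 : (0 : Fin (n + 1)) ∈ S'
    · refine ⟨v, hv, ?_⟩
      have e1 : {y | T z₀ y = θ} ∈ v := lim_eq_iff.1 k4
      refine mem_of_superset (inter_mem k1 e1) ?_
      rintro y ⟨⟨hy1, hy2⟩, hy3⟩
      refine ⟨hy1, fun i => ?_⟩
      refine Fin.cases ?_ (fun j => ?_) i
      · rw [Fin.cons_zero]
        exact ⟨fun _ => h0, fun _ => hy3⟩
      · rw [Fin.cons_succ]
        exact hy2 j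
    · refine ⟨v', hv', ?_⟩
      have e1 : ∀ᶠ y in (v' : Filter V), ¬ T z₀ y = θ := by
        rw [Ultrafilter.eventually_not]
        intro h
        exact k5 (lim_eq_iff.2 h)
      refine mem_of_superset (inter_mem k2 e1) ?_
      rintro y ⟨⟨hy1, hy2⟩, hy3⟩
      refine ⟨hy1, fun i => ?_⟩
      refine Fin.cases ?_ (fun j => ?_) i
      · rw [Fin.cons_zero]
        exact ⟨fun h => absurd h hy3, fun h => absurd h h0⟩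
      · rw [Fin.cons_succ]
        exact hy2 j

theorem lemR_one [Nonempty Θ] [Finite Θ] (T : V → V → Θ) (u : Ultrafilter (V → V)) (θ : Θ)
    (hN : ∃ n, ¬ Shat T θ n) {B B' : Set V} (hB : ∃ v ∈ KK u, B ∈ v) (hB' : ∃ v ∈ KK u, B' ∈ v) :
    ∃ D ⊆ B, ∃ D' ⊆ B', (∃ v ∈ KK u, D ∈ v) ∧ (∃ v ∈ KK u, D' ∈ v) ∧
      ((∀ v ∈ KK u, ∀ w ∈ KK u, D ∈ v → D' ∈ w → QQ T v w = θ) ∨
       (∀ v ∈ KK u, ∀ w ∈ KK u, D ∈ v → D' ∈ w → QQ T v w ≠ θ)) := by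
  by_contra H
  have hcon : ∀ D ⊆ B, ∀ D' ⊆ B', (∃ v ∈ KK u, D ∈ v) → (∃ v ∈ KK u, D' ∈ v) →
      ¬ (∀ v ∈ KK u, ∀ w ∈ KK u, D ∈ v → D' ∈ w → QQ T v w = θ) ∧
      ¬ (∀ v ∈ KK u, ∀ w ∈ KK u, D ∈ v → D' ∈ w → QQ T v w ≠ θ) := by
    intro D hD D' hD' h1 h2
    exact ⟨fun h => H ⟨D, hD, D', hD', h1, h2, Or.inl h⟩,
      fun h => H ⟨D, hD, D', hD', h1, h2, Or.inr h⟩⟩
  obtain ⟨n, hn⟩ := hN
  apply hn
  obtain ⟨z, hz⟩ := r05_claim2 T u θ hcon hB hB' n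
  refine ⟨z, fun S => ?_⟩
  obtain ⟨v, _, hv⟩ := hz S
  obtain ⟨y, hy⟩ := v.nonempty_of_mem hv
  exact ⟨y, hy.2⟩

end Pool.Agent.Lib.MP_4fb322_lc_h7
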