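import Mathlib
import Pool.Agent.Lib.MP_4fb322_lc_h7.Defs
import Pool.Agent.Lib.MP_4fb322_lc_h7.R05

set_option autoImplicit false

/-!
# Row R06

Lemma R. PROOF. `lemR_set`: for every finite set `F` of values there are nonempty `D ⊆ B`, `D' ⊆ B'` such that either `Cst T u D D'` or `QQ T v w ∉ F` on `D × D'` (Finset induction with lemR_one; Cst and the second property
are monotone in `D`, `D'`: if `D₂ ⊆ D`, `D₂ ∈ v` then `D ∈ v` by `Filter.mem_of_superset`). `F = univ` (Finite Θ: `Set.toFinite`/`Fintype.ofFinite`): the second alternative is impossible (there are `v ∋ D`, `w ∋ D'`). lemR: apply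
lemR_set to `(B, B')`, then to `(D', D)`.
-/

namespace Pool.Agent.Lib.MP_4fb322_lc_h7

open Set Filter

variable {Θ V W X : Type}

theorem Cst.mono [Nonempty Θ] {T : V → V → Θ} {u : Ultrafilter (V → V)} {B B' D D' : Set V}
    (h : Cst T u B B') (hD : D ⊆ B) (hD' : D' ⊆ B') : Cst T u D D' := by
  obtain ⟨θ, hθ⟩ := h
  exact ⟨θ, fun v hv w hw h1 h2 =>
    hθ v hv w hw (Filter.mem_of_superset h1 hD) (Filter.mem_of_superset h2 hD')⟩

private theorem lemR_set [Nonempty Θ] [Finite Θ] (T : V → V → Θ) (u : Ultrafilter (V → V))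
    (hN : ∀ θ, ∃ n, ¬ Shat T θ n) {B B' : Set V} (hB : ∃ v ∈ KK u, B ∈ v)
    (hB' : ∃ v ∈ KK u, B' ∈ v) (F : Set Θ) (hF : F.Finite) :
    ∃ D ⊆ B, ∃ D' ⊆ B', (∃ v ∈ KK u, D ∈ v) ∧ (∃ v ∈ KK u, D' ∈ v) ∧
      (Cst T u D D' ∨ ∀ v ∈ KK u, ∀ w ∈ KK u, D ∈ v → D' ∈ w → QQ T v w ∉ F) := by
  induction F, hF using Set.Finite.induction_on with
  | empty =>
    exact ⟨B, subset_rfl, B', subset_rfl, hB, hB', Or.inr (fun _ _ _ _ _ _ h => h)⟩
  | @insert θ F _ _ ih =>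
    obtain ⟨D, hD, D', hD', hne, hne', h⟩ := ih
    rcases h with h | h
    · exact ⟨D, hD, D', hD', hne, hne', Or.inl h⟩
    · obtain ⟨E, hE, E', hE', hn, hn', h2⟩ := lemR_one T u θ (hN θ) hne hne'
      refine ⟨E, hE.trans hD, E', hE'.trans hD', hn, hn', ?_⟩
      rcases h2 with h2 | h2
      · exact Or.inl ⟨θ, h2⟩
      · right
        intro v hv w hw h3 h4 h5
        rcases h5 with h5 | h5
        · exact h2 v hv w hw h3 h4 h5
        · exact h v hv w hw (Filter.mem_of_superset h3 hE) (Filter.mem_of_superset h4 hE') h5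

private theorem lemR_half [Nonempty Θ] [Finite Θ] (T : V → V → Θ) (u : Ultrafilter (V → V))
    (hN : ∀ θ, ∃ n, ¬ Shat T θ n) {B B' : Set V} (hB : ∃ v ∈ KK u, B ∈ v)
    (hB' : ∃ v ∈ KK u, B' ∈ v) :
    ∃ D ⊆ B, ∃ D' ⊆ B', (∃ v ∈ KK u, D ∈ v) ∧ (∃ v ∈ KK u, D' ∈ v) ∧ Cst T u D D' := by
  obtain ⟨D, hD, D', hD', hne, hne', h⟩ := lemR_set T u hN hB hB' Set.univ Set.finite_univ
  refine ⟨D, hD, D', hD', hne, hne', ?_⟩
  rcases h with h | h
  · exact h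
  · exfalso
    obtain ⟨v, hv, hv2⟩ := hne
    obtain ⟨w, hw, hw2⟩ := hne'
    exact h v hv w hw hv2 hw2 (Set.mem_univ _)

theorem lemR [Nonempty Θ] [Finite Θ] (T : V → V → Θ) (u : Ultrafilter (V → V))
    (hN : ∀ θ, ∃ n, ¬ Shat T θ n) {B B' : Set V} (hB : ∃ v ∈ KK u, B ∈ v)
    (hB' : ∃ v ∈ KK u, B' ∈ v) :
    ∃ D ⊆ B, ∃ D' ⊆ B', (∃ v ∈ KK u, D ∈ v) ∧ (∃ v ∈ KK u, D' ∈ v) ∧
      Cst T u D D' ∧ Cst T u D' D := by
  obtain ⟨D, hD, D', hD', hne, hne', h⟩ := lemR_half T u hN hB hB'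
  obtain ⟨E', hE', E, hE, hn', hn, h2⟩ := lemR_half T u hN hne' hne
  exact ⟨E, hE.trans hD, E', hE'.trans hD', hn, hn', h.mono hE hE', h2⟩

end Pool.Agent.Lib.MP_4fb322_lc_h7
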