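import Mathlib
import Pool.Agent.Lib.MP_4fb322_lc_h7.Defs
import Pool.Agent.Lib.MP_4fb322_lc_h7.R04
import Pool.Agent.Lib.MP_4fb322_lc_h7.R06

set_option autoImplicit false

/-!
# Row R07

Shrinking two positioned sets.
-/

namespace Pool.Agent.Lib.MP_4fb322_lc_h7

open Set Filter

variable {Θ V W X : Type}

theorem shrink_pair [Nonempty Θ] [Finite Θ] {T : V → V → Θ} {u : Ultrafilter (V → V)}
    (hg : Gen T u) (hN : ∀ θ, ∃ n, ¬ Shat T θ n) {A A' : Set V} (hA : A.Finite) (hA' : A'.Finite)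
    {B B' : V → Set V} (h : ∃ w, Pos T u A w ∧ ∀ y ∈ A, B y ∈ w y)
    (h' : ∃ w, Pos T u A' w ∧ ∀ y ∈ A', B' y ∈ w y) {x x' : V} (hx : x ∈ A) (hx' : x' ∈ A') :
    ∃ D ⊆ B x, ∃ D' ⊆ B' x', (∃ w, Pos T u A w ∧ (∀ y ∈ A, B y ∈ w y) ∧ D ∈ w x) ∧
      (∃ w, Pos T u A' w ∧ (∀ y ∈ A', B' y ∈ w y) ∧ D' ∈ w x') ∧ Cst T u D D' ∧ Cst T u D' D := by
  obtain ⟨D0, hD0⟩ := res_open hg hA B hx
  obtain ⟨D1, hD1⟩ := res_open hg hA' B' hx'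
  obtain ⟨w, hw, hwB⟩ := h
  obtain ⟨w', hw', hwB'⟩ := h'
  have h1 : D0 ∈ w x := (hD0 (w x) (hw.1 x hx)).2 ⟨w, hw, hwB, rfl⟩
  have h2 : D1 ∈ w' x' := (hD1 (w' x') (hw'.1 x' hx')).2 ⟨w', hw', hwB', rfl⟩
  obtain ⟨D, hD, D', hD', ⟨v, hv, hDv⟩, ⟨v', hv', hDv'⟩, hc, hc'⟩ :=
    lemR T u hN (B := D0 ∩ B x) (B' := D1 ∩ B' x')
      ⟨w x, hw.1 x hx, Filter.inter_mem h1 (hwB x hx)⟩
      ⟨w' x', hw'.1 x' hx', Filter.inter_mem h2 (hwB' x' hx')⟩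
  refine ⟨D, hD.trans inter_subset_right, D', hD'.trans inter_subset_right, ?_, ?_, hc, hc'⟩
  · obtain ⟨z, hz, hzB, hzv⟩ := (hD0 v hv).1
      (Filter.mem_of_superset hDv (hD.trans inter_subset_left))
    exact ⟨z, hz, hzB, by rw [hzv]; exact hDv⟩
  · obtain ⟨z, hz, hzB, hzv⟩ := (hD1 v' hv').1
      (Filter.mem_of_superset hDv' (hD'.trans inter_subset_left))
    exact ⟨z, hz, hzB, by rw [hzv]; exact hDv'⟩

end Pool.Agent.Lib.MP_4fb322_lc_h7
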