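import Mathlib
import Pool.Agent.Lib.MP_4fb322_lc_h7.Defs
import Pool.Agent.Lib.MP_4fb322_lc_h7.R02
import Pool.Agent.Lib.MP_4fb322_lc_h7.R03

set_option autoImplicit false

/-!
# Row R08

Robust positions exist. PROOF. `pt x = if x ∈ PN u then 0 else 1`, `π = id`, `C y = {b | ∀ x ∈ A, x ∈ PN u → T x b = T x y ∧ b ≠ x}`. pin, pinj, pinT clear. pinQ: `C y ∈ v` gives `T x b = T x y` for almost all `b` (lim_eq) and
`x ∉ C y` so `v ≠ pure x` (`C y ∈ pure x ↔ x ∈ C y`). cross, crossS: only one nonzero value of `pt`. pos: for `i = 1`: `v = ev u` (pos_ev with `f = id`, PE.id; `A` finite); `C y ∈ ev u y`: for almost all `f`, `PE T T A f` and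
`f x = x` for the `x ∈ A ∩ PN u` (finite), so `T x (f y) = T (f x) (f y) = T x y` and `f y ≠ f x = x` by injectivity (`y ≠ x` since `y ∉ PN u`); `ev u y ≠ pure p` by pn_of_ev. For `i ≥ 2`: the set is empty, any `v` with values in KK vacuous (the set of points is empty;
`Pos T u ∅ v` is trivial with `f = id`).
-/

namespace Pool.Agent.Lib.MP_4fb322_lc_h7

open Set Filter

variable {Θ V W X : Type}

theorem exists_rob [Nonempty Θ] [Finite Θ] {T : V → V → Θ} {u : Ultrafilter (V → V)}
    (hg : Gen T u) (A : Finset V) : ∃ pt π C, Rob T u A pt π C := by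
  classical
  have h0 : ∀ x : V, (if x ∈ PN u then 0 else 1 : ℕ) = 0 → x ∈ PN u := by
    intro x hx
    by_contra hn
    rw [if_neg hn] at hx
    exact one_ne_zero hx
  have h1 : ∀ x : V, (if x ∈ PN u then 0 else 1 : ℕ) ≠ 0 → x ∉ PN u := by
    intro x hx hn
    rw [if_pos hn] at hx
    exact hx rfl
  have h2 : ∀ x : V, (if x ∈ PN u then 0 else 1 : ℕ) ≤ 1 := by
    intro x
    split_ifs <;> omega
  refine ⟨fun x => if x ∈ PN u then 0 else 1, fun x => x,
    fun y => {b | ∀ x ∈ A, x ∈ PN u → T x b = T x y ∧ b ≠ x}, ?_, ?_, ?_, ?_, ?_, ?_, ?_⟩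
  · intro x _ hx
    exact h0 x hx
  · intro x _ y _ _ _ h
    exact h
  · intro x _ y _ _ _
    rfl
  · intro x hx y _ hx0 _ v _ hC
    have hxp := h0 x hx0
    refine ⟨lim_eq ?_, ?_⟩
    · filter_upwards [hC] with b hb
      exact (hb x hx hxp).1
    · intro hv
      rw [hv] at hC
      have : x ∈ {b | ∀ x ∈ A, x ∈ PN u → T x b = T x y ∧ b ≠ x} := hC
      exact (this x hx hxp).2 rfl
  · intro x _ y _ hx0 hxy
    have := h2 y
    exact absurd hxy (by omega)
  · intro x _ y _ hx0 hxy
    have := h2 y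
    exact absurd hxy (by omega)
  · intro i hi
    refine ⟨fun x => ev u x, pos_ev hg ?_ (PE.id T _), ?_⟩
    · exact A.finite_toSet.subset (fun x hx => hx.1)
    · intro y hy hyi
      have hyn : y ∉ PN u := h1 y (by omega)
      refine ⟨?_, fun p hp => hyn (pn_of_ev hg hp)⟩
      rw [mem_ev]
      have e1 : ∀ᶠ f in (u : Filter (V → V)), PE T T (A : Set V) f := hg.emb _ A.finite_toSet
      have e2 : ∀ᶠ f in (u : Filter (V → V)), ∀ x ∈ A, x ∈ PN u → f x = x := by
        rw [Filter.eventually_all_finset]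
        intro x _
        by_cases hx : x ∈ PN u
        · have hx' : ∀ᶠ f in (u : Filter (V → V)), f x = x := hx
          filter_upwards [hx'] with f hf _
          exact hf
        · exact Filter.Eventually.of_forall (fun f h => absurd h hx)
      show ∀ᶠ f in (u : Filter (V → V)), f y ∈ {b | ∀ x ∈ A, x ∈ PN u → T x b = T x y ∧ b ≠ x}
      filter_upwards [e1, e2] with f hf hfx
      intro x hx hxp
      have hxx := hfx x hx hxp
      refine ⟨?_, ?_⟩
      · have := hf.2 x (Finset.mem_coe.2 hx) y (Finset.mem_coe.2 hy)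
        rw [hxx] at this
        exact this
      · intro h
        have : y = x := hf.1 (Finset.mem_coe.2 hy) (Finset.mem_coe.2 hx) (by rw [h, hxx])
        exact hyn (this ▸ hxp)

end Pool.Agent.Lib.MP_4fb322_lc_h7
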