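import Mathlib
import Pool.Agent.Lib.MP_4fb322_lc_h7.Defs
import Pool.Agent.Lib.MP_4fb322_lc_h7.R08

set_option autoImplicit false

/-!
# Row R09

A maximal robust position exists. PROOF. `npt A pt ≤ A.card` hmm: number of zeros plus number of nonzero values is `≤ A.card` (the image of the nonzero points has at most as many elements), `npn A pt ≤ A.card`. Take the maximum of `npt`
over all robust positions (`Nat.findGreatest` or `exists_max_image`/well-foundedness of a bounded set of naturals: the set of values is nonempty and bounded, `Nat.sSup_mem`), and among those with this value the maximum of `npn`.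
-/

namespace Pool.Agent.Lib.MP_4fb322_lc_h7

open Set Filter

variable {Θ V W X : Type}

private theorem R09_max {α : Type} (P : α → Prop) (g : α → ℕ) (b : ℕ) (hb : ∀ x, P x → g x ≤ b)
    (hne : ∃ x, P x) : ∃ x, P x ∧ ∀ y, P y → g y ≤ g x := by
  by_contra hcon
  push Not at hcon
  have key : ∀ n : ℕ, ∃ x, P x ∧ n ≤ g x := by
    intro n
    induction n with
    | zero => obtain ⟨x, hx⟩ := hne; exact ⟨x, hx, Nat.zero_le _⟩
    | succ n ih =>
      obtain ⟨x, hx, hn⟩ := ih
      obtain ⟨y, hy, hlt⟩ := hcon x hx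
      exact ⟨y, hy, by omega⟩
  obtain ⟨x, hx, hn⟩ := key (b + 1)
  have := hb x hx
  omega

private theorem R09_npt (A : Finset V) (pt : V → ℕ) : npt A pt ≤ A.card + (A.image pt).card := by
  unfold npt
  exact add_le_add (Finset.card_filter_le _ _) (Finset.card_erase_le)

theorem exists_maxRob [Nonempty Θ] [Finite Θ] {T : V → V → Θ} {u : Ultrafilter (V → V)}
    (hg : Gen T u) (A : Finset V) : ∃ pt π C, MaxRob T u A pt π C := by
  have hex := exists_rob hg A
  have hne : ∃ z : (V → ℕ) × (V → V) × (V → Set V), Rob T u A z.1 z.2.1 z.2.2 := by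
    obtain ⟨pt, π, C, h⟩ := hex
    exact ⟨(pt, π, C), h⟩
  obtain ⟨z, hz, hmax⟩ := R09_max (fun z : (V → ℕ) × (V → V) × (V → Set V) => Rob T u A z.1 z.2.1 z.2.2)
    (fun z => npt A z.1) (A.card + A.card)
    (fun z _ => (R09_npt A z.1).trans (Nat.add_le_add_left Finset.card_image_le _)) hne
  obtain ⟨z', hz', hmax'⟩ := R09_max
    (fun z' : (V → ℕ) × (V → V) × (V → Set V) => Rob T u A z'.1 z'.2.1 z'.2.2 ∧ npt A z'.1 = npt A z.1)
    (fun z => npn A z.1) A.card
    (fun z _ => Finset.card_filter_le _ _) ⟨z, hz, rfl⟩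
  refine ⟨z'.1, z'.2.1, z'.2.2, hz'.1, ?_, ?_⟩
  · intro pt' π' C' h
    rw [hz'.2]
    exact hmax (pt', π', C') h
  · intro pt' π' C' h he
    exact hmax' (pt', π', C') ⟨h, by rw [← hz'.2]; exact he⟩

end Pool.Agent.Lib.MP_4fb322_lc_h7
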