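import Mathlib
import Pool.Agent.Lib.MP_4fb322_lc_h7.Defs
import Pool.Agent.Lib.MP_4fb322_lc_h7.R03

set_option autoImplicit false

/-!
# Row R10

In a maximal robust position no near position of a part has a principal value. PROOF. Suppose `v x₀ = pure p₀`, `pt x₀ = i`. Let `Y' = {x ∈ A | pt x = i ∧ ∃ p, v x = pure p}`; choose `q x` with `v x = pure (q x)` for `x ∈ Y'`; `q x ∈ PN u` (pure_mem_KK and `v x ∈ KK`).
New data: `pt' x = 0` on `Y'`, otherwise `pt x`; `π' = q` on `Y'`, otherwise `π`; `C' y = C y ∩ {b | ∀ x ∈ Y', T (q x) b = T x y ∧ b ≠ q x}` if `pt y = i`, and `C y ∩ {b | ∀ x ∈ Y', b ≠ q x}` otherwise. It is robust: pinj: `π x ≠ q y` by pinQ for `v y` (hC), `q` injective by pos_inj;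
pinT: `T (π x) (q y) = T x y` by pinQ for `v y = pure (q y)` (`lim (pure q) f = f q`: lim_eq), the other order by opT (`T y x = op (T x y)` twice), `T (q x) (q y) = T x y` by pos_pp; pinQ: for old pins by monotonicity (`C' y ⊆ C y`); for a new pin `x ∈ Y'`, `y` with `pt y = i`: by definition of `C'`; with
`pt y = k ≠ i`: if `i < k` use cross for `(x, y)` with the position `v x = pure (q x)`: `QQ T (pure p) w = lim w (T p)`; if `k < i` cross for `(y, x)`: `QQ T w (pure p) = lim w (fun b => T b p)`, and `T p b = op (T b p)`, so the limit of `T p b` is `op (T y x) = T x y`. cross, crossS: by monotonicity.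
pos: for the part `i`: the same `v` (pos_mono), `C' y ∈ v y` by pos_pin and because `v y` is nonprincipal (`y ∉ Y'`) so it does not contain the finite set `q '' Y'`; for the other parts: `h.rob.pos`, finite sets are not in nonprincipal ultrafilters. COUNT: the zeros increase by `|Y'| ≥ 1`, the nonzero values lose at most
the value `i`, and they lose it only if `Y'` is the whole part. So `npt` increases, or the part is the single point `x₀`, `npt` is unchanged and `npn` increases: contradiction with max / maxp. (About 200 lines.)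
-/

namespace Pool.Agent.Lib.MP_4fb322_lc_h7

open Set Filter

variable {Θ V W X : Type}

private theorem r10_ev_ne {w : Ultrafilter V} {p : V} (h : w ≠ pure p) :
    ∀ᶠ b in (w : Filter V), b ≠ p := by
  by_contra h2
  have h3 : ∀ᶠ b in (w : Filter V), b = p := by
    rw [Filter.not_eventually] at h2
    simpa [Ultrafilter.frequently_iff_eventually] using h2
  apply h
  have h4 : (w : Filter V) ≤ ((pure p : Ultrafilter V) : Filter V) := by
    rw [Ultrafilter.coe_pure, Filter.le_pure_iff]
    exact h3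
  exact Ultrafilter.coe_le_coe.1 h4

private theorem r10_lim_pure [Nonempty Θ] [Finite Θ] (p : V) (f : V → Θ) :
    lim (pure p : Ultrafilter V) f = f p := by
  apply lim_eq
  rw [Ultrafilter.coe_pure]
  exact Filter.eventually_pure.2 rfl

theorem maxRob_np [Nonempty Θ] [Finite Θ] {op : Θ → Θ} {T : V → V → Θ}
    (opT : ∀ x y, T y x = op (T x y)) {u : Ultrafilter (V → V)} {A : Finset V} {pt : V → ℕ}
    {π : V → V} {C : V → Set V} (h : MaxRob T u A pt π C) {i : ℕ} (hi : 0 < i)
    {v : V → Ultrafilter V} (hv : Pos T u {x | x ∈ A ∧ pt x = i} v)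
    (hC : ∀ x ∈ A, pt x = i → C x ∈ v x) : ∀ x ∈ A, pt x = i → ∀ p, v x ≠ pure p := by
  classical
  intro x₀ hx₀ hpt₀ p₀ hp₀
  let Y : V → Prop := fun x => x ∈ A ∧ pt x = i ∧ ∃ p, v x = pure p
  have hYdef : ∀ x, Y x ↔ (x ∈ A ∧ pt x = i ∧ ∃ p, v x = pure p) := fun _ => Iff.rfl
  have hYq : ∀ x, ∃ p, Y x → v x = pure p := by
    intro x
    by_cases hx : Y x
    · obtain ⟨p, hp⟩ := hx.2.2
      exact ⟨p, fun _ => hp⟩
    · exact ⟨x, fun h => absurd h hx⟩
  choose q hq using hYq
  have hvK : ∀ x ∈ A, pt x = i → v x ∈ KK u := fun x hx hpx => hv.1 x ⟨hx, hpx⟩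
  have q1 : ∀ x, Y x → q x ∈ PN u := by
    intro x hx
    rw [← pure_mem_KK, ← hq x hx]
    exact hvK x hx.1 hx.2.1
  have q2 : ∀ x y, Y x → Y y → q x = q y → x = y := by
    intro x y hx hy hxy
    exact pos_inj hv ⟨hx.1, hx.2.1⟩ ⟨hy.1, hy.2.1⟩ (hq x hx) (by rw [hq y hy, hxy])
  have q3 : ∀ x y, Y x → Y y → T (q x) (q y) = T x y := fun x y hx hy =>
    pos_pp hv ⟨hx.1, hx.2.1⟩ ⟨hy.1, hy.2.1⟩ (hq x hx) (hq y hy)
  have q4 : ∀ x y, Y x → y ∈ A → pt y = i → ∀ᶠ b in (v y : Filter V), T (q x) b = T x y :=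
    fun x y hx hy hpy => pos_pin hv ⟨hx.1, hx.2.1⟩ ⟨hy, hpy⟩ (hq x hx)
  have q5 : ∀ x y, x ∈ A → pt x = 0 → Y y → T (π x) (q y) = T x y ∧ q y ≠ π x := by
    intro x y hx hpx hy
    have h1 := h.rob.pinQ x hx y hy.1 hpx (by rw [hy.2.1]; omega) (v y) (hvK y hy.1 hy.2.1)
      (hC y hy.1 hy.2.1)
    rw [hq y hy, r10_lim_pure] at h1
    exact ⟨h1.1, fun e => h1.2 (by rw [e])⟩
  let pt' : V → ℕ := fun x => if Y x then 0 else pt x
  let π' : V → V := fun x => if Y x then q x else π x
  let C' : V → Set V := fun y => if pt y = i then C y ∩ {b | ∀ x ∈ A, Y x → T (q x) b = T x y ∧ b ≠ q x}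
    else C y ∩ {b | ∀ x ∈ A, Y x → b ≠ q x}
  have pt'Y : ∀ x, Y x → pt' x = 0 := fun x hx => if_pos hx
  have pt'N : ∀ x, ¬ Y x → pt' x = pt x := fun x hx => if_neg hx
  have π'Y : ∀ x, Y x → π' x = q x := fun x hx => if_pos hx
  have π'N : ∀ x, ¬ Y x → π' x = π x := fun x hx => if_neg hx
  have pt'ne : ∀ x, pt' x ≠ 0 → ¬ Y x ∧ pt' x = pt x := by
    intro x hx
    have h1 : ¬ Y x := fun h2 => hx (pt'Y x h2)
    exact ⟨h1, pt'N x h1⟩
  have C'sub : ∀ y, C' y ⊆ C y := by
    intro y b hb
    simp only [C'] at hb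
    split_ifs at hb
    · exact hb.1
    · exact hb.1
  have C'mono : ∀ y (w : Ultrafilter V), C' y ∈ w → C y ∈ w := fun y w hw =>
    Filter.mem_of_superset hw (C'sub y)
  have C'ne : ∀ x y (w : Ultrafilter V), Y x → C' y ∈ w → w ≠ pure (q x) := by
    intro x y w hx hw e
    rw [e] at hw
    have hb : q x ∈ C' y := hw
    simp only [C'] at hb
    split_ifs at hb
    · exact (hb.2 x hx.1 hx).2 rfl
    · exact hb.2 x hx.1 hx rfl
  have C'T : ∀ x y (w : Ultrafilter V), Y x → pt y = i → C' y ∈ w →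
      ∀ᶠ b in (w : Filter V), T (q x) b = T x y := by
    intro x y w hx hpy hw
    refine Filter.mem_of_superset hw ?_
    intro b hb
    simp only [C'] at hb
    rw [if_pos hpy] at hb
    exact (hb.2 x hx.1 hx).1
  have hR : Rob T u A pt' π' C' := by
    refine ⟨?_, ?_, ?_, ?_, ?_, ?_, ?_⟩
    · intro x hx hpx
      by_cases hY : Y x
      · rw [π'Y x hY]
        exact q1 x hY
      · rw [π'N x hY]
        exact h.rob.pin x hx (by rw [← pt'N x hY]; exact hpx)
    · intro x hx y hy hpx hpy hxy
      by_cases hX : Y x <;> by_cases hY : Y y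
      · rw [π'Y x hX, π'Y y hY] at hxy
        exact q2 x y hX hY hxy
      · rw [π'Y x hX, π'N y hY] at hxy
        rw [pt'N y hY] at hpy
        exact absurd hxy (q5 y x hy hpy hX).2
      · rw [π'N x hX, π'Y y hY] at hxy
        rw [pt'N x hX] at hpx
        exact absurd hxy.symm (q5 x y hx hpx hY).2
      · rw [π'N x hX, π'N y hY] at hxy
        rw [pt'N x hX] at hpx
        rw [pt'N y hY] at hpy
        exact h.rob.pinj x hx y hy hpx hpy hxy
    · intro x hx y hy hpx hpy
      by_cases hX : Y x <;> by_cases hY : Y y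
      · rw [π'Y x hX, π'Y y hY]
        exact q3 x y hX hY
      · rw [π'Y x hX, π'N y hY]
        rw [pt'N y hY] at hpy
        rw [opT (π y) (q x), (q5 y x hy hpy hX).1, ← opT y x]
      · rw [π'N x hX, π'Y y hY]
        rw [pt'N x hX] at hpx
        exact (q5 x y hx hpx hY).1
      · rw [π'N x hX, π'N y hY]
        rw [pt'N x hX] at hpx
        rw [pt'N y hY] at hpy
        exact h.rob.pinT x hx y hy hpx hpy
    · intro x hx y hy hpx hpy w hw hCw
      obtain ⟨hYy, ey⟩ := pt'ne y hpy
      have hpy' : pt y ≠ 0 := by rw [← ey]; exact hpy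
      by_cases hX : Y x
      · rw [π'Y x hX]
        refine ⟨?_, C'ne x y w hX hCw⟩
        by_cases hyi : pt y = i
        · exact lim_eq (C'T x y w hX hyi hCw)
        have hvx := hvK x hX.1 hX.2.1
        have hCx := hC x hX.1 hX.2.1
        rcases lt_or_gt_of_ne hyi with hlt | hgt
        · have h1 := h.rob.cross y hy x hx (Nat.pos_of_ne_zero hpy') (by rw [hX.2.1]; exact hlt)
            w hw (v x) hvx (C'mono y w hCw) hCx
          unfold QQ at h1
          rw [hq x hX] at h1
          simp only [r10_lim_pure] at h1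
          rw [lim_eq_iff] at h1
          apply lim_eq
          filter_upwards [h1] with b hb
          rw [opT b (q x), hb, ← opT y x]
        · have h1 := h.rob.cross x hx y hy (by rw [hX.2.1]; exact hi) (by rw [hX.2.1]; exact hgt)
            (v x) hvx w hw hCx (C'mono y w hCw)
          unfold QQ at h1
          rw [hq x hX, r10_lim_pure] at h1
          exact h1
      · rw [π'N x hX]
        rw [pt'N x hX] at hpx
        exact h.rob.pinQ x hx y hy hpx hpy' w hw (C'mono y w hCw)
    · intro x hx y hy hpx hxy a ha b hb hCa hCb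
      obtain ⟨_, ex⟩ := pt'ne x hpx.ne'
      obtain ⟨_, ey⟩ := pt'ne y (hpx.trans hxy).ne'
      rw [ex] at hpx hxy
      rw [ey] at hxy
      exact h.rob.cross x hx y hy hpx hxy a ha b hb (C'mono x a hCa) (C'mono y b hCb)
    · intro x hx y hy hpx hxy
      obtain ⟨_, ex⟩ := pt'ne x hpx.ne'
      obtain ⟨_, ey⟩ := pt'ne y (hpx.trans hxy).ne'
      rw [ex] at hpx hxy
      rw [ey] at hxy
      obtain ⟨θ, hθ⟩ := h.rob.crossS x hx y hy hpx hxy
      exact ⟨θ, fun a ha b hb hCa hCb => hθ a ha b hb (C'mono x a hCa) (C'mono y b hCb)⟩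
    · intro j hj
      by_cases hji : j = i
      · subst hji
        refine ⟨v, pos_mono hv ?_, ?_⟩
        · rintro x ⟨hxA, hxp⟩
          obtain ⟨_, ex⟩ := pt'ne x (by rw [hxp]; exact hj.ne')
          exact ⟨hxA, by rw [← ex]; exact hxp⟩
        · intro x hx hxp
          obtain ⟨hYx, ex⟩ := pt'ne x (by rw [hxp]; exact hj.ne')
          rw [ex] at hxp
          have hnp : ∀ p, v x ≠ pure p := fun p hp => hYx ⟨hx, hxp, p, hp⟩
          refine ⟨?_, hnp⟩
          simp only [C']
          rw [if_pos hxp]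
          refine Filter.inter_mem (hC x hx hxp) ?_
          have h1 : ∀ᶠ b in (v x : Filter V), ∀ x' ∈ A, Y x' → T (q x') b = T x' x ∧ b ≠ q x' := by
            rw [Filter.eventually_all_finset]
            intro x' hx'
            by_cases hY' : Y x'
            · filter_upwards [q4 x' x hY' hx hxp, r10_ev_ne (hnp (q x'))] with b h1 h2 _
              exact ⟨h1, h2⟩
            · exact Filter.Eventually.of_forall fun b hb => absurd hb hY'
          exact h1
      · obtain ⟨w, hw, hw2⟩ := h.rob.pos j hj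
        refine ⟨w, pos_mono hw ?_, ?_⟩
        · rintro x ⟨hxA, hxp⟩
          obtain ⟨_, ex⟩ := pt'ne x (by rw [hxp]; exact hj.ne')
          exact ⟨hxA, by rw [← ex]; exact hxp⟩
        · intro x hx hxp
          obtain ⟨hYx, ex⟩ := pt'ne x (by rw [hxp]; exact hj.ne')
          rw [ex] at hxp
          obtain ⟨h1, h2⟩ := hw2 x hx hxp
          refine ⟨?_, h2⟩
          simp only [C']
          rw [if_neg (by rw [hxp]; exact hji)]
          refine Filter.inter_mem h1 ?_
          have h3 : ∀ᶠ b in (w x : Filter V), ∀ x' ∈ A, Y x' → b ≠ q x' := by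
            rw [Filter.eventually_all_finset]
            intro x' _
            filter_upwards [r10_ev_ne (h2 (q x'))] with b hb _
            exact hb
          exact h3
  have hY₀ : Y x₀ := ⟨hx₀, hpt₀, p₀, hp₀⟩
  have hz : npn A pt < npn A pt' := by
    unfold npn
    apply Finset.card_lt_card
    rw [Finset.ssubset_iff_of_subset]
    · refine ⟨x₀, ?_, ?_⟩
      · rw [Finset.mem_filter]
        exact ⟨hx₀, pt'Y x₀ hY₀⟩
      · rw [Finset.mem_filter]
        rintro ⟨_, h2⟩
        omega
    · intro x hx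
      rw [Finset.mem_filter] at hx ⊢
      refine ⟨hx.1, ?_⟩
      by_cases hY : Y x
      · exact pt'Y x hY
      · rw [pt'N x hY]
        exact hx.2
  have hn : npt A pt ≤ npt A pt' := by
    have h1 : ((A.image pt).erase 0).erase i ⊆ (A.image pt').erase 0 := by
      intro k hk
      rw [Finset.mem_erase, Finset.mem_erase, Finset.mem_image] at hk
      obtain ⟨hki, hk0, x, hx, hxk⟩ := hk
      rw [Finset.mem_erase, Finset.mem_image]
      refine ⟨hk0, x, hx, ?_⟩
      rw [pt'N x (fun hY => hki (by rw [← hxk]; exact hY.2.1))]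
      exact hxk
    have h2 := Finset.card_le_card h1
    have h3 : ((A.image pt).erase 0).card - 1 ≤ (((A.image pt).erase 0).erase i).card :=
      Finset.pred_card_le_card_erase
    unfold npn at hz
    unfold npt
    omega
  have hn2 := h.max pt' π' C' hR
  have hn3 := h.maxp pt' π' C' hR (le_antisymm hn2 hn)
  omega

end Pool.Agent.Lib.MP_4fb322_lc_h7
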