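import Mathlib
import Pool.Agent.Lib.MP_4fb322_lc_h7.Defs
import Pool.Agent.Lib.MP_4fb322_lc_h7.R03
import Pool.Agent.Lib.MP_4fb322_lc_h7.R07

set_option autoImplicit false

/-!
# Row R11

Generic positions exist (Baire category in the compact space of all choices of positions).
-/

namespace Pool.Agent.Lib.MP_4fb322_lc_h7

open Set Filter

variable {Θ V W X : Type}

private theorem R11_basic1 {G : Set (V → Ultrafilter V)} (hG : IsOpen G) {v : V → Ultrafilter V}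
    (hv : v ∈ G) : ∃ E : V → Set V, (∀ y, E y ∈ v y) ∧
      ∀ w : V → Ultrafilter V, (∀ y, E y ∈ w y) → w ∈ G := by
  classical
  obtain ⟨I, g, hg, hsub⟩ := isOpen_pi_iff.1 hG v hv
  have key : ∀ y, ∃ E : Set V, E ∈ v y ∧ (y ∈ I → ∀ w : Ultrafilter V, E ∈ w → w ∈ g y) := by
    intro y
    by_cases hy : y ∈ I
    · obtain ⟨h1, h2⟩ := hg y hy
      obtain ⟨s, ⟨E, rfl⟩, hs1, hs2⟩ :=
        ultrafilterBasis_is_basis.exists_subset_of_mem_open h2 h1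
      exact ⟨E, hs1, fun _ w hw => hs2 hw⟩
    · exact ⟨Set.univ, Filter.univ_mem, fun h => absurd h hy⟩
  choose E hE1 hE2 using key
  exact ⟨E, hE1, fun w hw => hsub (fun y hy => hE2 y hy (w y) (hw y))⟩

private theorem R11_basic2 {G : Set (ℕ → V → Ultrafilter V)} (hG : IsOpen G)
    {v : ℕ → V → Ultrafilter V} (hv : v ∈ G) : ∃ E : ℕ → V → Set V, (∀ m y, E m y ∈ v m y) ∧
      ∀ w : ℕ → V → Ultrafilter V, (∀ m y, E m y ∈ w m y) → w ∈ G := by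
  classical
  obtain ⟨I, g, hg, hsub⟩ := isOpen_pi_iff.1 hG v hv
  have key : ∀ m, ∃ E : V → Set V, (∀ y, E y ∈ v m y) ∧
      (m ∈ I → ∀ w : V → Ultrafilter V, (∀ y, E y ∈ w y) → w ∈ g m) := by
    intro m
    by_cases hm : m ∈ I
    · obtain ⟨h1, h2⟩ := hg m hm
      obtain ⟨E, hE1, hE2⟩ := R11_basic1 h1 h2
      exact ⟨E, hE1, fun _ w hw => hE2 w hw⟩
    · exact ⟨fun _ => Set.univ, fun _ => Filter.univ_mem, fun h => absurd h hm⟩
  choose E hE1 hE2 using key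
  exact ⟨E, hE1, fun w hw => hsub (fun m hm => hE2 m hm (w m) (hw m))⟩

/-- all the choices of positions -/
private def R11_X [Nonempty Θ] (T : V → V → Θ) (u : Ultrafilter (V → V)) (a : ℕ → Finset V)
    (pt : ℕ → V → ℕ) (C : ℕ → V → Set V) : Set (ℕ → V → Ultrafilter V) :=
  {ρ | (∀ n i, 0 < i → Pos T u (part a pt n i) (ρ n)) ∧
    ∀ n, ∀ x ∈ a n, pt n x ≠ 0 → C n x ∈ ρ n x}

private theorem R11_fin (a : ℕ → Finset V) (pt : ℕ → V → ℕ) (n i : ℕ) :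
    (part a pt n i).Finite :=
  (a n).finite_toSet.subset (fun _ hx => hx.1)

private theorem R11_cont (n : ℕ) (x : V) :
    Continuous (fun ρ : ℕ → V → Ultrafilter V => ρ n x) := by
  have h1 : Continuous (fun ρ : ℕ → V → Ultrafilter V => ρ n) := continuous_apply n
  have h2 : Continuous (fun v : V → Ultrafilter V => v x) := continuous_apply x
  exact h2.comp h1

private theorem R11_closed [Nonempty Θ] (T : V → V → Θ) (u : Ultrafilter (V → V))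
    (a : ℕ → Finset V) (pt : ℕ → V → ℕ) (C : ℕ → V → Set V) :
    IsClosed (R11_X T u a pt C) := by
  have h1 : R11_X T u a pt C =
      (⋂ n, ⋂ i, ⋂ _ : 0 < i, {ρ : ℕ → V → Ultrafilter V | Pos T u (part a pt n i) (ρ n)}) ∩
      ⋂ n, ⋂ x, ⋂ _ : x ∈ a n, ⋂ _ : pt n x ≠ 0,
        {ρ : ℕ → V → Ultrafilter V | C n x ∈ ρ n x} := by
    ext ρ
    simp only [R11_X, Set.mem_ofPred_eq, Set.mem_inter_iff, Set.mem_iInter]
  rw [h1]
  refine IsClosed.inter ?_ ?_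
  · refine isClosed_iInter fun n => isClosed_iInter fun i => isClosed_iInter fun _ => ?_
    have hc : Continuous (fun ρ : ℕ → V → Ultrafilter V => ρ n) := continuous_apply n
    exact (isClosed_Pos T u (R11_fin a pt n i)).preimage hc
  · refine isClosed_iInter fun n => isClosed_iInter fun x => isClosed_iInter fun _ =>
      isClosed_iInter fun _ => ?_
    exact (ultrafilter_isClosed_basic (C n x)).preimage (R11_cont n x)

/-- the open conditions -/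
private def R11_G [Nonempty Θ] (T : V → V → Θ) (u : Ultrafilter (V → V)) (n : ℕ) (x : V)
    (n' : ℕ) (x' : V) : Set (ℕ → V → Ultrafilter V) :=
  {ρ | ∃ B ∈ ρ n x, ∃ B' ∈ ρ n' x', Cst T u B B' ∧ Cst T u B' B}

private theorem R11_open [Nonempty Θ] (T : V → V → Θ) (u : Ultrafilter (V → V)) (n : ℕ) (x : V)
    (n' : ℕ) (x' : V) : IsOpen (R11_G T u n x n' x') := by
  have h1 : R11_G T u n x n' x' = ⋃ B : Set V, ⋃ B' : Set V, ⋃ _ : Cst T u B B' ∧ Cst T u B' B,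
      ({ρ : ℕ → V → Ultrafilter V | B ∈ ρ n x} ∩ {ρ | B' ∈ ρ n' x'}) := by
    ext ρ
    simp only [R11_G, Set.mem_ofPred_eq, Set.mem_iUnion, Set.mem_inter_iff]
    constructor
    · rintro ⟨B, hB, B', hB', hc⟩
      exact ⟨B, B', hc, hB, hB'⟩
    · rintro ⟨B, B', hc, hB, hB'⟩
      exact ⟨B, hB, B', hB', hc⟩
  rw [h1]
  refine isOpen_iUnion fun B => isOpen_iUnion fun B' => isOpen_iUnion fun _ => ?_
  exact ((ultrafilter_isOpen_basic B).preimage (R11_cont n x)).inter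
    ((ultrafilter_isOpen_basic B').preimage (R11_cont n' x'))

private theorem R11_dense [Nonempty Θ] [Finite Θ] {T : V → V → Θ} {u : Ultrafilter (V → V)}
    (hg : Gen T u) (hN : ∀ θ, ∃ n, ¬ Shat T θ n) {a : ℕ → Finset V} {pt : ℕ → V → ℕ}
    {C : ℕ → V → Set V} {n n' : ℕ} {x x' : V} (hx : x ∈ a n) (hx' : x' ∈ a n')
    (hp : pt n x ≠ 0) (hp' : pt n' x' ≠ 0) (hne : (n, pt n x) ≠ (n', pt n' x'))
    {ρ₀ : ℕ → V → Ultrafilter V} (h0 : ρ₀ ∈ R11_X T u a pt C) {E : ℕ → V → Set V}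
    (hE : ∀ m y, E m y ∈ ρ₀ m y) :
    ∃ ρ ∈ R11_X T u a pt C, (∀ m y, E m y ∈ ρ m y) ∧ ρ ∈ R11_G T u n x n' x' := by
  classical
  obtain ⟨h01, h02⟩ := h0
  have hxA : x ∈ part a pt n (pt n x) := ⟨hx, rfl⟩
  have hxA' : x' ∈ part a pt n' (pt n' x') := ⟨hx', rfl⟩
  have hB : ∀ m i, 0 < i → ∃ w, Pos T u (part a pt m i) w ∧
      ∀ y ∈ part a pt m i, E m y ∩ C m y ∈ w y := fun m i hi =>
    ⟨ρ₀ m, h01 m i hi, fun y hy => Filter.inter_mem (hE m y)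
      (h02 m y hy.1 (by rw [hy.2]; exact hi.ne'))⟩
  obtain ⟨D, -, D', -, ⟨w, hw1, hw2, hw3⟩, ⟨w', hw1', hw2', hw3'⟩, hc1, hc2⟩ :=
    shrink_pair hg hN (R11_fin a pt n (pt n x)) (R11_fin a pt n' (pt n' x'))
      (B := fun y => E n y ∩ C n y) (B' := fun y => E n' y ∩ C n' y)
      (hB n _ (Nat.pos_of_ne_zero hp)) (hB n' _ (Nat.pos_of_ne_zero hp')) hxA hxA'
  let ρ : ℕ → V → Ultrafilter V := fun m y =>
    if m = n ∧ y ∈ part a pt n (pt n x) then w y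
    else if m = n' ∧ y ∈ part a pt n' (pt n' x') then w' y else ρ₀ m y
  have r1 : ∀ y ∈ part a pt n (pt n x), ρ n y = w y := fun y hy => if_pos ⟨rfl, hy⟩
  have r2 : ∀ y ∈ part a pt n' (pt n' x'), ρ n' y = w' y := by
    intro y hy
    have h1 : ¬ (n' = n ∧ y ∈ part a pt n (pt n x)) := by
      rintro ⟨h1, h2⟩
      subst h1
      exact hne (Prod.ext rfl (h2.2.symm.trans hy.2))
    exact (if_neg h1).trans (if_pos ⟨rfl, hy⟩)
  have r3 : ∀ m y, ¬ (m = n ∧ y ∈ part a pt n (pt n x)) →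
      ¬ (m = n' ∧ y ∈ part a pt n' (pt n' x')) → ρ m y = ρ₀ m y := fun m y h1 h2 =>
    (if_neg h1).trans (if_neg h2)
  refine ⟨ρ, ⟨?_, ?_⟩, ?_, ?_⟩
  · intro m j hj
    by_cases h1 : (m, j) = (n, pt n x)
    · obtain ⟨rfl, rfl⟩ := Prod.mk.inj h1
      exact pos_congr hw1 r1
    · by_cases h2 : (m, j) = (n', pt n' x')
      · obtain ⟨rfl, rfl⟩ := Prod.mk.inj h2
        exact pos_congr hw1' r2
      · refine pos_congr (h01 m j hj) (fun y hy => r3 m y ?_ ?_)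
        · rintro ⟨rfl, hy'⟩
          exact h1 (Prod.ext rfl (hy.2.symm.trans hy'.2))
        · rintro ⟨rfl, hy'⟩
          exact h2 (Prod.ext rfl (hy.2.symm.trans hy'.2))
  · intro m y hy hpy
    by_cases h1 : m = n ∧ y ∈ part a pt n (pt n x)
    · obtain ⟨rfl, h1⟩ := h1
      rw [r1 y h1]
      exact Filter.mem_of_superset (hw2 y h1) Set.inter_subset_right
    · by_cases h2 : m = n' ∧ y ∈ part a pt n' (pt n' x')
      · obtain ⟨rfl, h2⟩ := h2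
        rw [r2 y h2]
        exact Filter.mem_of_superset (hw2' y h2) Set.inter_subset_right
      · rw [r3 m y h1 h2]
        exact h02 m y hy hpy
  · intro m y
    by_cases h1 : m = n ∧ y ∈ part a pt n (pt n x)
    · obtain ⟨rfl, h1⟩ := h1
      rw [r1 y h1]
      exact Filter.mem_of_superset (hw2 y h1) Set.inter_subset_left
    · by_cases h2 : m = n' ∧ y ∈ part a pt n' (pt n' x')
      · obtain ⟨rfl, h2⟩ := h2
        rw [r2 y h2]
        exact Filter.mem_of_superset (hw2' y h2) Set.inter_subset_left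
      · rw [r3 m y h1 h2]
        exact hE m y
  · exact ⟨D, by rw [r1 x hxA]; exact hw3, D', by rw [r2 x' hxA']; exact hw3', hc1, hc2⟩

theorem exists_genPos [Nonempty Θ] [Finite Θ] {T : V → V → Θ} {u : Ultrafilter (V → V)}
    (hg : Gen T u) (hN : ∀ θ, ∃ n, ¬ Shat T θ n) {a : ℕ → Finset V} {pt : ℕ → V → ℕ}
    {π : ℕ → V → V} {C : ℕ → V → Set V} (h : ∀ n, MaxRob T u (a n) (pt n) (π n) (C n)) :
    ∃ ρ, GenPos T u a pt C ρ := by
  classical
  have hcl := R11_closed T u a pt C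
  have : CompactSpace (R11_X T u a pt C) := isCompact_iff_compactSpace.1 hcl.isCompact
  have hne : (R11_X T u a pt C).Nonempty := by
    have h1 : ∀ n i, ∃ v : V → Ultrafilter V, 0 < i → Pos T u {x | x ∈ a n ∧ pt n x = i} v ∧
        ∀ x ∈ a n, pt n x = i → C n x ∈ v x := by
      intro n i
      by_cases hi : 0 < i
      · obtain ⟨v, hv1, hv2⟩ := (h n).rob.pos i hi
        exact ⟨v, fun _ => ⟨hv1, fun x hx hi => (hv2 x hx hi).1⟩⟩
      · obtain ⟨v, -, -⟩ := (h n).rob.pos 1 one_pos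
        exact ⟨v, fun h => absurd h hi⟩
    choose v hv using h1
    refine ⟨fun n x => v n (pt n x) x, fun n i hi => ?_, fun n x hx hp => ?_⟩
    · refine pos_congr (hv n i hi).1 (fun x hx => ?_)
      show v n (pt n x) x = v n i x
      rw [hx.2]
    · exact (hv n (pt n x) (Nat.pos_of_ne_zero hp)).2 x hx rfl
  have : Nonempty (R11_X T u a pt C) := hne.to_subtype
  let ι := (Σ n : ℕ, {x // x ∈ a n}) × (Σ n : ℕ, {x // x ∈ a n})
  let O : ι → Set (R11_X T u a pt C) := fun p =>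
    {ρ | pt p.1.1 p.1.2.1 ≠ 0 → pt p.2.1 p.2.2.1 ≠ 0 →
      (p.1.1, pt p.1.1 p.1.2.1) ≠ (p.2.1, pt p.2.1 p.2.2.1) →
      (ρ : ℕ → V → Ultrafilter V) ∈ R11_G T u p.1.1 p.1.2.1 p.2.1 p.2.2.1}
  have hO : ∀ p, IsOpen (O p) := by
    intro p
    by_cases hc : pt p.1.1 p.1.2.1 ≠ 0 ∧ pt p.2.1 p.2.2.1 ≠ 0 ∧
      (p.1.1, pt p.1.1 p.1.2.1) ≠ (p.2.1, pt p.2.1 p.2.2.1)
    · have : O p = Subtype.val ⁻¹' R11_G T u p.1.1 p.1.2.1 p.2.1 p.2.2.1 := by
        ext ρ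
        exact ⟨fun h => h hc.1 hc.2.1 hc.2.2, fun h _ _ _ => h⟩
      rw [this]
      exact (R11_open T u _ _ _ _).preimage continuous_subtype_val
    · have : O p = Set.univ := by
        ext ρ
        simp only [Set.mem_univ, iff_true]
        exact fun h1 h2 h3 => absurd ⟨h1, h2, h3⟩ hc
      rw [this]
      exact isOpen_univ
  have hd : ∀ p, Dense (O p) := by
    intro p
    rw [dense_iff_inter_open]
    rintro G hG ⟨ρ₀, hρ₀⟩
    by_cases hc : pt p.1.1 p.1.2.1 ≠ 0 ∧ pt p.2.1 p.2.2.1 ≠ 0 ∧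
      (p.1.1, pt p.1.1 p.1.2.1) ≠ (p.2.1, pt p.2.1 p.2.2.1)
    · obtain ⟨G', hG', rfl⟩ := isOpen_induced_iff.1 hG
      obtain ⟨E, hE1, hE2⟩ := R11_basic2 hG' hρ₀
      obtain ⟨ρ, hρ, h1, h2⟩ := R11_dense hg hN p.1.2.2 p.2.2.2 hc.1 hc.2.1 hc.2.2 ρ₀.2 hE1
      exact ⟨⟨ρ, hρ⟩, hE2 ρ h1, fun _ _ _ => h2⟩
    · exact ⟨ρ₀, hρ₀, fun h1 h2 h3 => absurd ⟨h1, h2, h3⟩ hc⟩
  obtain ⟨⟨ρ, hρ⟩, hmem⟩ := (dense_iInter_of_isOpen hO hd).nonempty
  rw [Set.mem_iInter] at hmem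
  refine ⟨ρ, ⟨fun n i hi => hρ.1 n i hi, fun n x hx hp => hρ.2 n x hx hp, ?_⟩⟩
  intro n i n' i' hi hi' hni x hx x' hx'
  obtain ⟨hx1, rfl⟩ := hx
  obtain ⟨hx1', rfl⟩ := hx'
  exact hmem (⟨n, ⟨x, hx1⟩⟩, ⟨n', ⟨x', hx1'⟩⟩) hi.ne' hi'.ne' hni

end Pool.Agent.Lib.MP_4fb322_lc_h7
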