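import Mathlib
import Pool.Agent.Lib.MP_4fb322_lc_h7.Defs
import Pool.Agent.Lib.MP_4fb322_lc_h7.R10

set_option autoImplicit false

/-!
# Row R12

Nonprincipal positions, the law of `TW`, and small facts. PROOFS. np: maxRob_np with `v = ρ n`, `D.gpos.pos`, `D.gpos.mem` (part is definitionally `{x | x ∈ a n ∧ pt n x = i}`). TW_op: all values `QQ T a b` and `lim v (T p)` are of the form `T x y` (two lim_spec's and nonempty),
so `op (op θ) = θ` for them; `rk` linear order: cases. TW_lt, TW_same: by definition.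
-/

namespace Pool.Agent.Lib.MP_4fb322_lc_h7

open Set Filter

variable {Θ V W X : Type}

private theorem op_op_T {op : Θ → Θ} {T : V → V → Θ} (opT : ∀ x y, T y x = op (T x y)) (x y : V) :
    op (op (T x y)) = T x y := by
  rw [← opT x y, ← opT y x]

private theorem op_op_QQ [Nonempty Θ] [Finite Θ] {op : Θ → Θ} {T : V → V → Θ}
    (opT : ∀ x y, T y x = op (T x y)) (v w : Ultrafilter V) : op (op (QQ T v w)) = QQ T v w := by
  obtain ⟨x, hx⟩ := (lim_spec v (fun x => lim w (fun y => T x y))).exists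
  obtain ⟨y, hy⟩ := (lim_spec w (fun y => T x y)).exists
  have e : QQ T v w = T x y := by
    unfold QQ
    rw [← hx, ← hy]
  rw [e]
  exact op_op_T opT x y

theorem np [Nonempty Θ] [Finite Θ] {op : Θ → Θ} {T : V → V → Θ} {a : ℕ → Finset V}
    {u : Ultrafilter (V → V)} {pt : ℕ → V → ℕ} {π : ℕ → V → V} {C : ℕ → V → Set V}
    {ρ : ℕ → V → Ultrafilter V} (D : Dat op T a u pt π C ρ) {n : ℕ} {x : V} (hx : x ∈ a n)
    (h0 : pt n x ≠ 0) (p : V) : ρ n x ≠ pure p := by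
  have hi : 0 < pt n x := Nat.pos_of_ne_zero h0
  exact maxRob_np D.opT (D.mrob n) hi (v := ρ n) (D.gpos.pos n (pt n x) hi)
    (fun y hy hyi => D.gpos.mem n y hy (by omega)) x hx rfl p

theorem mem_KK [Nonempty Θ] [Finite Θ] {op : Θ → Θ} {T : V → V → Θ} {a : ℕ → Finset V}
    {u : Ultrafilter (V → V)} {pt : ℕ → V → ℕ} {π : ℕ → V → V} {C : ℕ → V → Set V}
    {ρ : ℕ → V → Ultrafilter V} (D : Dat op T a u pt π C ρ) {n : ℕ} {x : V} (hx : x ∈ a n)
    (h0 : pt n x ≠ 0) : ρ n x ∈ KK u := by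
  exact (D.gpos.pos n (pt n x) (Nat.pos_of_ne_zero h0)).1 x ⟨hx, rfl⟩

theorem rho_mem_KK [Nonempty Θ] [Finite Θ] {op : Θ → Θ} {T : V → V → Θ} {a : ℕ → Finset V}
    {u : Ultrafilter (V → V)} {pt : ℕ → V → ℕ} {π : ℕ → V → V} {C : ℕ → V → Set V}
    {ρ : ℕ → V → Ultrafilter V} (D : Dat op T a u pt π C ρ) {z : Pt V} (hz : z ∈ Val u a pt) :
    rho ρ z ∈ KK u := by
  rcases hz with ⟨p, hp, rfl⟩ | ⟨l, j, x, hx, h0, rfl⟩
  · exact pure_mem_KK.2 hp
  · exact mem_KK D hx h0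

theorem TW_op [Nonempty Θ] [Finite Θ] {op : Θ → Θ} {T : V → V → Θ}
    (opT : ∀ x y, T y x = op (T x y)) (pt : ℕ → V → ℕ) (ρ : ℕ → V → Ultrafilter V) (z z' : Pt V) :
    TW op T pt ρ z' z = op (TW op T pt ρ z z') := by
  rcases z with p | w <;> rcases z' with q | w'
  · exact opT p q
  · rfl
  · show lim (ρ w.2.1 w.2.2) (fun b => T q b) = op (op (lim (ρ w.2.1 w.2.2) (fun b => T q b)))
    obtain ⟨b, hb⟩ := (lim_spec (ρ w.2.1 w.2.2) (fun b => T q b)).exists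
    rw [← hb]
    exact (op_op_T opT q b).symm
  · rcases lt_trichotomy (rk pt w) (rk pt w') with h | h | h
    · simp only [TW]
      rw [if_neg h.ne', if_neg h.not_gt, if_neg h.ne, if_pos h]
    · simp only [TW]
      rw [if_pos h.symm, if_pos h]
      exact opT _ _
    · simp only [TW]
      rw [if_neg h.ne, if_pos h, if_neg h.ne', if_neg h.not_gt]
      exact (op_op_QQ opT _ _).symm

theorem TW_lt [Nonempty Θ] {op : Θ → Θ} {T : V → V → Θ} {pt : ℕ → V → ℕ}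
    {ρ : ℕ → V → Ultrafilter V} {z z' : ℕ × ℕ × V} (h : rk pt z < rk pt z') :
    TW op T pt ρ (Sum.inr z) (Sum.inr z') = QQ T (ρ z.2.1 z.2.2) (ρ z'.2.1 z'.2.2) := by
  simp only [TW]
  rw [if_neg h.ne, if_pos h]

theorem TW_gt [Nonempty Θ] {op : Θ → Θ} {T : V → V → Θ} {pt : ℕ → V → ℕ}
    {ρ : ℕ → V → Ultrafilter V} {z z' : ℕ × ℕ × V} (h : rk pt z' < rk pt z) :
    TW op T pt ρ (Sum.inr z) (Sum.inr z') = op (QQ T (ρ z'.2.1 z'.2.2) (ρ z.2.1 z.2.2)) := by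
  simp only [TW]
  rw [if_neg h.ne', if_neg h.not_gt]

theorem TW_same [Nonempty Θ] {op : Θ → Θ} {T : V → V → Θ} {pt : ℕ → V → ℕ}
    {ρ : ℕ → V → Ultrafilter V} {z z' : ℕ × ℕ × V} (h : rk pt z = rk pt z') :
    TW op T pt ρ (Sum.inr z) (Sum.inr z') = T z.2.2 z'.2.2 := by
  simp only [TW]
  rw [if_pos h]

end Pool.Agent.Lib.MP_4fb322_lc_h7
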