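import Mathlib
import Pool.Agent.Lib.MP_4fb322_lc_h7.Defs
import Pool.Agent.Lib.MP_4fb322_lc_h7.R03
import Pool.Agent.Lib.MP_4fb322_lc_h7.R12

set_option autoImplicit false

/-!
# Row R13

REALIZATION: finite sets of valid points embed in `V`, near their positions (pieces may be repeated in different blocks). PROOF by strong induction on the number of nonpin points of `Y` (for all `B`). If all points are pins: `h (inl p) = p` (`B (inl p) ∈ pure p` means `p ∈ B`). Otherwise take the minimal rank `r` among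
the nonpin points; `Y₁ = {y ∈ Y | y = inr z, rk z = r}` lies in one piece: `z = (l, j, x)` with fixed `l, j` and `pt j x = i`, `x ∈ a j`, `i ≠ 0` (Val). Apply `D.gpos.pos j i` (second part of Pos) with the sets `B'' x` = intersection of `B (inr (l,j,x))` (if that point is in `Y₁`), of `{b | b ≠ p}` for the pins `inl p ∈ Y` (np: `ρ j x` nonprincipal),
of `{b | T p b = lim (ρ j x) (T p)}` for these pins (lim_spec), and of `{b | lim (rho z') (T b) = QQ T (ρ j x) (rho z')}` for the later points `z' ∈ Y \ Y₁` (lim_spec): a finite intersection. It gives `g` with PE T T (part j i) g. Then apply the induction hypothesis to `Y \ Y₁` with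
`B' z' = B z' ∩ {b | ∀ y ∈ Y₁, T (g y) b = TW y z' ∧ b ≠ g y}`: for a later nonpin `z'`: `T (g y) b = lim (rho z') (T (g y)) = QQ .. = TW y z'` for almost all `b`, and `rho z'` is nonprincipal; for a pin `p`: `T (g y) p = op (T p (g y)) = op (lim (ρ j x) (T p)) = TW y (inl p)` and `p ≠ g y`. Combine `g` (on `Y₁`) and the map `h` of the
induction hypothesis: the cross pairs in the other order by opT and TW_op; same piece: TW_same. (About 200 lines.)
-/

namespace Pool.Agent.Lib.MP_4fb322_lc_h7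

open Set Filter

variable {Θ V W X : Type}

private theorem ne_eventually_R13 {v : Ultrafilter V} {p : V} (h : v ≠ pure p) :
    ∀ᶠ b in (v : Filter V), b ≠ p := by
  by_contra h1
  rw [Ultrafilter.eventually_not, not_not] at h1
  apply h
  apply Ultrafilter.eq_of_le
  rw [Ultrafilter.coe_pure, Filter.le_pure_iff]
  exact h1

private theorem rk_eq_R13 {pt : ℕ → V → ℕ} {z z0 : ℕ × ℕ × V} (h : rk pt z = rk pt z0) :
    z.1 = z0.1 ∧ z.2.1 = z0.2.1 ∧ pt z.2.1 z.2.2 = pt z0.2.1 z0.2.2 := by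
  unfold rk at h
  have h1 := (toLex_inj.1 h)
  have h2 := Prod.mk.inj h1
  have h3 := Prod.mk.inj (toLex_inj.1 h2.2)
  exact ⟨h2.1, h3.1, h3.2⟩

theorem realize [Nonempty Θ] [Finite Θ] {op : Θ → Θ} {T : V → V → Θ} {a : ℕ → Finset V}
    {u : Ultrafilter (V → V)} {pt : ℕ → V → ℕ} {π : ℕ → V → V} {C : ℕ → V → Set V}
    {ρ : ℕ → V → Ultrafilter V} (D : Dat op T a u pt π C ρ) {Y : Set (Pt V)} (hY : Y.Finite)
    (hv : Y ⊆ Val u a pt) (B : Pt V → Set V) (hB : ∀ y ∈ Y, B y ∈ rho ρ y) :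
    ∃ h : Pt V → V, PE (TW op T pt ρ) T Y h ∧ ∀ y ∈ Y, h y ∈ B y := by
  classical
  obtain ⟨N, hN⟩ : ∃ N : ℕ, {z : ℕ × ℕ × V | (Sum.inr z : Pt V) ∈ Y}.ncard ≤ N := ⟨_, le_rfl⟩
  induction N generalizing Y B with
  | zero =>
    have hZf : {z : ℕ × ℕ × V | (Sum.inr z : Pt V) ∈ Y}.Finite := hY.preimage (Sum.inr_injective.injOn)
    have hZ : {z : ℕ × ℕ × V | (Sum.inr z : Pt V) ∈ Y} = ∅ := by
      rw [← Set.ncard_eq_zero hZf]; omega
    have hpin : ∀ y ∈ Y, ∃ p, y = Sum.inl p := by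
      intro y hy
      rcases y with p | z
      · exact ⟨p, rfl⟩
      · exact absurd (show z ∈ {z : ℕ × ℕ × V | (Sum.inr z : Pt V) ∈ Y} from hy) (by rw [hZ]; simp)
    rcases isEmpty_or_nonempty V with hVe | hVn
    · have hPe : IsEmpty (Pt V) := by
        constructor
        rintro (p | z)
        · exact hVe.elim p
        · exact hVe.elim z.2.2
      exact ⟨fun y => hPe.elim y, ⟨fun y => hPe.elim y, fun y => hPe.elim y⟩, fun y => hPe.elim y⟩
    · refine ⟨fun y => match y with | Sum.inl p => p | Sum.inr z => z.2.2, ⟨?_, ?_⟩, ?_⟩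
      · intro y hy y' hy' h
        obtain ⟨p, rfl⟩ := hpin y hy
        obtain ⟨p', rfl⟩ := hpin y' hy'
        exact congrArg _ h
      · intro y hy y' hy'
        obtain ⟨p, rfl⟩ := hpin y hy
        obtain ⟨p', rfl⟩ := hpin y' hy'
        rfl
      · intro y hy
        obtain ⟨p, rfl⟩ := hpin y hy
        exact hB _ hy
  | succ N IH =>
    rcases {z : ℕ × ℕ × V | (Sum.inr z : Pt V) ∈ Y}.eq_empty_or_nonempty with hZ | hZ
    · exact IH hY hv B hB (by rw [hZ]; simp)
    have hZf : {z : ℕ × ℕ × V | (Sum.inr z : Pt V) ∈ Y}.Finite := hY.preimage (Sum.inr_injective.injOn)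
    have hPf : {p : V | (Sum.inl p : Pt V) ∈ Y}.Finite := hY.preimage (Sum.inl_injective.injOn)
    obtain ⟨⟨l, j, x0⟩, hz0, hmin⟩ := Set.exists_min_image _ (rk pt) hZf hZ
    have hx0 : x0 ∈ a j ∧ pt j x0 ≠ 0 := by
      rcases hv hz0 with ⟨p, -, hp⟩ | ⟨l', j', x', h1, h2, h3⟩
      · exact absurd hp (by simp)
      · have h4 := Sum.inr_injective h3
        have h5 := Prod.mk.inj h4
        have h6 := Prod.mk.inj h5.2
        rw [h6.1, h6.2]; exact ⟨h1, h2⟩
    -- validity of the nonpin points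
    have hval : ∀ z : ℕ × ℕ × V, (Sum.inr z : Pt V) ∈ Y → z.2.2 ∈ a z.2.1 ∧ pt z.2.1 z.2.2 ≠ 0 := by
      intro z hz
      rcases hv hz with ⟨p, -, hp⟩ | ⟨l', j', x', h1, h2, h3⟩
      · exact absurd hp (by simp)
      · have h4 := Sum.inr_injective h3
        rw [h4]; exact ⟨h1, h2⟩
    -- the first step: the piece of minimal rank
    have hev : ∀ x ∈ part a pt j (pt j x0), {b : V | ((Sum.inr (l, j, x) : Pt V) ∈ Y → b ∈ B (Sum.inr (l, j, x))) ∧
        (∀ p ∈ {p : V | (Sum.inl p : Pt V) ∈ Y}, b ≠ p ∧ T p b = lim (ρ j x) (fun b => T p b)) ∧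
        (∀ z' ∈ {z : ℕ × ℕ × V | (Sum.inr z : Pt V) ∈ Y},
          lim (ρ z'.2.1 z'.2.2) (fun c => T b c) = QQ T (ρ j x) (ρ z'.2.1 z'.2.2))} ∈ ρ j x := by
      intro x hx
      have hxn : ∀ p, ρ j x ≠ pure p := fun p => np D hx.1 (by rw [hx.2]; exact hx0.2) p
      have e1 : ∀ᶠ b in (ρ j x : Filter V), ((Sum.inr (l, j, x) : Pt V) ∈ Y → b ∈ B (Sum.inr (l, j, x))) := by
        by_cases h : (Sum.inr (l, j, x) : Pt V) ∈ Y
        · filter_upwards [hB _ h] with b hb _ using hb
        · exact Filter.Eventually.of_forall fun b h' => absurd h' h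
      have e2 : ∀ᶠ b in (ρ j x : Filter V), (∀ p ∈ {p : V | (Sum.inl p : Pt V) ∈ Y}, b ≠ p ∧
          T p b = lim (ρ j x) (fun b => T p b)) := by
        rw [Filter.eventually_all_finite hPf]
        intro p _
        exact (ne_eventually_R13 (hxn p)).and (lim_spec _ _)
      have e3 : ∀ᶠ b in (ρ j x : Filter V), (∀ z' ∈ {z : ℕ × ℕ × V | (Sum.inr z : Pt V) ∈ Y},
          lim (ρ z'.2.1 z'.2.2) (fun c => T b c) = QQ T (ρ j x) (ρ z'.2.1 z'.2.2)) := by
        rw [Filter.eventually_all_finite hZf]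
        intro z' _
        exact lim_spec _ _
      exact e1.and (e2.and e3)
    obtain ⟨g, hg, hgB⟩ := (D.gpos.pos j (pt j x0) (Nat.pos_of_ne_zero hx0.2)).2 _ hev
    -- the points of minimal rank
    have hfirst : ∀ z : ℕ × ℕ × V, (Sum.inr z : Pt V) ∈ Y → rk pt z = rk pt (l, j, x0) →
        z = (l, j, z.2.2) ∧ z.2.2 ∈ part a pt j (pt j x0) := by
      intro z hz hr
      obtain ⟨h1, h2, h3⟩ := rk_eq_R13 hr
      have h4 := hval z hz
      obtain ⟨z1, z2, z3⟩ := z
      simp only at h1 h2 h3 h4 ⊢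
      subst h1 h2
      exact ⟨rfl, h4.1, h3⟩
    obtain ⟨Y2, hY2⟩ : ∃ Y2 : Set (Pt V), Y2 = {y | y ∈ Y ∧ ∀ z, y = Sum.inr z → rk pt (l, j, x0) < rk pt z} :=
      ⟨_, rfl⟩
    have hsub : Y2 ⊆ Y := by rw [hY2]; exact fun y hy => hy.1
    have hcase : ∀ y ∈ Y, y ∉ Y2 → ∃ z, y = Sum.inr z ∧ rk pt z = rk pt (l, j, x0) := by
      intro y hy hn
      rw [hY2] at hn
      have hn' : ¬ (y ∈ Y ∧ ∀ z, y = Sum.inr z → rk pt (l, j, x0) < rk pt z) := hn
      by_contra hcon
      apply hn'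
      refine ⟨hy, fun z hz => lt_of_le_of_ne (hmin z (by rw [hz] at hy; exact hy)) fun he => ?_⟩
      exact hcon ⟨z, hz, he.symm⟩
    obtain ⟨B', hB'⟩ : ∃ B' : Pt V → Set V, B' = fun y => B y ∩ {b | ∀ z ∈ {z : ℕ × ℕ × V | (Sum.inr z : Pt V) ∈ Y},
      rk pt z = rk pt (l, j, x0) → T (g z.2.2) b = TW op T pt ρ (Sum.inr z) y ∧ b ≠ g z.2.2} := ⟨_, rfl⟩
    have hB'mem : ∀ y ∈ Y2, B' y ∈ rho ρ y := by
      intro y hy
      have hyY := hsub hy
      rw [hB']
      refine Filter.inter_mem (hB y hyY) ?_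
      change ∀ᶠ b in (rho ρ y : Filter V), ∀ z ∈ {z : ℕ × ℕ × V | (Sum.inr z : Pt V) ∈ Y},
      rk pt z = rk pt (l, j, x0) → T (g z.2.2) b = TW op T pt ρ (Sum.inr z) y ∧ b ≠ g z.2.2
      rw [Filter.eventually_all_finite hZf]
      intro z hz
      by_cases hr : rk pt z = rk pt (l, j, x0)
      · obtain ⟨hz1, hz2⟩ := hfirst z hz hr
        have hgz := hgB _ hz2
        rcases y with p | z'
        · have h2 := hgz.2.1 p hyY
          have h3 : ∀ᶠ b in (pure p : Filter V), rk pt z = rk pt (l, j, x0) →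
              T (g z.2.2) b = TW op T pt ρ (Sum.inr z) (Sum.inl p) ∧ b ≠ g z.2.2 := by
            rw [Filter.eventually_pure]
            intro _
            refine ⟨?_, fun h => h2.1 h.symm⟩
            rw [D.opT p (g z.2.2), h2.2]
            show _ = op (lim (ρ z.2.1 z.2.2) (fun b => T p b))
            rw [hz1]
          exact h3
        · have hlt : rk pt (l, j, x0) < rk pt z' := by
            rw [hY2] at hy; exact hy.2 z' rfl
          have h2 := hgz.2.2 z' hyY
          have hz' := hval z' hyY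
          have h3 : ∀ᶠ b in (ρ z'.2.1 z'.2.2 : Filter V), rk pt z = rk pt (l, j, x0) →
              T (g z.2.2) b = TW op T pt ρ (Sum.inr z) (Sum.inr z') ∧ b ≠ g z.2.2 := by
            filter_upwards [lim_spec (ρ z'.2.1 z'.2.2) (fun c => T (g z.2.2) c),
              ne_eventually_R13 (np D hz'.1 hz'.2 (g z.2.2))] with b hb1 hb2 _
            refine ⟨?_, hb2⟩
            rw [hb1, h2, TW_lt (by rw [hr]; exact hlt)]
            congr 1
            rw [hz1]
          exact h3
      · exact Filter.Eventually.of_forall fun b h' => absurd h' hr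
    have hcard : {z : ℕ × ℕ × V | (Sum.inr z : Pt V) ∈ Y2}.ncard ≤ N := by
      have h1 : {z : ℕ × ℕ × V | (Sum.inr z : Pt V) ∈ Y2} ⊂ {z : ℕ × ℕ × V | (Sum.inr z : Pt V) ∈ Y} := by
        refine ⟨fun z hz => hsub hz, fun h => ?_⟩
        have h2 := h hz0
        have h3 : (Sum.inr (l, j, x0) : Pt V) ∈ Y2 := h2
        rw [hY2] at h3
        exact lt_irrefl _ (h3.2 _ rfl)
      have h2 := Set.ncard_lt_ncard h1 hZf
      omega
    obtain ⟨h, hPE, hhB⟩ := IH (hY.subset hsub) (hsub.trans hv) B' hB'mem hcard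
    -- the cross pairs
    have hcross : ∀ z : ℕ × ℕ × V, (Sum.inr z : Pt V) ∈ Y → rk pt z = rk pt (l, j, x0) → ∀ y ∈ Y2,
        T (g z.2.2) (h y) = TW op T pt ρ (Sum.inr z) y ∧ h y ≠ g z.2.2 := by
      intro z hz hr y hy
      have h1 := hhB y hy
      rw [hB'] at h1
      exact h1.2 z hz hr
    refine ⟨fun y => if y ∈ Y2 then h y else match y with | Sum.inl p => p | Sum.inr z => g z.2.2, ⟨?_, ?_⟩, ?_⟩
    · intro y hy y' hy' hyy
      by_cases h1 : y ∈ Y2 <;> by_cases h2 : y' ∈ Y2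
      · simp only [h1, h2, if_true] at hyy
        exact hPE.1 h1 h2 hyy
      · exfalso
        obtain ⟨z', rfl, hr⟩ := hcase y' hy' h2
        simp only [h1, h2, if_true, if_false] at hyy
        exact (hcross z' hy' hr y h1).2 hyy
      · exfalso
        obtain ⟨z, rfl, hr⟩ := hcase y hy h1
        simp only [h1, h2, if_true, if_false] at hyy
        exact (hcross z hy hr y' h2).2 hyy.symm
      · obtain ⟨z, rfl, hr⟩ := hcase y hy h1
        obtain ⟨z', rfl, hr'⟩ := hcase y' hy' h2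
        simp only [h1, h2, if_false] at hyy
        obtain ⟨e1, m1⟩ := hfirst z hy hr
        obtain ⟨e2, m2⟩ := hfirst z' hy' hr'
        have h3 := hg.1 m1 m2 hyy
        rw [e1, e2, h3]
    · intro y hy y' hy'
      by_cases h1 : y ∈ Y2 <;> by_cases h2 : y' ∈ Y2
      · simp only [h1, h2, if_true]
        exact hPE.2 y h1 y' h2
      · obtain ⟨z', rfl, hr⟩ := hcase y' hy' h2
        simp only [h1, h2, if_true, if_false]
        rw [D.opT (g z'.2.2) (h y), (hcross z' hy' hr y h1).1, ← TW_op D.opT]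
      · obtain ⟨z, rfl, hr⟩ := hcase y hy h1
        simp only [h1, h2, if_true, if_false]
        exact (hcross z hy hr y' h2).1
      · obtain ⟨z, rfl, hr⟩ := hcase y hy h1
        obtain ⟨z', rfl, hr'⟩ := hcase y' hy' h2
        simp only [h1, h2, if_false]
        rw [TW_same (by rw [hr, hr'])]
        exact hg.2 _ (hfirst z hy hr).2 _ (hfirst z' hy' hr').2
    · intro y hy
      by_cases h1 : y ∈ Y2
      · simp only [h1, if_true]
        have h2 := hhB y h1
        rw [hB'] at h2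
        exact h2.1
      · obtain ⟨z, rfl, hr⟩ := hcase y hy h1
        simp only [h1, if_false]
        obtain ⟨e1, m1⟩ := hfirst z hy hr
        have h2 := (hgB _ m1).1
        rw [← e1] at h2
        exact h2 hy

end Pool.Agent.Lib.MP_4fb322_lc_h7
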