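import Mathlib
import Pool.Agent.Lib.MP_4fb322_lc_h7.Defs
import Pool.Agent.Lib.MP_4fb322_lc_h7.R02
import Pool.Agent.Lib.MP_4fb322_lc_h7.R12
import Pool.Agent.Lib.MP_4fb322_lc_h7.R13

set_option autoImplicit false

/-!
# Row R14: rooted fullness (recognition)
-/

namespace Pool.Agent.Lib.MP_4fb322_lc_h7

open Set Filter

variable {Θ V W X : Type}

/-- the sets of the family -/
def GG14 [Nonempty Θ] (op : Θ → Θ) (T : V → V → Θ) (u : Ultrafilter (V → V)) (pt : ℕ → V → ℕ)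
    (ρ : ℕ → V → Ultrafilter V) {ι : Type} (N : ι → Set (Pt V)) (Bad : Set ι)
    (Y' : Set V) (𝒟 : Set (Set V)) : Set (V → V) :=
  {g | PE T T Y' g ∧ ∃ m ∈ Bad, ∃ f' : V → Pt V, PE T (TW op T pt ρ) Y' f' ∧
    ∀ z ∈ Y', f' z ∈ N m ∧ ∀ E ∈ 𝒟, (g z ∈ th u E ↔ E ∈ rho ρ (f' z))}

theorem GG14_mono [Nonempty Θ] {op : Θ → Θ} {T : V → V → Θ} {u : Ultrafilter (V → V)}
    {pt : ℕ → V → ℕ} {ρ : ℕ → V → Ultrafilter V} {ι : Type} {N : ι → Set (Pt V)} {Bad : Set ι}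
    {Y' Y'' : Set V} {𝒟 𝒟' : Set (Set V)} (h1 : Y' ⊆ Y'') (h2 : 𝒟 ⊆ 𝒟') :
    GG14 op T u pt ρ N Bad Y'' 𝒟' ⊆ GG14 op T u pt ρ N Bad Y' 𝒟 := by
  rintro g ⟨hg, m, hm, f', hf', h⟩
  exact ⟨hg.mono h1, m, hm, f', hf'.mono h1, fun z hz =>
    ⟨(h z (h1 hz)).1, fun E hE => (h z (h1 hz)).2 E (h2 hE)⟩⟩

/-- realization with prescribed sets `th u E` -/
theorem realize_th14 [Nonempty Θ] [Finite Θ] {op : Θ → Θ} {T : V → V → Θ} {a : ℕ → Finset V}
    {u : Ultrafilter (V → V)} {pt : ℕ → V → ℕ} {π : ℕ → V → V} {C : ℕ → V → Set V}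
    {ρ : ℕ → V → Ultrafilter V} (D : Dat op T a u pt π C ρ) {Y : Set (Pt V)} (hY : Y.Finite)
    (hv : Y ⊆ Val u a pt) {𝒟 : Set (Set V)} (h𝒟 : 𝒟.Finite) :
    ∃ h : Pt V → V, PE (TW op T pt ρ) T Y h ∧
      ∀ y ∈ Y, ∀ E ∈ 𝒟, (h y ∈ th u E ↔ E ∈ rho ρ y) := by
  classical
  obtain ⟨h, hh, hB⟩ := realize D hY hv
    (fun w => ⋂ E ∈ 𝒟, if E ∈ rho ρ w then th u E else (th u E)ᶜ) (by
      intro y hy
      refine (Filter.biInter_mem h𝒟).2 fun E _ => ?_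
      have hK := rho_mem_KK D (hv hy) E
      by_cases hE : E ∈ rho ρ y
      · rw [if_pos hE]
        exact hK.1 hE
      · rw [if_neg hE]
        exact Ultrafilter.compl_mem_iff_notMem.2 fun h => hE (hK.2 h))
  refine ⟨h, hh, fun y hy E hE => ?_⟩
  have h1 := Set.mem_iInter₂.1 (hB y hy) E hE
  by_cases hE' : E ∈ rho ρ y
  · rw [if_pos hE'] at h1
    exact ⟨fun _ => hE', fun _ => h1⟩
  · rw [if_neg hE'] at h1
    exact ⟨fun h2 => absurd h2 h1, fun h2 => absurd h2 hE'⟩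

theorem recog [Nonempty Θ] [Finite Θ] {op : Θ → Θ} {T : V → V → Θ} {a : ℕ → Finset V}
    {u : Ultrafilter (V → V)} {pt : ℕ → V → ℕ} {π : ℕ → V → V} {C : ℕ → V → Set V}
    {ρ : ℕ → V → Ultrafilter V} (D : Dat op T a u pt π C ρ) {ι : Type} (U : Ultrafilter ι)
    (N : ι → Set (Pt V)) (hN : ∀ m, N m ⊆ Val u a pt) (hF : Full T (TW op T pt ρ) U N)
    {Y : Set (Pt V)} (hY : Y.Finite) (hv : Y ⊆ Val u a pt) {𝒞 : Set (Set V)} (h𝒞 : 𝒞.Finite) :
    ∀ᶠ m in (U : Filter ι), NX op T pt ρ 𝒞 Y (N m) := by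
  classical
  by_contra hcon
  rw [← Ultrafilter.eventually_not] at hcon
  set Bad : Set ι := {m | ¬ NX op T pt ρ 𝒞 Y (N m)} with hBad
  -- the sets are nonempty
  have hne : ∀ (Y' : Set V) (𝒟 : Set (Set V)), Y'.Finite → 𝒟.Finite →
      (GG14 op T u pt ρ N Bad Y' 𝒟).Nonempty := by
    intro Y' 𝒟 hY' h𝒟
    obtain ⟨m, ⟨f', hf', hfN⟩, hm⟩ := ((hF Y' hY').and hcon).exists
    obtain ⟨h, hh, hE⟩ := realize_th14 D (hY'.image f') (by
      rintro _ ⟨z, hz, rfl⟩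
      exact hN m (hfN z hz)) h𝒟
    refine ⟨fun z => h (f' z), hf'.comp hh fun z hz => ⟨z, hz, rfl⟩, m, hm, f', hf', ?_⟩
    intro z hz
    exact ⟨hfN z hz, fun E hE' => hE _ ⟨z, hz, rfl⟩ E hE'⟩
  -- the ultrafilter
  let F : Filter (V → V) := ⨅ p : Finset V × Finset (Set V),
    𝓟 (GG14 op T u pt ρ N Bad (p.1 : Set V) (p.2 : Set (Set V)))
  have hFne : F.NeBot := by
    refine Filter.iInf_neBot_of_directed' ?_ ?_
    · intro p p'
      refine ⟨(p.1 ∪ p'.1, p.2 ∪ p'.2), ?_, ?_⟩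
      · refine Filter.principal_mono.2 (GG14_mono ?_ ?_)
        · rw [Finset.coe_union]
          exact Set.subset_union_left
        · rw [Finset.coe_union]
          exact Set.subset_union_left
      · refine Filter.principal_mono.2 (GG14_mono ?_ ?_)
        · rw [Finset.coe_union]
          exact Set.subset_union_right
        · rw [Finset.coe_union]
          exact Set.subset_union_right
    · intro p
      exact Filter.principal_neBot_iff.2 (hne _ _ p.1.finite_toSet p.2.finite_toSet)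
  let v : Ultrafilter (V → V) := Ultrafilter.of F
  have hvG : ∀ (Y' : Set V) (𝒟 : Set (Set V)), Y'.Finite → 𝒟.Finite →
      ∀ᶠ g in (v : Filter (V → V)), g ∈ GG14 op T u pt ρ N Bad Y' 𝒟 := by
    intro Y' 𝒟 hY' h𝒟
    have h1 : F ≤ 𝓟 (GG14 op T u pt ρ N Bad Y' 𝒟) := by
      have h2 := iInf_le (fun p : Finset V × Finset (Set V) =>
        𝓟 (GG14 op T u pt ρ N Bad (p.1 : Set V) (p.2 : Set (Set V)))) (hY'.toFinset, h𝒟.toFinset)
      simpa using h2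
    exact Filter.le_principal_iff.1 ((Ultrafilter.of_le F).trans h1)
  have hvGE : GE T v := by
    intro A hA
    exact (hvG A ∅ hA Set.finite_empty).mono fun g hg => hg.1
  obtain ⟨q, hq, hqv⟩ := D.gen.mini v hvGE
  obtain ⟨k, hk, hkE⟩ := realize_th14 D hY hv h𝒞
  have hu : ∀ᶠ h in (u : Filter (V → V)), ∀ y ∈ Y, ∀ E ∈ 𝒞, (h (k y) ∈ E ↔ k y ∈ th u E) := by
    refine (Filter.eventually_all_finite hY).2 fun y _ => (Filter.eventually_all_finite h𝒞).2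
      fun E _ => ?_
    by_cases hE : k y ∈ th u E
    · have hE' : ∀ᶠ f in (u : Filter (V → V)), f (k y) ∈ E := hE
      exact hE'.mono fun f hf => ⟨fun _ => hE, fun _ => hf⟩
    · have hE' : ¬ ∀ᶠ f in (u : Filter (V → V)), f (k y) ∈ E := hE
      rw [← Ultrafilter.eventually_not] at hE'
      exact hE'.mono fun f hf => ⟨fun h => absurd h hf, fun h => absurd h hE⟩
  rw [hqv] at hu
  obtain ⟨f, hf1, hf2⟩ := (hu.and (hq (k '' Y) (hY.image k))).exists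
  obtain ⟨g, hg1, hg2, m, hm, f', hf', hfE⟩ :=
    (hf1.and (hvG (f '' (k '' Y)) 𝒞 ((hY.image k).image f) h𝒞)).exists
  apply hm
  refine ⟨fun y => f' (f (k y)), ?_, ?_⟩
  · have h1 := hk.comp hf2 (fun y hy => ⟨y, hy, rfl⟩)
    exact h1.comp hf' (fun y hy => ⟨k y, ⟨y, hy, rfl⟩, rfl⟩)
  · intro y hy
    have hmem : f (k y) ∈ f '' (k '' Y) := ⟨k y, ⟨y, hy, rfl⟩, rfl⟩
    refine ⟨(hfE _ hmem).1, fun E hE => ?_⟩
    show E ∈ rho ρ (f' (f (k y))) ↔ E ∈ rho ρ y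
    rw [← (hfE _ hmem).2 E hE, ← hkE y hy E hE]
    constructor
    · intro h
      have h' : ∀ᶠ h in (u : Filter (V → V)), h (g (f (k y))) ∈ E := h
      obtain ⟨h0, h1, h2⟩ := (h'.and hg1).exists
      exact (h2 y hy E hE).1 h1
    · intro h
      exact hg1.mono fun h0 h2 => (h2 y hy E hE).2 h

end Pool.Agent.Lib.MP_4fb322_lc_h7
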