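import Mathlib
import Pool.Agent.Lib.MP_4fb322_lc_h7.Defs
import Pool.Agent.Lib.MP_4fb322_lc_h7.R13

set_option autoImplicit false

/-!
# Row R15

A family of sets of valid points is full as soon as almost all `a n` embed in almost all its members. PROOF: `D.mini` applied to `W = Pt V`, `T' = TW op T pt ρ` (the first hypothesis is realize with `B = fun _ => univ`).
-/

namespace Pool.Agent.Lib.MP_4fb322_lc_h7

open Set Filter

variable {Θ V W X : Type}

theorem full_of [Nonempty Θ] [Finite Θ] {op : Θ → Θ} {T : V → V → Θ} {a : ℕ → Finset V}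
    {u : Ultrafilter (V → V)} {pt : ℕ → V → ℕ} {π : ℕ → V → V} {C : ℕ → V → Set V}
    {ρ : ℕ → V → Ultrafilter V} (D : Dat op T a u pt π C ρ) {ι : Type} (U : Ultrafilter ι)
    (N : ι → Set (Pt V)) (hN : ∀ m, N m ⊆ Val u a pt)
    (h : ∀ᶠ n in (UF : Filter ℕ), ∀ᶠ m in (U : Filter ι), ∃ f : V → Pt V,
      PE T (TW op T pt ρ) (a n : Set V) f ∧ ∀ x ∈ a n, f x ∈ N m) :
    Full T (TW op T pt ρ) U N := by
  refine D.mini ι (Pt V) U (TW op T pt ρ) N (fun m Y hY hYN => ?_) h
  obtain ⟨g, hg, -⟩ := realize D hY (hYN.trans (hN m)) (fun _ => Set.univ)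
    (fun _ _ => Filter.univ_mem)
  exact ⟨g, hg⟩

end Pool.Agent.Lib.MP_4fb322_lc_h7
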