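import Mathlib
import Pool.Agent.Lib.MP_4fb322_lc_h7.Defs
import Pool.Agent.Lib.MP_4fb322_lc_h7.R10
import Pool.Agent.Lib.MP_4fb322_lc_h7.R12
import Pool.Agent.Lib.MP_4fb322_lc_h7.R13

set_option autoImplicit false

/-!
# Row R16

NON SPLITTING, first half: a near embedding which splits a part gives a robust position with more parts. Here `F x = f (inr (l, n, x))`. Let `A = a n`. For `x ∈ part n i`: `F x = inl (q x)` (set `Y'`) or `F x = inr (l', j', x')` with `x' ∈ a j'`, `pt j' x' ≠ 0` (Val); `r x = rk` of it. Let `R` = the finset of the ranks `r x` of the nonpin images, `L = R.card + 1`, `e x` = the number of elements of `R` smaller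
than `r x` (`e x = 0` for pin images; so `e x < L`, `e x < e y ↔ r x < r y`, `e x = e y ↔ r x = r y`). New data: `pt' x = 0` if `x ∈ Y'` or `pt x = 0`; `pt' x = i * (L+1) + e x` for the other `x ∈ part i`; `pt' x = pt x * (L+1)` otherwise. `π' = q` on `Y'`, otherwise `π n`. For `x ∈ part i \ Y'`, `C' x = C n x ∩ {b | ∀ y ∈ Y', T (q y) b = T y x ∧ b ≠ q y} ∩` (the finite intersection over the
`y ∈ part i \ Y'` with `r y ≠ r x` of the sets `B ∈ rho (F x)` given by `D.gpos.gen` for the pieces of `x` and `y`: these are different pieces `(j', i')` because `N` is simple: Simp; Cst in both orders is monotone: `Cst.mono` or directly); for the other nonpins `C' y = C n y ∩ {b | ∀ x ∈ Y', b ≠ q x}`. ROBUST: pin: `q x ∈ PN` (F x is a valid pin). pinj: `π x ≠ q y` by `pinQ` for the position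
`pure (q y)` of `y` (near: hC; it is in KK by pure_mem_KK), `q` injective since `f` is. pinT: pinQ (limit along `pure`), opT; for two new pins: `TW (inl p) (inl q) = T p q` and `f` preserves. pinQ: old pins by monotonicity; new pin `x`, `y ∈ part i \ Y'`: definition of `C'`; new pin `x`, `y` in another part: cross with the position `pure (q x)` (as in R10). cross and crossS between different old
parts: monotonicity (`C' ⊆ C n`) and `pt'` is order preserving; between new parts `e x < e y`: the constant of `Cst (B_x) (B_y)` is its value at `(rho (F x), rho (F y))`, which is `TW (F x) (F y)` (TW_lt) `= TW x y = T x y` (TW_same); crossS: the other Cst. pos: for the new part `e`: `v x = rho (F x)`: KK by rho_mem_KK, second condition by realize for the set `F '' ..` (compose);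
`C' x ∈ rho (F x)`: hC, `T (q y) b = T y x` for almost all `b` because `lim (rho (F x)) (T (q y)) = TW (inl (q y)) (F x) = T y x`; nonprincipal (np). For an old part `k ≠ i`: `(D.mrob n).rob.pos k`, finite sets removed; values of `i'` which are not of these forms: empty part, `v` arbitrary (e.g. any). (About 300 lines; split it into private lemmas, one for each field.)
-/

namespace Pool.Agent.Lib.MP_4fb322_lc_h7

open Set Filter

variable {Θ V W X : Type}

private theorem lim_pure16 [Nonempty Θ] [Finite Θ] (p : V) (g : V → Θ) :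
    lim (pure p : Ultrafilter V) g = g p := lim_eq (by simp)

private theorem np_mem16 {v : Ultrafilter V} {p : V} (h : v ≠ pure p) :
    ∀ᶠ b in (v : Filter V), b ≠ p := by
  by_contra hc
  rw [← Ultrafilter.eventually_not] at hc
  apply h
  have h1 : ({p} : Set V) ∈ (v : Filter V) := by
    filter_upwards [hc] with b hb
    simpa using hb
  have h2 : (v : Filter V) ≤ (pure p : Ultrafilter V) := by
    rw [Ultrafilter.coe_pure, Filter.le_pure_iff]
    exact h1
  exact Ultrafilter.coe_le_coe.1 h2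

private theorem ne_pure16 {v : Ultrafilter V} {p : V} (h : ∀ᶠ b in (v : Filter V), b ≠ p) :
    v ≠ pure p := by
  rintro rfl
  simp at h

private theorem card16 {α : Type} [LinearOrder α] (R : Finset α) {s t : α} (hs : s ∈ R)
    (h : s < t) : (R.filter (fun z => z < s)).card < (R.filter (fun z => z < t)).card := by
  apply Finset.card_lt_card
  rw [Finset.ssubset_iff_of_subset]
  · exact ⟨s, by simp [hs, h], by simp⟩
  · intro z hz
    simp only [Finset.mem_filter] at hz ⊢
    exact ⟨hz.1, hz.2.trans h⟩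

private theorem arith16 {k k' L e e' : ℕ} (he : e < L) (he' : e' < L)
    (h : k * (L + 1) + e < k' * (L + 1) + e') : k < k' ∨ (k = k' ∧ e < e') := by
  rcases lt_trichotomy k k' with h1 | h1 | h1
  · exact Or.inl h1
  · subst h1
    exact Or.inr ⟨rfl, by omega⟩
  · exfalso
    have : (k' + 1) * (L + 1) ≤ k * (L + 1) := Nat.mul_le_mul_right _ h1
    have h3 : (k' + 1) * (L + 1) = k' * (L + 1) + (L + 1) := by ring
    omega

private theorem arith16' {k k' L e e' : ℕ} (he : e < L) (he' : e' < L)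
    (h : k * (L + 1) + e = k' * (L + 1) + e') : k = k' ∧ e = e' := by
  rcases lt_trichotomy k k' with h1 | h1 | h1
  · exfalso
    have : (k + 1) * (L + 1) ≤ k' * (L + 1) := Nat.mul_le_mul_right _ h1
    have h3 : (k + 1) * (L + 1) = k * (L + 1) + (L + 1) := by ring
    omega
  · subst h1
    exact ⟨rfl, by omega⟩
  · exfalso
    have : (k' + 1) * (L + 1) ≤ k * (L + 1) := Nat.mul_le_mul_right _ h1
    have h3 : (k' + 1) * (L + 1) = k' * (L + 1) + (L + 1) := by ring
    omega

theorem split_rob [Nonempty Θ] [Finite Θ] {op : Θ → Θ} {T : V → V → Θ} {a : ℕ → Finset V}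
    {u : Ultrafilter (V → V)} {pt : ℕ → V → ℕ} {π : ℕ → V → V} {C : ℕ → V → Set V}
    {ρ : ℕ → V → Ultrafilter V} (D : Dat op T a u pt π C ρ) {n i l : ℕ} (hi : 0 < i)
    {N : Set (Pt V)} (hN : N ⊆ Val u a pt) (hs : Simp pt N) {f : Pt V → Pt V}
    (hf : PE (TW op T pt ρ) (TW op T pt ρ) (blk a pt l n {i}) f)
    (hm : ∀ y ∈ blk a pt l n {i}, f y ∈ N)
    (hC : ∀ x ∈ part a pt n i, C n x ∈ rho ρ (f (Sum.inr (l, n, x)))) :
    ∃ (L : ℕ) (e : V → ℕ) (pt' : V → ℕ) (π' : V → V) (C' : V → Set V),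
      Rob T u (a n) pt' π' C' ∧
      (∀ x ∈ part a pt n i, e x < L) ∧
      (∀ x ∈ part a pt n i, (∃ p, f (Sum.inr (l, n, x)) = Sum.inl p) → pt' x = 0) ∧
      (∀ x ∈ part a pt n i, (¬ ∃ p, f (Sum.inr (l, n, x)) = Sum.inl p) →
        pt' x = i * (L + 1) + e x) ∧
      (∀ x ∈ a n, pt n x ≠ i → pt' x = pt n x * (L + 1)) ∧
      (∀ x ∈ part a pt n i, ∀ y ∈ part a pt n i, ∀ z z', f (Sum.inr (l, n, x)) = Sum.inr z →
        f (Sum.inr (l, n, y)) = Sum.inr z' → (e x = e y ↔ rk pt z = rk pt z')) := by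
  classical
  obtain ⟨F, hF⟩ : ∃ F : V → Pt V, ∀ x, F x = f (Sum.inr (l, n, x)) := ⟨_, fun _ => rfl⟩
  have hfin : (part a pt n i).Finite := (Finset.finite_toSet (a n)).subset fun x hx => hx.1
  have hblk : ∀ x ∈ part a pt n i, Sum.inr (l, n, x) ∈ blk a pt l n {i} := by
    rintro x ⟨hx, hx'⟩
    exact ⟨x, hx, by omega, by simp [hx'], rfl⟩
  have hFN : ∀ x ∈ part a pt n i, F x ∈ N := fun x hx => by
    rw [hF]; exact hm _ (hblk x hx)
  have hFV : ∀ x ∈ part a pt n i, F x ∈ Val u a pt := fun x hx => hN (hFN x hx)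
  have hFinj : ∀ x ∈ part a pt n i, ∀ y ∈ part a pt n i, F x = F y → x = y := by
    intro x hx y hy h
    rw [hF, hF] at h
    have := hf.1 (hblk x hx) (hblk y hy) h
    simpa using this
  have hFT : ∀ x ∈ part a pt n i, ∀ y ∈ part a pt n i, TW op T pt ρ (F x) (F y) = T x y := by
    intro x hx y hy
    rw [hF, hF, hf.2 _ (hblk x hx) _ (hblk y hy), TW_same]
    simp [rk, hx.2, hy.2]
  have hFC : ∀ x ∈ part a pt n i, C n x ∈ rho ρ (F x) := fun x hx => by
    rw [hF]; exact hC x hx
  simp only [← hF]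
  have hrob := (D.mrob n).rob
  have hopT := D.opT
  -- images
  obtain ⟨q, hq⟩ : ∃ q : V → V, ∀ x p, F x = Sum.inl p → q x = p :=
    ⟨fun x => Sum.elim (fun p => p) (fun _ => x) (F x), fun x p h => by simp [h]⟩
  obtain ⟨r, hr⟩ : ∃ r : V → ℕ ×ₗ ℕ ×ₗ ℕ, ∀ x z, F x = Sum.inr z → r x = rk pt z :=
    ⟨fun x => Sum.elim (fun _ => toLex (0, toLex (0, 0))) (fun z => rk pt z) (F x),
      fun x z h => by simp [h]⟩
  obtain ⟨P, hP⟩ : ∃ P : V → Prop, ∀ x, P x ↔ ∃ p, F x = Sum.inl p := ⟨_, fun _ => Iff.rfl⟩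
  have hPq : ∀ x, P x → F x = Sum.inl (q x) := by
    intro x hx
    obtain ⟨p, hp⟩ := (hP x).1 hx
    rw [hq x p hp, hp]
  have hPn : ∀ x, ¬ P x → ∃ z, F x = Sum.inr z ∧ r x = rk pt z := by
    intro x hx
    rcases h : F x with p | z
    · exact absurd ((hP x).2 ⟨p, h⟩) hx
    · exact ⟨z, rfl, hr x z h⟩
  have hqPN : ∀ x ∈ part a pt n i, P x → q x ∈ PN u := by
    intro x hx hx'
    have h1 := hFV x hx
    rw [hPq x hx'] at h1
    rcases h1 with ⟨p, hp, hp'⟩ | ⟨_, _, _, _, _, h⟩
    · have : q x = p := by simpa using hp'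
      rwa [this]
    · simp at h
  have hqC : ∀ x ∈ part a pt n i, P x → C n x ∈ (pure (q x) : Ultrafilter V) := by
    intro x hx hx'
    have h1 := hFC x hx
    rw [hPq x hx'] at h1
    exact h1
  have hqK : ∀ x ∈ part a pt n i, P x → (pure (q x) : Ultrafilter V) ∈ KK u := fun x hx hx' =>
    pure_mem_KK.2 (hqPN x hx hx')
  have hval : ∀ x ∈ part a pt n i, ∀ z, F x = Sum.inr z → z.2.2 ∈ a z.2.1 ∧ pt z.2.1 z.2.2 ≠ 0 := by
    intro x hx z hz
    have h1 := hFV x hx
    rw [hz] at h1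
    rcases h1 with ⟨p, hp, hp'⟩ | ⟨l', j, x', h1, h2, h3⟩
    · simp at hp'
    · have h4 : z = (l', j, x') := by simpa using h3
      subst h4
      exact ⟨h1, h2⟩
  have hnp : ∀ x ∈ part a pt n i, ¬ P x → ∀ p, rho ρ (F x) ≠ pure p := by
    intro x hx hx' p
    obtain ⟨z, hz, -⟩ := hPn x hx'
    rw [hz]
    have h1 := hval x hx z hz
    exact np D h1.1 h1.2 p
  -- ranks
  obtain ⟨R, hR⟩ : ∃ R : Finset (ℕ ×ₗ ℕ ×ₗ ℕ), ∀ x ∈ part a pt n i, ¬ P x → r x ∈ R := by
    refine ⟨(a n).image r, fun x hx _ => Finset.mem_image_of_mem r hx.1⟩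
  obtain ⟨e, he⟩ : ∃ e : V → ℕ, ∀ x, e x = if P x then 0 else (R.filter (fun z => z < r x)).card :=
    ⟨_, fun _ => rfl⟩
  have heL : ∀ x, e x < R.card + 1 := by
    intro x
    rw [he]
    split_ifs
    · omega
    · exact Nat.lt_succ_of_le (Finset.card_filter_le _ _)
  have hlt : ∀ x ∈ part a pt n i, ¬ P x → ∀ y, ¬ P y → r x < r y → e x < e y := by
    intro x hx hx' y hy' h
    rw [he, he, if_neg hx', if_neg hy']
    exact card16 R (hR x hx hx') h
  have hlt' : ∀ x ∈ part a pt n i, ¬ P x → ∀ y ∈ part a pt n i, ¬ P y → e x < e y → r x < r y := by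
    intro x hx hx' y hy hy' h
    rcases lt_trichotomy (r x) (r y) with h1 | h1 | h1
    · exact h1
    · exfalso
      rw [he, he, if_neg hx', if_neg hy', h1] at h
      exact lt_irrefl _ h
    · exact absurd (hlt y hy hy' x hx' h1) (by omega)
  have heq : ∀ x ∈ part a pt n i, ¬ P x → ∀ y ∈ part a pt n i, ¬ P y → (e x = e y ↔ r x = r y) := by
    intro x hx hx' y hy hy'
    constructor
    · intro h
      rcases lt_trichotomy (r x) (r y) with h1 | h1 | h1
      · exact absurd (hlt x hx hx' y hy' h1) (by omega)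
      · exact h1
      · exact absurd (hlt y hy hy' x hx' h1) (by omega)
    · intro h
      rw [he, he, if_neg hx', if_neg hy', h]
  obtain ⟨L, hL⟩ : ∃ L, L = R.card + 1 := ⟨_, rfl⟩
  rw [← hL] at heL
  -- the sets B
  have hBex : ∀ x y, ∃ B B' : Set V, x ∈ part a pt n i → y ∈ part a pt n i → ¬ P x → ¬ P y →
      r x ≠ r y → (B ∈ rho ρ (F x) ∧ B' ∈ rho ρ (F y) ∧ Cst T u B B' ∧ Cst T u B' B) := by
    intro x y
    by_cases h : x ∈ part a pt n i ∧ y ∈ part a pt n i ∧ ¬ P x ∧ ¬ P y ∧ r x ≠ r y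
    · obtain ⟨hx, hy, hx', hy', hxy⟩ := h
      obtain ⟨z, hz, hrz⟩ := hPn x hx'
      obtain ⟨z', hz', hrz'⟩ := hPn y hy'
      have h1 := hval x hx z hz
      have h2 := hval y hy z' hz'
      have h3 : (z.2.1, pt z.2.1 z.2.2) ≠ (z'.2.1, pt z'.2.1 z'.2.2) := by
        intro h3
        obtain ⟨l1, j1, x1⟩ := z
        obtain ⟨l2, j2, x2⟩ := z'
        simp only [Prod.mk.injEq] at h3
        obtain ⟨h3, h4⟩ := h3
        subst h3
        have h5 := hFN x hx
        have h6 := hFN y hy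
        rw [hz] at h5
        rw [hz'] at h6
        have h7 := hs l1 l2 j1 x1 x2 h5 h6 h4
        apply hxy
        rw [hrz, hrz']
        simp [rk, h7, h4]
      obtain ⟨B, hB, B', hB', hc⟩ := D.gpos.gen z.2.1 (pt z.2.1 z.2.2) z'.2.1 (pt z'.2.1 z'.2.2)
        (Nat.pos_of_ne_zero h1.2) (Nat.pos_of_ne_zero h2.2) h3 z.2.2 ⟨h1.1, rfl⟩ z'.2.2 ⟨h2.1, rfl⟩
      refine ⟨B, B', fun _ _ _ _ _ => ⟨?_, ?_, hc⟩⟩
      · rw [hz]; exact hB
      · rw [hz']; exact hB'
    · exact ⟨∅, ∅, fun h1 h2 h3 h4 h5 => absurd ⟨h1, h2, h3, h4, h5⟩ h⟩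
  choose B1 B2 hB using hBex
  -- the new data
  obtain ⟨pt', hpt'⟩ : ∃ pt' : V → ℕ, ∀ x, pt' x = if pt n x = i then
      (if P x then 0 else i * (L + 1) + e x) else pt n x * (L + 1) := ⟨_, fun _ => rfl⟩
  obtain ⟨π', hπ'⟩ : ∃ π' : V → V, ∀ x, π' x = if pt n x = i then q x else π n x :=
    ⟨_, fun _ => rfl⟩
  obtain ⟨C', hC'⟩ : ∃ C' : V → Set V, ∀ x, C' x = if pt n x = i then
      C n x ∩ ({b | ∀ y ∈ part a pt n i, P y → T (q y) b = T y x ∧ b ≠ q y} ∩
        {b | ∀ y ∈ part a pt n i, ¬ P y → r x ≠ r y → b ∈ B1 x y ∧ b ∈ B2 y x})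
      else C n x ∩ {b | ∀ y ∈ part a pt n i, P y → b ≠ q y} := ⟨_, fun _ => rfl⟩
  have hCsub : ∀ x, C' x ⊆ C n x := by
    intro x
    rw [hC']
    split_ifs
    · exact inter_subset_left
    · exact inter_subset_left
  have hCq : ∀ x, ∀ b ∈ C' x, ∀ y ∈ part a pt n i, P y → b ≠ q y := by
    intro x b hb y hy hy'
    rw [hC'] at hb
    split_ifs at hb
    · exact (hb.2.1 y hy hy').2
    · exact hb.2 y hy hy'
  have hpin : ∀ x ∈ a n, pt' x = 0 → (x ∈ part a pt n i ∧ P x) ∨ (pt n x = 0 ∧ pt n x ≠ i) := by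
    intro x hx h
    rw [hpt'] at h
    split_ifs at h with h1 h2
    · exact Or.inl ⟨⟨hx, h1⟩, h2⟩
    · exfalso
      have : 0 < i * (L + 1) := Nat.mul_pos hi (Nat.succ_pos L)
      omega
    · right
      rcases Nat.mul_eq_zero.1 h with h | h
      · exact ⟨h, h1⟩
      · omega
  have hnpin : ∀ x ∈ a n, pt' x ≠ 0 → (x ∈ part a pt n i ∧ ¬ P x) ∨ (pt n x ≠ 0 ∧ pt n x ≠ i) := by
    intro x hx h
    rw [hpt'] at h
    split_ifs at h with h1 h2
    · exact absurd rfl h
    · exact Or.inl ⟨⟨hx, h1⟩, h2⟩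
    · right
      refine ⟨fun h0 => h ?_, h1⟩
      rw [h0, Nat.zero_mul]
  have hform : ∀ x ∈ a n, pt' x ≠ 0 → pt n x ≠ 0 ∧ ∃ e' < L, pt' x = pt n x * (L + 1) + e' ∧
      (pt n x = i → e' = e x) ∧ (pt n x ≠ i → e' = 0) := by
    intro x hx h
    rcases hnpin x hx h with ⟨h1, h2⟩ | ⟨h1, h2⟩
    · refine ⟨by rw [h1.2]; omega, e x, heL x, ?_, fun _ => rfl, fun h3 => absurd h1.2 h3⟩
      rw [hpt', if_pos h1.2, if_neg h2, h1.2]
    · refine ⟨h1, 0, by rw [hL]; omega, ?_, fun h3 => absurd h3 h2, fun _ => rfl⟩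
      rw [hpt', if_neg h2]
      exact (Nat.add_zero _).symm
  have horder : ∀ x ∈ a n, ∀ y ∈ a n, 0 < pt' x → pt' x < pt' y →
      (0 < pt n x ∧ pt n x < pt n y) ∨
      (x ∈ part a pt n i ∧ y ∈ part a pt n i ∧ ¬ P x ∧ ¬ P y ∧ e x < e y) := by
    intro x hx y hy h0 h
    obtain ⟨hx0, e1, he1, hx1, hx2, hx3⟩ := hform x hx (by omega)
    obtain ⟨hy0, e2, he2, hy1, hy2, hy3⟩ := hform y hy (by omega)
    rw [hx1, hy1] at h
    rcases arith16 he1 he2 h with h1 | ⟨h1, h2⟩
    · exact Or.inl ⟨by omega, h1⟩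
    · right
      by_cases hxi : pt n x = i
      · have hyi : pt n y = i := by omega
        rcases hnpin x hx (by omega) with ⟨h3, h4⟩ | ⟨h3, h4⟩
        · rcases hnpin y hy (by omega) with ⟨h5, h6⟩ | ⟨h5, h6⟩
          · exact ⟨h3, h5, h4, h6, by rw [← hx2 hxi, ← hy2 hyi]; exact h2⟩
          · exact absurd hyi h6
        · exact absurd hxi h4
      · have := hx3 hxi
        have := hy3 (by omega)
        omega
  have hsame : ∀ x ∈ a n, ∀ y ∈ a n, 0 < pt' x → pt' x = pt' y → pt n x = pt n y := by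
    intro x hx y hy h0 h
    obtain ⟨hx0, e1, he1, hx1, hx2, hx3⟩ := hform x hx (by omega)
    obtain ⟨hy0, e2, he2, hy1, hy2, hy3⟩ := hform y hy (by omega)
    rw [hx1, hy1] at h
    exact (arith16' he1 he2 h).1
  -- Cst for new parts
  have hcst : ∀ x ∈ part a pt n i, ∀ y ∈ part a pt n i, ¬ P x → ¬ P y → r x ≠ r y →
      ∀ v : Ultrafilter V, ∀ w : Ultrafilter V, C' x ∈ v → C' y ∈ w →
        B1 x y ∈ v ∧ B2 x y ∈ w := by
    intro x hx y hy hx' hy' hxy v w hv hw
    constructor
    · refine Filter.mem_of_superset hv fun b hb => ?_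
      rw [hC', if_pos hx.2] at hb
      exact (hb.2.2 y hy hy' hxy).1
    · refine Filter.mem_of_superset hw fun b hb => ?_
      rw [hC', if_pos hy.2] at hb
      exact (hb.2.2 x hx hx' (Ne.symm hxy)).2
  have hrobust : Rob T u (a n) pt' π' C' := by
    refine ⟨?_, ?_, ?_, ?_, ?_, ?_, ?_⟩
    · -- pin
      intro x hx h
      rcases hpin x hx h with ⟨h1, h2⟩ | ⟨h1, h2⟩
      · rw [hπ', if_pos h1.2]
        exact hqPN x h1 h2
      · rw [hπ', if_neg h2]
        exact hrob.pin x hx h1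
    · -- pinj
      intro x hx y hy h h' hxy
      rw [hπ', hπ'] at hxy
      rcases hpin x hx h with ⟨h1, h2⟩ | ⟨h1, h2⟩ <;> rcases hpin y hy h' with ⟨h3, h4⟩ | ⟨h3, h4⟩
      · rw [if_pos h1.2, if_pos h3.2] at hxy
        apply hFinj x h1 y h3
        rw [hPq x h2, hPq y h4, hxy]
      · rw [if_pos h1.2, if_neg h4] at hxy
        exfalso
        have := (hrob.pinQ y hy x hx h3 (by rw [h1.2]; omega) _ (hqK x h1 h2) (hqC x h1 h2)).2
        exact this (by rw [hxy])
      · rw [if_neg h2, if_pos h3.2] at hxy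
        exfalso
        have := (hrob.pinQ x hx y hy h1 (by rw [h3.2]; omega) _ (hqK y h3 h4) (hqC y h3 h4)).2
        exact this (by rw [hxy])
      · rw [if_neg h2, if_neg h4] at hxy
        exact hrob.pinj x hx y hy h1 h3 hxy
    · -- pinT
      intro x hx y hy h h'
      rw [hπ', hπ']
      rcases hpin x hx h with ⟨h1, h2⟩ | ⟨h1, h2⟩ <;> rcases hpin y hy h' with ⟨h3, h4⟩ | ⟨h3, h4⟩
      · rw [if_pos h1.2, if_pos h3.2, ← hFT x h1 y h3, hPq x h2, hPq y h4]
        rfl
      · rw [if_pos h1.2, if_neg h4]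
        have := (hrob.pinQ y hy x hx h3 (by rw [h1.2]; omega) _ (hqK x h1 h2) (hqC x h1 h2)).1
        rw [lim_pure16] at this
        rw [hopT (π n y) (q x), this, ← hopT]
      · rw [if_neg h2, if_pos h3.2]
        have := (hrob.pinQ x hx y hy h1 (by rw [h3.2]; omega) _ (hqK y h3 h4) (hqC y h3 h4)).1
        rwa [lim_pure16] at this
      · rw [if_neg h2, if_neg h4]
        exact hrob.pinT x hx y hy h1 h3
    · -- pinQ
      intro x hx y hy h h' v hv hCv
      have hCv' : C n y ∈ v := Filter.mem_of_superset hCv (hCsub y)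
      rw [hπ']
      rcases hpin x hx h with ⟨h1, h2⟩ | ⟨h1, h2⟩
      · rw [if_pos h1.2]
        refine ⟨?_, ne_pure16 (Filter.mem_of_superset hCv fun b hb => hCq y b hb x h1 h2)⟩
        rcases hnpin y hy h' with ⟨h3, h4⟩ | ⟨h3, h4⟩
        · apply lim_eq
          refine Filter.mem_of_superset hCv fun b hb => ?_
          rw [hC', if_pos h3.2] at hb
          exact (hb.2.1 x h1 h2).1
        · have hxi := h1.2
          rcases lt_or_gt_of_ne h4 with h5 | h5
          · have h6 := hrob.cross y hy x hx (by omega) (by omega) v hv _ (hqK x h1 h2) hCv'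
              (hqC x h1 h2)
            unfold QQ at h6
            simp only [lim_pure16] at h6
            rw [lim_eq_iff] at h6
            apply lim_eq
            filter_upwards [h6] with b hb
            rw [hopT b (q x), hb, ← hopT]
          · have h6 := hrob.cross x hx y hy (by omega) (by omega) _ (hqK x h1 h2) v hv
              (hqC x h1 h2) hCv'
            unfold QQ at h6
            rwa [lim_pure16] at h6
      · rw [if_neg h2]
        refine hrob.pinQ x hx y hy h1 ?_ v hv hCv'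
        rcases hnpin y hy h' with ⟨h3, h4⟩ | ⟨h3, h4⟩
        · rw [h3.2]; omega
        · exact h3
    · -- cross
      intro x hx y hy h h' v hv w hw hCv hCw
      rcases horder x hx y hy h h' with ⟨h1, h2⟩ | ⟨h1, h2, h3, h4, h5⟩
      · exact hrob.cross x hx y hy h1 h2 v hv w hw (Filter.mem_of_superset hCv (hCsub x))
          (Filter.mem_of_superset hCw (hCsub y))
      · have h6 := hlt' x h1 h3 y h2 h4 h5
        obtain ⟨hb1, hb2, ⟨θ, hθ⟩, -⟩ := hB x y h1 h2 h3 h4 h6.ne
        obtain ⟨hb3, hb4⟩ := hcst x h1 y h2 h3 h4 h6.ne v w hCv hCw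
        rw [hθ v hv w hw hb3 hb4,
          ← hθ _ (rho_mem_KK D (hFV x h1)) _ (rho_mem_KK D (hFV y h2)) hb1 hb2]
        obtain ⟨z, hz, hrz⟩ := hPn x h3
        obtain ⟨z', hz', hrz'⟩ := hPn y h4
        rw [hrz, hrz'] at h6
        rw [← hFT x h1 y h2, hz, hz', TW_lt h6]
        rfl
    · -- crossS
      intro x hx y hy h h'
      rcases horder x hx y hy h h' with ⟨h1, h2⟩ | ⟨h1, h2, h3, h4, h5⟩
      · obtain ⟨θ, hθ⟩ := hrob.crossS x hx y hy h1 h2
        exact ⟨θ, fun v hv w hw hCv hCw => hθ v hv w hw (Filter.mem_of_superset hCv (hCsub x))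
          (Filter.mem_of_superset hCw (hCsub y))⟩
      · have h6 := hlt' x h1 h3 y h2 h4 h5
        obtain ⟨hb1, hb2, -, ⟨θ, hθ⟩⟩ := hB x y h1 h2 h3 h4 h6.ne
        refine ⟨θ, fun v hv w hw hCv hCw => ?_⟩
        obtain ⟨hb3, hb4⟩ := hcst x h1 y h2 h3 h4 h6.ne v w hCv hCw
        exact hθ w hw v hv hb4 hb3
    · -- pos
      intro i' hi'
      by_cases hne : ∃ x ∈ a n, pt' x = i'
      swap
      · refine ⟨fun x => pure x, ⟨?_, ?_⟩, ?_⟩
        · rintro x ⟨hx, hx'⟩
          exact absurd ⟨x, hx, hx'⟩ hne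
        · intro B _
          refine ⟨fun x => x, ⟨?_, ?_⟩, ?_⟩
          · rintro x ⟨hx, hx'⟩
            exact absurd ⟨x, hx, hx'⟩ hne
          · rintro x ⟨hx, hx'⟩
            exact absurd ⟨x, hx, hx'⟩ hne
          · rintro x ⟨hx, hx'⟩
            exact absurd ⟨x, hx, hx'⟩ hne
        · intro x hx hx'
          exact absurd ⟨x, hx, hx'⟩ hne
      obtain ⟨x₀, hx₀, hx₀'⟩ := hne
      rcases hnpin x₀ hx₀ (by omega) with ⟨h1, h2⟩ | ⟨h1, h2⟩
      · -- new part
        have hall : ∀ y ∈ a n, pt' y = i' → y ∈ part a pt n i ∧ ¬ P y := by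
          intro y hy hy'
          have h3 := hsame x₀ hx₀ y hy (by omega) (by omega)
          rcases hnpin y hy (by omega) with h4 | ⟨h4, h5⟩
          · exact h4
          · exact absurd (h3.symm.trans h1.2) h5
        refine ⟨fun y => rho ρ (F y), ⟨?_, ?_⟩, ?_⟩
        · rintro y ⟨hy, hy'⟩
          exact rho_mem_KK D (hFV y (hall y hy hy').1)
        · intro B hBm
          have hS : {x | x ∈ a n ∧ pt' x = i'}.Finite :=
            (Finset.finite_toSet (a n)).subset fun x hx => hx.1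
          obtain ⟨h, hh1, hh2⟩ := realize D (Y := F '' {x | x ∈ a n ∧ pt' x = i'}) (hS.image F)
            (by
              rintro _ ⟨y, ⟨hy, hy'⟩, rfl⟩
              exact hFV y (hall y hy hy').1)
            (fun z => {b | ∀ y ∈ {x | x ∈ a n ∧ pt' x = i'}, F y = z → b ∈ B y})
            (by
              rintro _ ⟨y, hy, rfl⟩
              have hy2 := (hall y hy.1 hy.2).1
              refine Filter.mem_of_superset (hBm y hy) fun b hb y' hy' hF' => ?_
              have : y' = y := hFinj y' (hall y' hy'.1 hy'.2).1 y hy2 hF'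
              rwa [this])
          refine ⟨fun y => h (F y), ⟨?_, ?_⟩, ?_⟩
          · intro x hx y hy hxy
            exact hFinj x (hall x hx.1 hx.2).1 y (hall y hy.1 hy.2).1
              (hh1.1 (mem_image_of_mem F hx) (mem_image_of_mem F hy) hxy)
          · intro x hx y hy
            rw [hh1.2 _ (mem_image_of_mem F hx) _ (mem_image_of_mem F hy)]
            exact hFT x (hall x hx.1 hx.2).1 y (hall y hy.1 hy.2).1
          · intro x hx
            exact hh2 _ (mem_image_of_mem F hx) x hx rfl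
        · intro y hy hy'
          obtain ⟨h3, h4⟩ := hall y hy hy'
          refine ⟨?_, hnp y h3 h4⟩
          rw [hC', if_pos h3.2]
          refine Filter.inter_mem (hFC y h3) (Filter.inter_mem ?_ ?_)
          · change ∀ᶠ b in (rho ρ (F y) : Filter V), ∀ y' ∈ part a pt n i, P y' →
              T (q y') b = T y' y ∧ b ≠ q y'
            rw [Filter.eventually_all_finite hfin]
            intro y' h5
            by_cases h6 : P y'
            · have h7 : ∀ᶠ b in (rho ρ (F y) : Filter V), T (q y') b = T y' y := by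
                rw [← lim_eq_iff, ← hFT y' h5 y h3, hPq y' h6]
                obtain ⟨z, hz, -⟩ := hPn y h4
                rw [hz]
                rfl
              filter_upwards [h7, np_mem16 (hnp y h3 h4 (q y'))] with b h8 h9 _
              exact ⟨h8, h9⟩
            · exact Filter.Eventually.of_forall fun b h7 => absurd h7 h6
          · change ∀ᶠ b in (rho ρ (F y) : Filter V), ∀ y' ∈ part a pt n i, ¬ P y' →
              r y ≠ r y' → b ∈ B1 y y' ∧ b ∈ B2 y' y
            rw [Filter.eventually_all_finite hfin]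
            intro y' h5
            by_cases h6 : ¬ P y' ∧ r y ≠ r y'
            · have h7 := (hB y y' h3 h5 h4 h6.1 h6.2).1
              have h8 := (hB y' y h5 h3 h6.1 h4 (Ne.symm h6.2)).2.1
              have h9 : ∀ᶠ b in (rho ρ (F y) : Filter V), b ∈ B1 y y' := h7
              have h10 : ∀ᶠ b in (rho ρ (F y) : Filter V), b ∈ B2 y' y := h8
              filter_upwards [h9, h10] with b h11 h12 _ _
              exact ⟨h11, h12⟩
            · exact Filter.Eventually.of_forall fun b h7 h8 => absurd ⟨h7, h8⟩ h6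
      · -- old part
        have hall : ∀ y ∈ a n, pt' y = i' → pt n y = pt n x₀ := by
          intro y hy hy'
          exact (hsame x₀ hx₀ y hy (by omega) (by omega)).symm
        obtain ⟨v, hv1, hv2⟩ := hrob.pos (pt n x₀) (Nat.pos_of_ne_zero h1)
        refine ⟨v, pos_mono hv1 fun y hy => ⟨hy.1, hall y hy.1 hy.2⟩, fun y hy hy' => ?_⟩
        have h3 := hall y hy hy'
        obtain ⟨h4, h5⟩ := hv2 y hy h3
        refine ⟨?_, h5⟩
        rw [hC', if_neg (by rw [h3]; exact h2)]
        refine Filter.inter_mem h4 ?_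
        change ∀ᶠ b in (v y : Filter V), ∀ y' ∈ part a pt n i, P y' → b ≠ q y'
        rw [Filter.eventually_all_finite hfin]
        intro y' _
        filter_upwards [np_mem16 (h5 (q y'))] with b h8 _
        exact h8
  refine ⟨L, e, pt', π', C', hrobust, fun x _ => heL x, ?_, ?_, ?_, ?_⟩
  · intro x hx h
    rw [hpt', if_pos hx.2, if_pos ((hP x).2 h)]
  · intro x hx h
    rw [hpt', if_pos hx.2, if_neg fun h' => h ((hP x).1 h')]
  · intro x hx h
    rw [hpt', if_neg h]
  · intro x hx y hy z z' hz hz'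
    have h1 : ¬ P x := fun h => by
      rw [hPq x h] at hz
      simp at hz
    have h2 : ¬ P y := fun h => by
      rw [hPq y h] at hz'
      simp at hz'
    rw [heq x hx h1 y hy h2, hr x z hz, hr y z' hz']

end Pool.Agent.Lib.MP_4fb322_lc_h7
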