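import Mathlib
import Pool.Agent.Lib.MP_4fb322_lc_h7.Defs
import Pool.Agent.Lib.MP_4fb322_lc_h7.R10
import Pool.Agent.Lib.MP_4fb322_lc_h7.R12
import Pool.Agent.Lib.MP_4fb322_lc_h7.R16

set_option autoImplicit false

/-!
# Row R17

NON SPLITTING. PROOF. Apply split_rob. First: no point of the part goes to a pin, or the part has at least two new parts. Counting: zeros of `pt'` = zeros of `pt n` plus the number `s` of points of the part `i` with pin image; nonzero values of `pt'` = the values `pt n x * (L+1)` for the other nonzero parts (injective) and the values `i * (L+1) + e x` (different from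
the former: `e x < L`), `t` different values. So `npt (a n) pt' = npt (a n) (pt n) - 1 + s + t` (the part `i` is nonempty, otherwise the statement is trivial), and by `(D.mrob n).max`: `s + t ≤ 1`. `s + t ≥ 1` as the part is nonempty. If `s = 1, t = 0`: the part is one point `x` with `f x = inl p`, and `v = fun _ => pure p` is a position of `{x}` (PE on one point: `T p p = TW (inl p) (inl p) = T x x`; `p ∈ PN`,
pure_mem_KK) with `C n x ∈ pure p`: contradiction with maxRob_np. So `s = 0, t = 1`: all images are `inr z` with the same `e`, hence the same rank; `rk z = rk z'` gives `l', j', pt` equal; the image points are in `Val`. (About 120 lines.)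
-/

namespace Pool.Agent.Lib.MP_4fb322_lc_h7

open Set Filter

variable {Θ V W X : Type}

/-- counting -/
private theorem nonsplit_count {A : Finset V} {pt0 pt' : V → ℕ} {i L : ℕ} (hi : 0 < i) {e : V → ℕ}
    {P : V → Prop} (hL : ∀ x ∈ A, pt0 x = i → e x < L)
    (h1 : ∀ x ∈ A, pt0 x = i → P x → pt' x = 0)
    (h2 : ∀ x ∈ A, pt0 x = i → ¬ P x → pt' x = i * (L + 1) + e x)
    (h3 : ∀ x ∈ A, pt0 x ≠ i → pt' x = pt0 x * (L + 1)) (hmax : npt A pt' ≤ npt A pt0) {x y : V}
    (hx : x ∈ A) (hy : y ∈ A) (hxi : pt0 x = i) (hyi : pt0 y = i) :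
    (P x → x = y) ∧ (¬ P x → ¬ P y → e x = e y) := by
  classical
  obtain ⟨S, hS⟩ : ∃ S : Finset V, S = A.filter (fun x => pt0 x = i ∧ P x) := ⟨_, rfl⟩
  obtain ⟨Q, hQ⟩ : ∃ Q : Finset ℕ, Q = (A.filter (fun x => pt0 x = i ∧ ¬ P x)).image (fun x => i * (L + 1) + e x) :=
    ⟨_, rfl⟩
  obtain ⟨K, hK⟩ : ∃ K : Finset ℕ, K = ((A.image pt0).erase 0).erase i := ⟨_, rfl⟩
  have hz : (A.filter (fun x => pt0 x = 0)).card + S.card = (A.filter (fun x => pt' x = 0)).card := by
    have hd : Disjoint (A.filter (fun x => pt0 x = 0)) S := by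
      rw [Finset.disjoint_left]
      intro w hw hw'
      rw [hS] at hw'
      simp only [Finset.mem_filter] at hw hw'
      omega
    rw [← Finset.card_union_of_disjoint hd]
    congr 1
    ext w
    rw [hS]
    simp only [Finset.mem_union, Finset.mem_filter]
    constructor
    · rintro (⟨hw, h0⟩ | ⟨hw, h0, h0'⟩)
      · refine ⟨hw, ?_⟩
        rw [h3 w hw (by omega), h0, zero_mul]
      · exact ⟨hw, h1 w hw h0 h0'⟩
    · rintro ⟨hw, h0⟩
      by_cases hwi : pt0 w = i
      · by_cases hP : P w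
        · exact Or.inr ⟨hw, hwi, hP⟩
        · rw [h2 w hw hwi hP] at h0
          have : 0 < i * (L + 1) := Nat.mul_pos hi (Nat.succ_pos L)
          omega
      · rw [h3 w hw hwi] at h0
        rcases Nat.mul_eq_zero.1 h0 with h | h
        · exact Or.inl ⟨hw, h⟩
        · omega
  have hv : K.card + Q.card ≤ ((A.image pt').erase 0).card := by
    have hinj : (K.image (fun k => k * (L + 1))).card = K.card := by
      apply Finset.card_image_of_injective
      intro k k' hk
      exact Nat.eq_of_mul_eq_mul_right (Nat.succ_pos L) hk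
    have hd : Disjoint (K.image (fun k => k * (L + 1))) Q := by
      rw [Finset.disjoint_left]
      intro w hw hw'
      rw [hQ] at hw'
      rw [hK] at hw
      simp only [Finset.mem_image, Finset.mem_filter, Finset.mem_erase] at hw hw'
      obtain ⟨k, ⟨hki, -, -⟩, rfl⟩ := hw
      obtain ⟨z, ⟨hzA, hzi, -⟩, hz'⟩ := hw'
      have he := hL z hzA hzi
      apply hki
      have h4 : (i * (L + 1) + e z) / (L + 1) = i := by
        rw [Nat.mul_comm, Nat.mul_add_div (Nat.succ_pos L), Nat.div_eq_of_lt (by omega), add_zero]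
      have h5 : (k * (L + 1)) / (L + 1) = k := Nat.mul_div_cancel _ (Nat.succ_pos L)
      rw [hz', h5] at h4
      exact h4
    rw [← hinj, ← Finset.card_union_of_disjoint hd]
    apply Finset.card_le_card
    intro w hw
    rw [Finset.mem_union] at hw
    rw [Finset.mem_erase, Finset.mem_image]
    rcases hw with hw | hw
    · rw [hK] at hw
      simp only [Finset.mem_image, Finset.mem_erase] at hw
      obtain ⟨k, ⟨hki, hk0, z, hz, hzk⟩, rfl⟩ := hw
      refine ⟨?_, z, hz, ?_⟩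
      · exact (Nat.mul_pos (Nat.pos_of_ne_zero hk0) (Nat.succ_pos L)).ne'
      · rw [h3 z hz (by omega), hzk]
    · rw [hQ] at hw
      simp only [Finset.mem_image, Finset.mem_filter] at hw
      obtain ⟨z, ⟨hzA, hzi, hzP⟩, rfl⟩ := hw
      have : 0 < i * (L + 1) := Nat.mul_pos hi (Nat.succ_pos L)
      exact ⟨by omega, z, hzA, h2 z hzA hzi hzP⟩
  have hKc : K.card + 1 = ((A.image pt0).erase 0).card := by
    rw [hK]
    apply Finset.card_erase_add_one
    rw [Finset.mem_erase, Finset.mem_image]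
    exact ⟨by omega, x, hx, hxi⟩
  have hst : S.card + Q.card ≤ 1 := by
    unfold npt at hmax
    omega
  constructor
  · intro hP
    have hxS : x ∈ S := by rw [hS, Finset.mem_filter]; exact ⟨hx, hxi, hP⟩
    have hS1 : 1 ≤ S.card := Finset.card_pos.2 ⟨x, hxS⟩
    have hQ0 : Q.card = 0 := by omega
    have hyP : P y := by
      by_contra hc
      have : i * (L + 1) + e y ∈ Q := by
        rw [hQ, Finset.mem_image]
        exact ⟨y, by rw [Finset.mem_filter]; exact ⟨hy, hyi, hc⟩, rfl⟩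
      rw [Finset.card_eq_zero] at hQ0
      rw [hQ0] at this
      exact absurd this (Finset.notMem_empty _)
    have hyS : y ∈ S := by rw [hS, Finset.mem_filter]; exact ⟨hy, hyi, hyP⟩
    exact Finset.card_le_one.1 (by omega) x hxS y hyS
  · intro hxP hyP
    have hxQ : i * (L + 1) + e x ∈ Q := by
      rw [hQ, Finset.mem_image]
      exact ⟨x, by rw [Finset.mem_filter]; exact ⟨hx, hxi, hxP⟩, rfl⟩
    have hyQ : i * (L + 1) + e y ∈ Q := by
      rw [hQ, Finset.mem_image]
      exact ⟨y, by rw [Finset.mem_filter]; exact ⟨hy, hyi, hyP⟩, rfl⟩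
    have := Finset.card_le_one.1 (by omega) _ hxQ _ hyQ
    omega

theorem nonsplit [Nonempty Θ] [Finite Θ] {op : Θ → Θ} {T : V → V → Θ} {a : ℕ → Finset V}
    {u : Ultrafilter (V → V)} {pt : ℕ → V → ℕ} {π : ℕ → V → V} {C : ℕ → V → Set V}
    {ρ : ℕ → V → Ultrafilter V} (D : Dat op T a u pt π C ρ) {n i l : ℕ} (hi : 0 < i)
    {N : Set (Pt V)} (hN : N ⊆ Val u a pt) (hs : Simp pt N) {f : Pt V → Pt V}
    (hf : PE (TW op T pt ρ) (TW op T pt ρ) (blk a pt l n {i}) f)
    (hm : ∀ y ∈ blk a pt l n {i}, f y ∈ N)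
    (hC : ∀ x ∈ part a pt n i, C n x ∈ rho ρ (f (Sum.inr (l, n, x)))) :
    ∃ l' j' i', 0 < i' ∧ ∀ x ∈ part a pt n i, ∃ x' ∈ part a pt j' i',
      f (Sum.inr (l, n, x)) = Sum.inr (l', j', x') := by
  classical
  by_cases hne : ∃ x, x ∈ part a pt n i
  swap
  · exact ⟨0, 0, 1, one_pos, fun x hx => absurd ⟨x, hx⟩ hne⟩
  obtain ⟨x0, hx0⟩ := hne
  obtain ⟨L, e, pt', π', C', hrob, hL, hpin, hnpin, hoth, hee⟩ := split_rob D hi hN hs hf hm hC
  have hblk : ∀ x ∈ part a pt n i, (Sum.inr (l, n, x) : Pt V) ∈ blk a pt l n {i} := by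
    intro x hx
    exact ⟨x, hx.1, by rw [hx.2]; omega, hx.2, rfl⟩
  have count : ∀ x ∈ part a pt n i, ∀ y ∈ part a pt n i,
      ((∃ p, f (Sum.inr (l, n, x)) = Sum.inl p) → x = y) ∧
      ((¬ ∃ p, f (Sum.inr (l, n, x)) = Sum.inl p) → (¬ ∃ p, f (Sum.inr (l, n, y)) = Sum.inl p) → e x = e y) := by
    intro x hx y hy
    exact nonsplit_count (A := a n) (pt0 := pt n) (pt' := pt') (L := L) hi (e := e)
      (P := fun x => ∃ p, f (Sum.inr (l, n, x)) = Sum.inl p)
      (fun x hx hxi => hL x ⟨hx, hxi⟩) (fun x hx hxi h => hpin x ⟨hx, hxi⟩ h)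
      (fun x hx hxi h => hnpin x ⟨hx, hxi⟩ h) (fun x hx hxi => hoth x hx hxi)
      ((D.mrob n).max pt' π' C' hrob) hx.1 hy.1 hx.2 hy.2
  -- no pin images
  have hnp : ∀ x ∈ part a pt n i, ¬ ∃ p, f (Sum.inr (l, n, x)) = Sum.inl p := by
    rintro x hx ⟨p, hp⟩
    have huniq : ∀ y ∈ part a pt n i, y = x := fun y hy => ((count x hx y hy).1 ⟨p, hp⟩).symm
    have hval := hN (hm _ (hblk x hx))
    have hKK := rho_mem_KK D hval
    rw [hp] at hKK
    have hpos : Pos T u {x | x ∈ a n ∧ pt n x = i} (fun _ => (pure p : Ultrafilter V)) := by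
      refine ⟨fun y _ => hKK, fun B hB => ⟨fun _ => p, ⟨?_, ?_⟩, ?_⟩⟩
      · intro y hy z hz _
        rw [huniq y hy, huniq z hz]
      · intro y hy z hz
        rw [huniq y hy, huniq z hz]
        have h4 := hf.2 _ (hblk x hx) _ (hblk x hx)
        rw [hp, TW_same rfl] at h4
        exact h4
      · intro y hy
        exact Ultrafilter.mem_pure.1 (hB y hy)
    refine maxRob_np D.opT (D.mrob n) hi hpos ?_ x hx.1 hx.2 p rfl
    intro y hy hyi
    have := hC y ⟨hy, hyi⟩
    rw [huniq y ⟨hy, hyi⟩] at this ⊢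
    rw [hp] at this
    exact this
  have hinr : ∀ x ∈ part a pt n i, ∃ z, f (Sum.inr (l, n, x)) = Sum.inr z := by
    intro x hx
    rcases h : f (Sum.inr (l, n, x)) with p | z
    · exact absurd ⟨p, h⟩ (hnp x hx)
    · exact ⟨z, rfl⟩
  have hvz : ∀ x ∈ part a pt n i, ∀ z, f (Sum.inr (l, n, x)) = Sum.inr z →
      z.2.2 ∈ a z.2.1 ∧ pt z.2.1 z.2.2 ≠ 0 := by
    intro x hx z hz
    have hval := hN (hm _ (hblk x hx))
    rw [hz] at hval
    rcases hval with ⟨p, -, h⟩ | ⟨l1, j1, x1, h1, h2, h3⟩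
    · exact absurd h (by simp)
    · rw [Sum.inr.injEq] at h3
      rw [h3]
      exact ⟨h1, h2⟩
  obtain ⟨z0, hz0⟩ := hinr x0 hx0
  refine ⟨z0.1, z0.2.1, pt z0.2.1 z0.2.2, Nat.pos_of_ne_zero (hvz x0 hx0 z0 hz0).2, fun x hx => ?_⟩
  obtain ⟨z, hz⟩ := hinr x hx
  have h1 := (hee x hx x0 hx0 z z0 hz hz0).1 ((count x hx x0 hx0).2 (hnp x hx) (hnp x0 hx0))
  obtain ⟨l1, j1, x1⟩ := z
  obtain ⟨l2, j2, x2⟩ := z0
  unfold rk at h1
  have h2 := toLex.injective h1
  simp only [Prod.mk.injEq] at h2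
  obtain ⟨h3, h4⟩ := h2
  have h5 := toLex.injective h4
  simp only [Prod.mk.injEq] at h5
  obtain ⟨h6, h7⟩ := h5
  subst h3 h6
  refine ⟨x1, ⟨(hvz x hx _ hz).1, h7⟩, hz⟩

end Pool.Agent.Lib.MP_4fb322_lc_h7
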