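import Mathlib
import Pool.Agent.Lib.MP_4fb322_lc_h7.Defs
import Pool.Agent.Lib.MP_4fb322_lc_h7.R12

set_option autoImplicit false

/-!
# Row R18

Pairs of near points. PROOFS. pair_lt: TW_lt and `(D.mrob n).rob.cross` (the positions are in KK: mem_KK, hypotheses hz, hz'). pair_gt: TW_gt, Com gives `QQ T w v = T y x`, and `op (T y x) = T x y` (opT). not_com: if `rk z' < rk z` (reversed) for images of all pairs `x ∈ part i`, `y ∈ part i'`, `i < i'`, of an embedding, then Com: `TW (F x) (F y) = op (QQ (ρ z') (ρ z))` equals `T x y`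
so `QQ (ρ z') (ρ z) = op (T x y) = T y x` (op involutive on values of T) and it is the constant of crossS.
-/

namespace Pool.Agent.Lib.MP_4fb322_lc_h7

open Set Filter

variable {Θ V W X : Type}

private theorem r18_rk {pt : ℕ → V → ℕ} {s s' n : ℕ} {x y : V}
    (h : s < s' ∨ (s = s' ∧ pt n x < pt n y)) : rk pt (s, n, x) < rk pt (s', n, y) := by
  unfold rk
  rw [Prod.Lex.toLex_lt_toLex]
  rcases h with h | ⟨h1, h2⟩
  · exact Or.inl h
  · refine Or.inr ⟨h1, ?_⟩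
    simp only
    rw [Prod.Lex.toLex_lt_toLex]
    exact Or.inr ⟨rfl, h2⟩

theorem pair_lt [Nonempty Θ] [Finite Θ] {op : Θ → Θ} {T : V → V → Θ} {a : ℕ → Finset V}
    {u : Ultrafilter (V → V)} {pt : ℕ → V → ℕ} {π : ℕ → V → V} {C : ℕ → V → Set V}
    {ρ : ℕ → V → Ultrafilter V} (D : Dat op T a u pt π C ρ) {n : ℕ} {x y : V} (hx : x ∈ a n)
    (hy : y ∈ a n) (h0 : 0 < pt n x) (hxy : pt n x < pt n y) {z z' : ℕ × ℕ × V}
    (hz : ρ z.2.1 z.2.2 ∈ KK u) (hz' : ρ z'.2.1 z'.2.2 ∈ KK u)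
    (hCx : C n x ∈ ρ z.2.1 z.2.2) (hCy : C n y ∈ ρ z'.2.1 z'.2.2) (hr : rk pt z < rk pt z') :
    TW op T pt ρ (Sum.inr z) (Sum.inr z') = T x y ∧
      TW op T pt ρ (Sum.inr z') (Sum.inr z) = T y x := by
  have h1 := (D.mrob n).rob.cross x hx y hy h0 hxy _ hz _ hz' hCx hCy
  constructor
  · rw [TW_lt hr, h1]
  · rw [TW_gt hr, h1]
    exact (D.opT x y).symm

theorem pair_gt [Nonempty Θ] [Finite Θ] {op : Θ → Θ} {T : V → V → Θ} {a : ℕ → Finset V}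
    {u : Ultrafilter (V → V)} {pt : ℕ → V → ℕ} {π : ℕ → V → V} {C : ℕ → V → Set V}
    {ρ : ℕ → V → Ultrafilter V} (D : Dat op T a u pt π C ρ) {n : ℕ} {x y : V} (hx : x ∈ a n)
    (hy : y ∈ a n) (h0 : 0 < pt n x) (hxy : pt n x < pt n y)
    (hcom : Com T u a pt C n (pt n x) (pt n y)) {z z' : ℕ × ℕ × V}
    (hz : ρ z.2.1 z.2.2 ∈ KK u) (hz' : ρ z'.2.1 z'.2.2 ∈ KK u)
    (hCx : C n x ∈ ρ z.2.1 z.2.2) (hCy : C n y ∈ ρ z'.2.1 z'.2.2) (hr : rk pt z' < rk pt z) :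
    TW op T pt ρ (Sum.inr z) (Sum.inr z') = T x y ∧
      TW op T pt ρ (Sum.inr z') (Sum.inr z) = T y x := by
  have h1 := (hcom x ⟨hx, rfl⟩ y ⟨hy, rfl⟩ _ hz _ hz' hCx hCy).2
  constructor
  · rw [TW_gt hr, h1]
    exact (D.opT y x).symm
  · rw [TW_lt hr, h1]

/-- if two different parts (of copies) of `a n`, the first before the second, are mapped by near maps in the wrong
order, then they commute -/
theorem com_of_rev [Nonempty Θ] [Finite Θ] {op : Θ → Θ} {T : V → V → Θ} {a : ℕ → Finset V}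
    {u : Ultrafilter (V → V)} {pt : ℕ → V → ℕ} {π : ℕ → V → V} {C : ℕ → V → Set V}
    {ρ : ℕ → V → Ultrafilter V} (D : Dat op T a u pt π C ρ) {n i i' s s' : ℕ} (hi : 0 < i)
    (hi' : 0 < i') (hii : i ≠ i') (hsrc : s < s' ∨ (s = s' ∧ i < i')) {f : Pt V → Pt V}
    (hf : PE (TW op T pt ρ) (TW op T pt ρ) (blk a pt s n {i} ∪ blk a pt s' n {i'}) f)
    (hrev : ∀ x ∈ part a pt n i, ∀ y ∈ part a pt n i', ∃ z z', f (Sum.inr (s, n, x)) = Sum.inr z ∧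
      f (Sum.inr (s', n, y)) = Sum.inr z' ∧ ρ z.2.1 z.2.2 ∈ KK u ∧ ρ z'.2.1 z'.2.2 ∈ KK u ∧
      C n x ∈ ρ z.2.1 z.2.2 ∧ C n y ∈ ρ z'.2.1 z'.2.2 ∧ rk pt z' < rk pt z) :
    Com T u a pt C n (min i i') (max i i') := by
  have memX : ∀ x ∈ part a pt n i, (Sum.inr (s, n, x) : Pt V) ∈ blk a pt s n {i} ∪ blk a pt s' n {i'} := by
    intro x hx
    exact Or.inl ⟨x, hx.1, by rw [hx.2]; omega, hx.2, rfl⟩
  have memY : ∀ y ∈ part a pt n i', (Sum.inr (s', n, y) : Pt V) ∈ blk a pt s n {i} ∪ blk a pt s' n {i'} := by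
    intro y hy
    exact Or.inr ⟨y, hy.1, by rw [hy.2]; omega, hy.2, rfl⟩
  have hrk : ∀ x ∈ part a pt n i, ∀ y ∈ part a pt n i', rk pt (s, n, x) < rk pt (s', n, y) := by
    intro x hx y hy
    apply r18_rk
    rw [hx.2, hy.2]
    exact hsrc
  have kk : ∀ k, 0 < k → ∀ x ∈ part a pt n k, ρ n x ∈ KK u ∧ C n x ∈ ρ n x := by
    intro k hk x hx
    have h0 : pt n x ≠ 0 := by rw [hx.2]; omega
    exact ⟨mem_KK D hx.1 h0, D.gpos.mem n x hx.1 h0⟩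
  rcases lt_or_gt_of_ne hii with hlt | hgt
  · rw [min_eq_left hlt.le, max_eq_right hlt.le]
    intro x hx y hy v hv w hw hCv hCw
    have hx0 : 0 < pt n x := by rw [hx.2]; exact hi
    have hxy : pt n x < pt n y := by rw [hx.2, hy.2]; exact hlt
    refine ⟨(D.mrob n).rob.cross x hx.1 y hy.1 hx0 hxy v hv w hw hCv hCw, ?_⟩
    obtain ⟨θ, hθ⟩ := (D.mrob n).rob.crossS x hx.1 y hy.1 hx0 hxy
    obtain ⟨z, z', h1, h2, h3, h4, h5, h6, h7⟩ := hrev x hx y hy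
    have e1 := hθ _ h3 _ h4 h5 h6
    have e2 := hf.2 _ (memY y hy) _ (memX x hx)
    rw [h1, h2, TW_lt h7, e1, TW_gt (hrk x hx y hy)] at e2
    have e3 := (D.mrob n).rob.cross x hx.1 y hy.1 hx0 hxy _ (kk i hi x hx).1 _ (kk i' hi' y hy).1
      (kk i hi x hx).2 (kk i' hi' y hy).2
    simp only at e2
    rw [e3, ← D.opT x y] at e2
    rw [hθ v hv w hw hCv hCw, e2]
  · rw [min_eq_right hgt.le, max_eq_left hgt.le]
    intro x hx y hy v hv w hw hCv hCw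
    have hx0 : 0 < pt n x := by rw [hx.2]; exact hi'
    have hxy : pt n x < pt n y := by rw [hx.2, hy.2]; exact hgt
    refine ⟨(D.mrob n).rob.cross x hx.1 y hy.1 hx0 hxy v hv w hw hCv hCw, ?_⟩
    obtain ⟨θ, hθ⟩ := (D.mrob n).rob.crossS x hx.1 y hy.1 hx0 hxy
    obtain ⟨z, z', h1, h2, h3, h4, h5, h6, h7⟩ := hrev y hy x hx
    have e1 := (D.mrob n).rob.cross x hx.1 y hy.1 hx0 hxy _ h4 _ h3 h6 h5
    have e2 := hf.2 _ (memX y hy) _ (memY x hx)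
    rw [h1, h2, TW_gt h7, e1, TW_lt (hrk y hy x hx)] at e2
    have e3 := hθ _ (kk i' hi' x hx).1 _ (kk i hi y hy).1 (kk i' hi' x hx).2 (kk i hi y hy).2
    simp only at e2
    rw [e3, ← D.opT x y] at e2
    rw [hθ v hv w hw hCv hCw, ← e2]

end Pool.Agent.Lib.MP_4fb322_lc_h7
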