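import Mathlib
import Pool.Agent.Lib.MP_4fb322_lc_h7.Defs
import Pool.Agent.Lib.MP_4fb322_lc_h7.R02
import Pool.Agent.Lib.MP_4fb322_lc_h7.R12
import Pool.Agent.Lib.MP_4fb322_lc_h7.R18

set_option autoImplicit false

/-!
# Row R19

GLUE: a map `F` of `a n` to valid points, with the pins on their pins, near on the other points, such that every pair of different nonpin points is either handled directly or lies in different parts sent to different pieces, in the right order or commuting, is an embedding. PROOF. Injectivity: pins are different (pinj) and are not `inr`; nonpins: the direct pairs are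
different by hypothesis, the others have different ranks. Structure: pin-pin: pinT; pin `x`, nonpin `y`: `TW (inl (π x)) (inr z) = lim (ρ z) (T (π x)) = T x y` by pinQ, other order by opT; equal points `x = y`: use the hypothesis hdiag; pairs: direct, pair_lt, pair_gt.
-/

namespace Pool.Agent.Lib.MP_4fb322_lc_h7

open Set Filter

variable {Θ V W X : Type}

theorem glue [Nonempty Θ] [Finite Θ] {op : Θ → Θ} {T : V → V → Θ} {a : ℕ → Finset V}
    {u : Ultrafilter (V → V)} {pt : ℕ → V → ℕ} {π : ℕ → V → V} {C : ℕ → V → Set V}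
    {ρ : ℕ → V → Ultrafilter V} (D : Dat op T a u pt π C ρ) {n : ℕ} {F : V → Pt V}
    (h0 : ∀ x ∈ a n, pt n x = 0 → F x = Sum.inl (π n x))
    (h1 : ∀ x ∈ a n, pt n x ≠ 0 → ∃ z, F x = Sum.inr z ∧ ρ z.2.1 z.2.2 ∈ KK u ∧
      C n x ∈ ρ z.2.1 z.2.2 ∧ TW op T pt ρ (F x) (F x) = T x x)
    (h2 : ∀ x ∈ a n, ∀ y ∈ a n, pt n x ≠ 0 → pt n y ≠ 0 → x ≠ y →
      (F x ≠ F y ∧ TW op T pt ρ (F x) (F y) = T x y) ∨
      (pt n x ≠ pt n y ∧ ∀ z z', F x = Sum.inr z → F y = Sum.inr z' →
        (pt n x < pt n y ∧ rk pt z < rk pt z') ∨ (pt n y < pt n x ∧ rk pt z' < rk pt z) ∨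
        (rk pt z ≠ rk pt z' ∧ Com T u a pt C n (min (pt n x) (pt n y)) (max (pt n x) (pt n y))))) :
    PE T (TW op T pt ρ) (a n : Set V) F := by
  have R := (D.mrob n).rob
  constructor
  · intro x hx y hy hF
    have hx' : x ∈ a n := hx
    have hy' : y ∈ a n := hy
    by_cases px : pt n x = 0
    · by_cases py : pt n y = 0
      · rw [h0 x hx' px, h0 y hy' py] at hF
        exact R.pinj x hx' y hy' px py (Sum.inl.inj hF)
      · obtain ⟨z, hz, -⟩ := h1 y hy' py
        rw [h0 x hx' px, hz] at hF
        cases hF
    · by_cases py : pt n y = 0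
      · obtain ⟨z, hz, -⟩ := h1 x hx' px
        rw [h0 y hy' py, hz] at hF
        cases hF
      · by_contra hne
        obtain ⟨z, hz, -⟩ := h1 x hx' px
        obtain ⟨z', hz', -⟩ := h1 y hy' py
        have hzz : z = z' := by
          rw [hz, hz'] at hF
          exact Sum.inr.inj hF
        rcases h2 x hx' y hy' px py hne with h | ⟨-, h⟩
        · exact h.1 hF
        · rcases h z z' hz hz' with h | h | h
          · rw [hzz] at h; exact lt_irrefl _ h.2
          · rw [hzz] at h; exact lt_irrefl _ h.2
          · rw [hzz] at h; exact h.1 rfl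
  · intro x hx y hy
    have hx' : x ∈ a n := hx
    have hy' : y ∈ a n := hy
    by_cases px : pt n x = 0
    · by_cases py : pt n y = 0
      · rw [h0 x hx' px, h0 y hy' py]
        exact R.pinT x hx' y hy' px py
      · obtain ⟨z, hz, hK, hC, -⟩ := h1 y hy' py
        rw [h0 x hx' px, hz]
        exact (R.pinQ x hx' y hy' px py _ hK hC).1
    · by_cases py : pt n y = 0
      · obtain ⟨z, hz, hK, hC, -⟩ := h1 x hx' px
        rw [h0 y hy' py, hz]
        show op (lim (ρ z.2.1 z.2.2) (fun b => T (π n y) b)) = T x y
        rw [(R.pinQ y hy' x hx' py px _ hK hC).1, ← D.opT y x]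
      · by_cases hxy : x = y
        · subst hxy
          obtain ⟨z, hz, hK, hC, hd⟩ := h1 x hx' px
          exact hd
        · obtain ⟨z, hz, hK, hC, -⟩ := h1 x hx' px
          obtain ⟨z', hz', hK', hC', -⟩ := h1 y hy' py
          rcases h2 x hx' y hy' px py hxy with h | ⟨hp, h⟩
          · exact h.2
          · have hxp : 0 < pt n x := Nat.pos_of_ne_zero px
            have hyp : 0 < pt n y := Nat.pos_of_ne_zero py
            rw [hz, hz']
            rcases h z z' hz hz' with h | h | h
            · exact (pair_lt D hx' hy' hxp h.1 hK hK' hC hC' h.2).1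
            · exact (pair_lt D hy' hx' hyp h.1 hK' hK hC' hC h.2).2
            · obtain ⟨hr, hcom⟩ := h
              rcases lt_or_gt_of_ne hp with hlt | hlt
              · rw [min_eq_left hlt.le, max_eq_right hlt.le] at hcom
                rcases lt_or_gt_of_ne hr with h3 | h3
                · exact (pair_lt D hx' hy' hxp hlt hK hK' hC hC' h3).1
                · exact (pair_gt D hx' hy' hxp hlt hcom hK hK' hC hC' h3).1
              · rw [min_eq_right hlt.le, max_eq_left hlt.le] at hcom
                rcases lt_or_gt_of_ne hr with h3 | h3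
                · exact (pair_gt D hy' hx' hyp hlt hcom hK' hK hC' hC h3).2
                · exact (pair_lt D hy' hx' hyp hlt hK' hK hC' hC h3).2

end Pool.Agent.Lib.MP_4fb322_lc_h7
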