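import Mathlib
import Pool.Agent.Lib.MP_4fb322_lc_h7.Defs
import Pool.Agent.Lib.MP_4fb322_lc_h7.R14
import Pool.Agent.Lib.MP_4fb322_lc_h7.R15
import Pool.Agent.Lib.MP_4fb322_lc_h7.R19

set_option autoImplicit false

/-!
# Row R20

Every pin is a pin of almost all `a m`. PROOF. Suppose `Ω = {m | no x ∈ a m with pt m x = 0, π m x = p}` is in UF. Let `N m = {inl (π j x) | j ≤ m, j ∈ Ω, x ∈ a j, pt j x = 0} ∪ ⋃ {blk a pt 0 j univ | j ≤ m, j ∈ Ω}` (valid points; `π j x ∈ PN` by pin). For `n ∈ Ω` and all `m ≥ n` (almost all), `a n` embeds in `N m` by `x ↦ inl (π n x)` / `inr (0, n, x)` (glue: near by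
`D.gpos.mem`, same part: TW_same direct, different parts: pair order `rk (0,n,x) < rk (0,n,y) ↔ pt n x < pt n y`). full_of, then recog for `Y = {inl p}`, `𝒞 = {{p}}`: `{p} ∈ rho (f (inl p))`; the image is a valid point of `N m`; if it is `inr z` then `ρ z` is nonprincipal (np) but contains `{p}`: contradiction; if it is `inl q` then `q = p`, and `inl p ∈ N m` contradicts `j ∈ Ω`.
near_pin: same argument.
-/

namespace Pool.Agent.Lib.MP_4fb322_lc_h7

open Set Filter

variable {Θ V W X : Type}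

theorem near_pin [Nonempty Θ] [Finite Θ] {op : Θ → Θ} {T : V → V → Θ} {a : ℕ → Finset V}
    {u : Ultrafilter (V → V)} {pt : ℕ → V → ℕ} {π : ℕ → V → V} {C : ℕ → V → Set V}
    {ρ : ℕ → V → Ultrafilter V} (D : Dat op T a u pt π C ρ) {p : V} {z : Pt V}
    (hz : z ∈ Val u a pt) (h : {p} ∈ rho ρ z) : z = Sum.inl p := by
  rcases hz with ⟨q, -, rfl⟩ | ⟨l, j, x, hx, h0, rfl⟩
  · have h1 : q ∈ ({p} : Set V) := h
    rw [Set.mem_singleton_iff] at h1
    rw [h1]
  · exfalso
    have h1 : ({p} : Set V) ∈ ρ j x := h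
    apply np D hx h0 p
    apply Ultrafilter.coe_injective
    have h2 : ((ρ j x : Ultrafilter V) : Filter V) ≤ ((pure p : Ultrafilter V) : Filter V) := by
      rw [Ultrafilter.coe_pure, Filter.le_pure_iff]
      exact h1
    exact le_antisymm h2 (((pure p : Ultrafilter V).unique h2).symm.le)

theorem pins_ae [Nonempty Θ] [Finite Θ] {op : Θ → Θ} {T : V → V → Θ} {a : ℕ → Finset V}
    {u : Ultrafilter (V → V)} {pt : ℕ → V → ℕ} {π : ℕ → V → V} {C : ℕ → V → Set V}
    {ρ : ℕ → V → Ultrafilter V} (D : Dat op T a u pt π C ρ) {p : V} (hp : p ∈ PN u) :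
    ∀ᶠ m in (UF : Filter ℕ), ∃ x ∈ a m, pt m x = 0 ∧ π m x = p := by
  classical
  by_contra hcon
  have hΩ : ∀ᶠ m in (UF : Filter ℕ), ¬ ∃ x ∈ a m, pt m x = 0 ∧ π m x = p :=
    Ultrafilter.eventually_not.2 hcon
  obtain ⟨N, hNdef⟩ : ∃ N : ℕ → Set (Pt V), N = fun m => {z | (∃ j, j ≤ m ∧
      (¬ ∃ x ∈ a j, pt j x = 0 ∧ π j x = p) ∧ ∃ x ∈ a j, pt j x = 0 ∧ z = Sum.inl (π j x)) ∨
      ∃ j, j ≤ m ∧ z ∈ blk a pt 0 j Set.univ} := ⟨_, rfl⟩
  have hN : ∀ m, N m ⊆ Val u a pt := by
    intro m z hz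
    rw [hNdef] at hz
    rcases hz with ⟨j, -, -, x, hx, h0, rfl⟩ | ⟨j, -, x, hx, h0, -, rfl⟩
    · exact Or.inl ⟨π j x, (D.mrob j).rob.pin x hx h0, rfl⟩
    · exact Or.inr ⟨0, j, x, hx, h0, rfl⟩
  have hF : Full T (TW op T pt ρ) UF N := by
    apply full_of D UF N hN
    filter_upwards [hΩ] with n hn
    have hge : ∀ᶠ m in (UF : Filter ℕ), n ≤ m :=
      Nat.hyperfilter_le_atTop (Filter.eventually_ge_atTop n)
    filter_upwards [hge] with m hm
    refine ⟨fun x => if pt n x = 0 then Sum.inl (π n x) else Sum.inr (0, n, x), ?_, ?_⟩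
    · apply glue D
      · intro x hx h0
        simp [h0]
      · intro x hx h0
        refine ⟨(0, n, x), by simp [h0], mem_KK D hx h0, D.gpos.mem n x hx h0, ?_⟩
        simp only [h0, if_false]
        exact TW_same rfl
      · intro x hx y hy px py hxy
        by_cases hp : pt n x = pt n y
        · left
          simp only [px, py, if_false]
          refine ⟨fun h => hxy ?_, ?_⟩
          · have h1 := Sum.inr.inj h
            exact (Prod.ext_iff.1 (Prod.ext_iff.1 h1).2).2
          · apply TW_same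
            show toLex ((0:ℕ), toLex (n, pt n x)) = toLex ((0:ℕ), toLex (n, pt n y))
            rw [hp]
        · right
          refine ⟨hp, ?_⟩
          intro z z' hz hz'
          simp only [px, py, if_false] at hz hz'
          have hz1 := Sum.inr.inj hz
          have hz2 := Sum.inr.inj hz'
          rw [← hz1, ← hz2]
          rcases lt_or_gt_of_ne hp with hlt | hlt
          · left
            refine ⟨hlt, ?_⟩
            show toLex ((0:ℕ), toLex (n, pt n x)) < toLex ((0:ℕ), toLex (n, pt n y))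
            rw [Prod.Lex.toLex_lt_toLex]
            right
            refine ⟨rfl, ?_⟩
            rw [Prod.Lex.toLex_lt_toLex]
            right
            exact ⟨rfl, hlt⟩
          · right; left
            refine ⟨hlt, ?_⟩
            show toLex ((0:ℕ), toLex (n, pt n y)) < toLex ((0:ℕ), toLex (n, pt n x))
            rw [Prod.Lex.toLex_lt_toLex]
            right
            refine ⟨rfl, ?_⟩
            rw [Prod.Lex.toLex_lt_toLex]
            right
            exact ⟨rfl, hlt⟩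
    · intro x hx
      rw [hNdef]
      by_cases h0 : pt n x = 0
      · left
        exact ⟨n, hm, hn, x, hx, h0, by simp [h0]⟩
      · right
        exact ⟨n, hm, x, hx, h0, Set.mem_univ _, by simp [h0]⟩
  have hrec := recog D UF N hN hF (Y := {Sum.inl p}) (Set.finite_singleton _)
    (by
      intro z hz
      rw [Set.mem_singleton_iff] at hz
      exact Or.inl ⟨p, hp, hz⟩) (𝒞 := {{p}}) (Set.finite_singleton _)
  obtain ⟨m, f, -, hf⟩ := hrec.exists
  obtain ⟨hfN, hfB⟩ := hf (Sum.inl p) rfl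
  have h1 : ({p} : Set V) ∈ rho ρ (f (Sum.inl p)) := by
    apply (hfB {p} rfl).2
    show p ∈ ({p} : Set V)
    rfl
  have h2 := near_pin D (hN m hfN) h1
  rw [h2, hNdef] at hfN
  rcases hfN with ⟨j, -, hj, x, hx, h0, he⟩ | ⟨j, -, x, hx, h0, -, he⟩
  · exact hj ⟨x, hx, h0, (Sum.inl.inj he).symm⟩
  · cases he

end Pool.Agent.Lib.MP_4fb322_lc_h7
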