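import Mathlib
import Pool.Agent.Lib.MP_4fb322_lc_h7.Defs
import Pool.Agent.Lib.MP_4fb322_lc_h7.R01
import Pool.Agent.Lib.MP_4fb322_lc_h7.R09
import Pool.Agent.Lib.MP_4fb322_lc_h7.R11

set_option autoImplicit false

/-!
# Row R21

The data of the first half exist. PROOF: exists_gen, exists_maxRob for every `n` (choose), exists_genPos.
-/

namespace Pool.Agent.Lib.MP_4fb322_lc_h7

open Set Filter

variable {Θ V W X : Type}

theorem exists_dat [Nonempty Θ] [Finite Θ] {op : Θ → Θ} {T : V → V → Θ} {a : ℕ → Finset V}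
    (opT : ∀ x y, T y x = op (T x y)) (hN : ∀ θ, ∃ n, ¬ Shat T θ n) (hm : Mini T a)
    (ha : ∀ i j, i ≠ j → ¬ ∃ f : V → V, PE T T (a i : Set V) f ∧ ∀ x ∈ a i, f x ∈ a j) :
    ∃ u pt π C ρ, Dat op T a u pt π C ρ := by
  obtain ⟨u, hu⟩ := exists_gen T
  choose pt π C h using fun n => exists_maxRob hu (a n)
  obtain ⟨ρ, hρ⟩ := exists_genPos hu hN h
  exact ⟨u, pt, π, C, ρ, ⟨opT, hu, hm, ha, h, hρ⟩⟩

end Pool.Agent.Lib.MP_4fb322_lc_h7
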